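import Pool.Agent.H.MP_ac3185_nt.V.DivG

/-! Points which are infinitely divisible by `2`, over a locally compact field. -/

set_option autoImplicit false

open CategoryTheory AlgebraicGeometry NumberField Filter
open scoped MonObj

namespace Pool.Agent.H.MP_ac3185_nt

universe u

section origin

variable {K : Type u} [Field K]

/-- There is a chart around the origin. -/
theorem vd_origin (A : Over (Spec (.of K))) [GrpObj A] [IsAbVar A] :
    ∃ (B : Type u) (_ : CommRing B) (_ : Algebra K B) (j : spR K B ⟶ A)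
      (_ : IsOpenImmersion j.left) (ε : B →ₐ[K] K) (G : Finset B),
      (1 : spR K K ⟶ A) = spMap ε ≫ j ∧ Algebra.adjoin K (G : Set B) = ⊤ ∧ ∀ g ∈ G, ε g = 0 := by
  classical
  have hp := (inferInstance : IsAbVar A).proper
  obtain ⟨B, _, _, j, hj, ε, hε⟩ := vd_local_chart (A := A) (AlgHom.id K K)
    (fun a ha => IsUnit.mk0 a ha) (1 : spR K K ⟶ A)
  have hB : Algebra.FiniteType K B := vd_finiteType j
  obtain ⟨s, hs⟩ := hB.out
  refine ⟨B, _, _, j, hj, ε, s.image fun b => b - algebraMap K B (ε b), hε, ?_, ?_⟩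
  · rw [eq_top_iff, ← hs, Algebra.adjoin_le_iff]
    intro b hb
    have h1 : b - algebraMap K B (ε b) ∈
        Algebra.adjoin K ((s.image fun b => b - algebraMap K B (ε b) : Finset B) : Set B) :=
      Algebra.subset_adjoin (Finset.mem_coe.2 (Finset.mem_image_of_mem _ hb))
    have h2 := add_mem h1 (Subalgebra.algebraMap_mem
      (Algebra.adjoin K ((s.image fun b => b - algebraMap K B (ε b) : Finset B) : Set B)) (ε b))
    rwa [sub_add_cancel] at h2
  · intro g hg
    obtain ⟨b, -, rfl⟩ := Finset.mem_image.1 hg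
    rw [map_sub, ε.commutes]
    exact sub_self _

end origin

section divisible

variable {K : Type u} [Field K] {E : Type u} [Field E] [Algebra K E]

/-- A point which is divisible by all powers of `2` is a torsion point of odd order. -/
theorem vd_divisible (A : Over (Spec (.of K))) [GrpObj A] [IsAbVar A] (v : AbsoluteValue E ℝ)
    (hc : ∀ (f : ℕ → E) (C : ℝ), (∀ n, v (f n) ≤ C) → ∃ l, VdLim v f l) (hv : v 2 < 1)
    (x : spR K E ⟶ A) (hx : ∀ k : ℕ, ∃ y : spR K E ⟶ A, x = y ^ (2 ^ k)) :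
    ∃ N : ℕ, Odd N ∧ x ^ N = 1 := by
  obtain ⟨D⟩ := exists_vdRing K E v hc
  obtain ⟨B, _, _, j, hj, ε, G, hε, hG, hG0⟩ := vd_origin A
  obtain ⟨δ0, hδ0, hcontr⟩ := vd_contract D j ε hε G hG hG0 hv
  obtain ⟨ρ, hρ⟩ : ∃ ρ : ℝ, ρ = (1 + v 2) / 2 := ⟨_, rfl⟩
  rw [← hρ] at hcontr
  have hρ1 : ρ < 1 := by rw [hρ]; linarith
  have hρ0 : 0 < ρ := by
    have : 0 ≤ v (2 : E) := v.nonneg _
    rw [hρ]; linarith
  have hρle : ∀ k : ℕ, ρ ^ k ≤ 1 := fun k => pow_le_one₀ hρ0.le hρ1.le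
  -- iterated contraction
  have hiter : ∀ (k : ℕ) (z : spR K E ⟶ A), Near v j G δ0 z →
      Near v j G (ρ ^ k * δ0) (z ^ (2 ^ k)) := by
    intro k
    induction k with
    | zero =>
      intro z hz
      rw [pow_zero, one_mul, pow_zero, pow_one]
      exact hz
    | succ k ih =>
      intro z hz
      have h1 := hcontr (ρ ^ k * δ0) (by positivity) (mul_le_of_le_one_left hδ0.le (hρle k)) _
        (ih z hz)
      rw [pow_succ 2 k, pow_mul, pow_two, pow_succ' ρ k, mul_assoc]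
      exact h1
  -- `ρ ^ n` is small
  have hsmall : ∀ δ > 0, ∀ᶠ n in (vdU : Filter ℕ), ρ ^ n * δ0 ≤ δ := by
    intro δ hδ
    have h1 : Tendsto (fun n : ℕ => ρ ^ n * δ0) atTop (nhds (0 * δ0)) :=
      (tendsto_pow_atTop_nhds_zero_of_lt_one hρ0.le hρ1).mul_const δ0
    rw [zero_mul] at h1
    exact Nat.hyperfilter_le_atTop ((h1.eventually (gt_mem_nhds hδ)).mono fun n hn => hn.le)
  choose y hy using hx
  obtain ⟨l, hl⟩ := exists_small_div D y
  have h1 : Small D (fun n => x / l ^ (2 ^ n)) := by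
    refine Small.of_near j ε hε G hG hG0 fun δ hδ => ?_
    filter_upwards [hl.near j ε hε G hG0 δ0 hδ0, hsmall δ hδ] with n e1 e2
    have e3 := hiter n _ e1
    rw [div_pow, ← hy n] at e3
    exact e3.mono j G e2
  have h2 : ∀ n : ℕ, ∃ m : ℕ, n < m ∧ Near v j G (1 / ((n : ℝ) + 1)) (x / l ^ (2 ^ m)) := by
    intro n
    have e1 := h1.near j ε hε G hG0 (1 / ((n : ℝ) + 1)) (by positivity)
    have e2 : ∀ᶠ m in (vdU : Filter ℕ), n < m :=
      Nat.hyperfilter_le_atTop (eventually_gt_atTop n)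
    obtain ⟨m, hm1, hm2⟩ := (e1.and e2).exists
    exact ⟨m, hm2, hm1⟩
  choose κ hκ1 hκ2 using h2
  have h3 : Small D (fun n => x / l ^ (2 ^ κ n)) := by
    refine Small.of_near j ε hε G hG hG0 fun δ hδ => ?_
    obtain ⟨N, hN⟩ := exists_nat_one_div_lt hδ
    have e1 : ∀ᶠ n in (vdU : Filter ℕ), N ≤ n :=
      Nat.hyperfilter_le_atTop (eventually_ge_atTop N)
    filter_upwards [e1] with n hn
    refine (hκ2 n).mono j G (le_trans ?_ hN.le)
    exact one_div_le_one_div_of_le (by positivity) (by exact_mod_cast Nat.succ_le_succ hn)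
  have h4 := h1.div h3
  obtain ⟨n, hn⟩ := (h4.near j ε hε G hG0 δ0 hδ0).exists
  obtain ⟨h, hh⟩ : ∃ h, κ n = n + (h + 1) := ⟨κ n - n - 1, by have := hκ1 n; omega⟩
  set N : ℕ := 2 ^ (h + 1) - 1 with hN
  have hNpos : N + 1 = 2 ^ (h + 1) := Nat.sub_add_cancel Nat.one_le_two_pow
  have hNodd : Odd N := by
    rw [Nat.odd_iff]
    have : 2 ^ (h + 1) = 2 * 2 ^ h := by rw [pow_succ]; ring
    omega
  refine ⟨N, hNodd, ?_⟩
  have e1 : x / l ^ (2 ^ n) / (x / l ^ (2 ^ κ n)) = (l ^ (2 ^ n)) ^ N := by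
    rw [div_div_div_cancel_left, hh, pow_add 2 n, pow_mul, ← hNpos, pow_succ, mul_div_assoc,
      div_self', mul_one]
  have hn' : Near v j G δ0 ((l ^ (2 ^ n)) ^ N) := e1 ▸ hn
  have h5 : Small D (fun m => (l ^ (2 ^ m)) ^ N) := by
    refine Small.of_near j ε hε G hG hG0 fun δ hδ => ?_
    have e2 : ∀ᶠ m in (vdU : Filter ℕ), ρ ^ (m - n) * δ0 ≤ δ := by
      have e3 : Tendsto (fun m : ℕ => ρ ^ (m - n) * δ0) atTop (nhds (0 * δ0)) :=
        ((tendsto_pow_atTop_nhds_zero_of_lt_one hρ0.le hρ1).comp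
          (tendsto_sub_atTop_nat n)).mul_const δ0
      rw [zero_mul] at e3
      exact Nat.hyperfilter_le_atTop ((e3.eventually (gt_mem_nhds hδ)).mono fun n hn => hn.le)
    have e4 : ∀ᶠ m in (vdU : Filter ℕ), n ≤ m :=
      Nat.hyperfilter_le_atTop (eventually_ge_atTop n)
    filter_upwards [e2, e4] with m e5 e6
    have e7 := hiter (m - n) _ hn'
    have e8 : ((l ^ (2 ^ n)) ^ N) ^ (2 ^ (m - n)) = (l ^ (2 ^ m)) ^ N := by
      rw [← pow_mul, ← pow_mul, ← pow_mul]
      congr 1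
      have e9 : 2 ^ m = 2 ^ n * 2 ^ (m - n) := by
        rw [← pow_add]
        congr 1
        omega
      rw [e9]
      ring
    rw [e8] at e7
    exact e7.mono j G e5
  have h6 : Small D (fun _ => x ^ N) := by
    have e2 := (h1.pow N).mul h5
    have e3 : (fun m => (x / l ^ (2 ^ m)) ^ N * (l ^ (2 ^ m)) ^ N) = fun _ : ℕ => x ^ N := by
      funext m
      rw [← mul_pow, div_mul_cancel]
    rw [e3] at e2
    exact e2
  apply Near.eq_one j ε hε G hG hG0 (v := v)
  intro δ hδ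
  obtain ⟨m, hm⟩ := (h6.near j ε hε G hG0 δ hδ).exists
  exact hm

end divisible

end Pool.Agent.H.MP_ac3185_nt
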