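import Mathlib

/-! The ring of bounded sequences modulo an ultrafilter, for a field with an absolute value such that
bounded sequences have limits along the ultrafilter. -/

set_option autoImplicit false

open Filter

namespace Pool.Agent.H.MP_ac3185_nt

universe u

/-- The non-principal ultrafilter used below. -/
noncomputable abbrev vdU : Ultrafilter ℕ := hyperfilter ℕ

section ring

variable {E F : Type u} [Field E] (v : AbsoluteValue E ℝ) [Field F] (gm : (ℕ → E) →+* F)
  (hgm : ∀ f, gm f = 0 ↔ ∀ᶠ n in (vdU : Filter ℕ), f n = 0) (hs : Function.Surjective gm)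

include hgm in
theorem vdc_eq {f g : ℕ → E} : gm f = gm g ↔ ∀ᶠ n in (vdU : Filter ℕ), f n = g n := by
  rw [← sub_eq_zero, ← map_sub, hgm]
  exact ⟨fun h => h.mono fun n hn => sub_eq_zero.1 hn, fun h => h.mono fun n hn => sub_eq_zero.2 hn⟩

/-- The bounded elements of the ultraproduct. -/
def vdO : ValuationSubring F where
  carrier := {a | ∃ (f : ℕ → E) (C : ℝ), (∀ n, v (f n) ≤ C) ∧ gm f = a}
  mul_mem' := by
    rintro _ _ ⟨f, C, hf, rfl⟩ ⟨g, D, hg, rfl⟩
    refine ⟨f * g, C * D, fun n => ?_, map_mul _ _ _⟩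
    show v (f n * g n) ≤ C * D
    rw [map_mul]
    exact mul_le_mul (hf n) (hg n) (v.nonneg _) ((v.nonneg _).trans (hf 0))
  one_mem' := ⟨1, 1, fun n => (map_one v).le, map_one _⟩
  add_mem' := by
    rintro _ _ ⟨f, C, hf, rfl⟩ ⟨g, D, hg, rfl⟩
    exact ⟨f + g, C + D, fun n => (v.add_le _ _).trans (add_le_add (hf n) (hg n)), map_add _ _ _⟩
  zero_mem' := ⟨0, 0, fun n => (map_zero v).le, map_zero _⟩
  neg_mem' := by
    rintro _ ⟨f, C, hf, rfl⟩
    exact ⟨-f, C, fun n => (v.map_neg (f n)).trans_le (hf n), map_neg _ _⟩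
  mem_or_inv_mem' := by
    classical
    intro a
    obtain ⟨f, rfl⟩ := hs a
    rcases Ultrafilter.em vdU (fun n => v (f n) ≤ 1) with h | h
    · left
      refine ⟨fun n => if v (f n) ≤ 1 then f n else 0, 1, fun n => ?_, ?_⟩
      · show v (if v (f n) ≤ 1 then f n else 0) ≤ 1
        split_ifs with h1
        · exact h1
        · rw [map_zero]; exact zero_le_one
      · rw [vdc_eq gm hgm]
        exact h.mono fun n hn => if_pos hn
    · right
      refine ⟨fun n => if v (f n) ≤ 1 then 0 else (f n)⁻¹, 1, fun n => ?_, ?_⟩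
      · show v (if v (f n) ≤ 1 then 0 else (f n)⁻¹) ≤ 1
        split_ifs with h1
        · rw [map_zero]; exact zero_le_one
        · rw [map_inv₀]
          exact inv_le_one_of_one_le₀ (not_le.1 h1).le
      · apply eq_inv_of_mul_eq_one_left
        rw [← map_mul, ← map_one gm, vdc_eq gm hgm]
        refine h.mono fun n hn => ?_
        have h1 : (fun n => if v (f n) ≤ 1 then 0 else (f n)⁻¹) n = (f n)⁻¹ := if_neg hn
        show (fun n => if v (f n) ≤ 1 then 0 else (f n)⁻¹) n * f n = 1
        rw [h1]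
        refine inv_mul_cancel₀ fun h0 => hn ?_
        rw [h0, map_zero]
        exact zero_le_one

theorem vdc_bdd (f : ℕ → E) (C : ℝ) (h : ∀ᶠ n in (vdU : Filter ℕ), v (f n) ≤ C) :
    gm f ∈ vdO v gm hgm hs := by
  classical
  refine ⟨fun n => if v (f n) ≤ C then f n else 0, max C 0, fun n => ?_, ?_⟩
  · show v (if v (f n) ≤ C then f n else 0) ≤ max C 0
    split_ifs with h1
    · exact h1.trans (le_max_left _ _)
    · rw [map_zero]; exact le_max_right _ _
  · rw [vdc_eq gm hgm]
    exact h.mono fun n hn => if_pos hn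

/-- `l` is the limit of `f` along the ultrafilter. -/
def VdLim (f : ℕ → E) (l : E) : Prop := ∀ ε > 0, ∀ᶠ n in (vdU : Filter ℕ), v (f n - l) < ε

variable {v}

theorem VdLim.unique {f : ℕ → E} {l l' : E} (h : VdLim v f l) (h' : VdLim v f l') : l = l' := by
  by_contra hne
  have h1 : 0 < v (l - l') := v.pos (sub_ne_zero.2 hne)
  obtain ⟨n, h2, h3⟩ := ((h _ (half_pos h1)).and (h' _ (half_pos h1))).exists
  have h4 : l - l' = (f n - l') - (f n - l) := by ring
  have h5 : v (l - l') ≤ v (f n - l') + v (f n - l) := by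
    rw [h4]
    exact v.sub_le_add _ _
  linarith

theorem VdLim.add {f g : ℕ → E} {l m : E} (h : VdLim v f l) (h' : VdLim v g m) :
    VdLim v (f + g) (l + m) := by
  intro ε hε
  filter_upwards [h _ (half_pos hε), h' _ (half_pos hε)] with n h1 h2
  have h3 : (f + g) n - (l + m) = (f n - l) + (g n - m) := by
    show f n + g n - (l + m) = _
    ring
  rw [h3]
  exact (v.add_le _ _).trans_lt (by linarith)

theorem VdLim.const (l : E) : VdLim v (fun _ => l) l := by
  intro ε hε
  refine Eventually.of_forall fun n => ?_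
  rw [sub_self, map_zero]
  exact hε

theorem VdLim.congr {f g : ℕ → E} {l : E} (h : VdLim v f l)
    (hfg : ∀ᶠ n in (vdU : Filter ℕ), f n = g n) : VdLim v g l := by
  intro ε hε
  filter_upwards [h ε hε, hfg] with n h1 h2
  rw [← h2]
  exact h1

theorem VdLim.mul {f g : ℕ → E} {l m : E} {C : ℝ} (hC : ∀ n, v (f n) ≤ C) (h : VdLim v f l)
    (h' : VdLim v g m) : VdLim v (f * g) (l * m) := by
  intro ε hε
  have hC0 : 0 ≤ C := (v.nonneg _).trans (hC 0)
  have h1 : 0 < ε / 2 / (C + 1) := by positivity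
  have hm : 0 ≤ v m := v.nonneg m
  have h2 : 0 < ε / 2 / (v m + 1) := by positivity
  filter_upwards [h' _ h1, h _ h2] with n h3 h4
  have h5 : (f * g) n - l * m = f n * (g n - m) + m * (f n - l) := by
    show f n * g n - l * m = _
    ring
  rw [h5]
  have h6 : v (f n) * v (g n - m) ≤ ε / 2 := by
    have : v (f n) * v (g n - m) ≤ (C + 1) * (ε / 2 / (C + 1)) :=
      mul_le_mul ((hC n).trans (by linarith)) h3.le (v.nonneg _) (by linarith)
    rwa [mul_div_cancel₀ _ (by positivity : (C + 1) ≠ 0)] at this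
  have h7 : v m * v (f n - l) < ε / 2 := by
    have : v m * v (f n - l) ≤ v m * (ε / 2 / (v m + 1)) :=
      mul_le_mul_of_nonneg_left h4.le hm
    have h8 : v m * (ε / 2 / (v m + 1)) < (v m + 1) * (ε / 2 / (v m + 1)) :=
      mul_lt_mul_of_pos_right (by linarith) h2
    rw [mul_div_cancel₀ _ (by positivity : (v m + 1) ≠ 0)] at h8
    linarith
  refine (v.add_le _ _).trans_lt ?_
  rw [map_mul, map_mul]
  linarith

variable (v)

theorem vdc_exists_lim
    (hc : ∀ (f : ℕ → E) (C : ℝ), (∀ n, v (f n) ≤ C) → ∃ l, VdLim v f l)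
    (a : vdO v gm hgm hs) : ∃ l, ∀ f, gm f = a → VdLim v f l := by
  obtain ⟨_, f, C, hf, rfl⟩ := a
  obtain ⟨l, hl⟩ := hc f C hf
  exact ⟨l, fun g hg => hl.congr ((vdc_eq gm hgm).1 hg.symm)⟩

end ring

end Pool.Agent.H.MP_ac3185_nt
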