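import Pool.Agent.H.MP_ac3185_nt.V.Norm
import Pool.Agent.H.MP_ac3185_nt.R.PtsB
import Pool.Agent.H.MP_ac3185_nt.R.PlA

/-! The action of the Galois group on points, and homomorphisms. -/

set_option autoImplicit false

open CategoryTheory AlgebraicGeometry NumberField IsDedekindDomain
open scoped MonObj

namespace Pool.Agent.H.MP_ac3185_nt

universe u

section act

variable {K : Type u} [Field K] {A B C : Over (Spec (.of K))} [GrpObj A] [IsAbVar A]
  [GrpObj B] [IsAbVar B] [GrpObj C] [IsAbVar C]

theorem va_mul (s t : AlgebraicClosure K ≃ₐ[K] AlgebraicClosure K)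
    (x : Pts A (AlgebraicClosure K)) : act A (s * t) x = act A s (act A t x) := by
  show galHom A (s * t) x = galHom A s (galHom A t x)
  rw [ptsb_galHom_mul]
  rfl

theorem va_one (x : Pts A (AlgebraicClosure K)) : act A 1 x = x := by
  show galHom A 1 x = x
  rw [ptsb_galHom_one]
  rfl

theorem va_add (s : AlgebraicClosure K ≃ₐ[K] AlgebraicClosure K)
    (x y : Pts A (AlgebraicClosure K)) : act A s (x + y) = act A s x + act A s y :=
  map_add (galHom A s) x y

theorem va_sub (s : AlgebraicClosure K ≃ₐ[K] AlgebraicClosure K)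
    (x y : Pts A (AlgebraicClosure K)) : act A s (x - y) = act A s x - act A s y :=
  map_sub (galHom A s) x y

theorem va_zero (s : AlgebraicClosure K ≃ₐ[K] AlgebraicClosure K) :
    act A s (0 : Pts A (AlgebraicClosure K)) = 0 :=
  map_zero (galHom A s)

theorem va_inv (s : AlgebraicClosure K ≃ₐ[K] AlgebraicClosure K)
    (x : Pts A (AlgebraicClosure K)) : act A s⁻¹ (act A s x) = x := by
  rw [← va_mul, inv_mul_cancel, va_one]

theorem va_inv' (s : AlgebraicClosure K ≃ₐ[K] AlgebraicClosure K)
    (x : Pts A (AlgebraicClosure K)) : act A s (act A s⁻¹ x) = x := by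
  rw [← va_mul, mul_inv_cancel, va_one]

omit [IsAbVar B] [IsAbVar C] in
theorem vh_add' (f : B ⟶ C) [IsMonHom f] (x y : specOver K (AlgebraicClosure K) ⟶ B) :
    (x * y) ≫ f = (x ≫ f) * (y ≫ f) := by
  exact MonObj.mul_comp _ _ _

theorem vh_add (f : B ⟶ C) (hf : IsMonHom f) (x y : Pts B (AlgebraicClosure K)) :
    onPts f (x + y) = onPts f x + onPts f y :=
  congrArg Additive.ofMul (vh_add' f (Additive.toMul x) (Additive.toMul y))

/-- `f` on points as a homomorphism. -/
noncomputable def vhHom (f : B ⟶ C) (hf : IsMonHom f) :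
    Pts B (AlgebraicClosure K) →+ Pts C (AlgebraicClosure K) :=
  AddMonoidHom.mk' (onPts f) (vh_add f hf)

theorem vh_sub (f : B ⟶ C) (hf : IsMonHom f) (x y : Pts B (AlgebraicClosure K)) :
    onPts f (x - y) = onPts f x - onPts f y := map_sub (vhHom f hf) x y

theorem vh_zero (f : B ⟶ C) (hf : IsMonHom f) :
    onPts f (0 : Pts B (AlgebraicClosure K)) = 0 := map_zero (vhHom f hf)

theorem vh_act (f : B ⟶ C) (s : AlgebraicClosure K ≃ₐ[K] AlgebraicClosure K)
    (x : Pts B (AlgebraicClosure K)) : act C s (onPts f x) = onPts f (act B s x) := by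
  apply Additive.toMul.injective
  show specGal s ≫ ((Additive.toMul x : specOver K (AlgebraicClosure K) ⟶ B) ≫ f) =
    (specGal s ≫ (Additive.toMul x : specOver K (AlgebraicClosure K) ⟶ B)) ≫ f
  rw [Category.assoc]

end act

end Pool.Agent.H.MP_ac3185_nt
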