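import Pool.Agent.H.MP_ac3185_nt.V.Defs
import Pool.Agent.H.MP_ac3185_nt.S.Pts
import Pool.Agent.H.MP_ac3185_nt.h79.Chain

/-! Chains of isogenies of degree `2`: composition of the steps, and the equality of ranks. -/

set_option autoImplicit false

open CategoryTheory AlgebraicGeometry NumberField IsDedekindDomain
open scoped MonObj

namespace Pool.Agent.H.MP_ac3185_nt

universe u

section field

variable {K : Type u} [Field K]

theorem vc_onPts_id {B : Over (Spec (.of K))} (x : Pts B (AlgebraicClosure K)) :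
    onPts (𝟙 B) x = x := by
  show Additive.ofMul ((Additive.toMul x : specOver K (AlgebraicClosure K) ⟶ B) ≫ 𝟙 B) = x
  rw [Category.comp_id]
  rfl

theorem vc_onPts_comp {A B C : Over (Spec (.of K))} (h : A ⟶ B) (f : B ⟶ C)
    (x : Pts A (AlgebraicClosure K)) : onPts (h ≫ f) x = onPts f (onPts h x) := by
  show Additive.ofMul ((Additive.toMul x : specOver K (AlgebraicClosure K) ⟶ A) ≫ (h ≫ f)) =
    Additive.ofMul (((Additive.toMul x : specOver K (AlgebraicClosure K) ⟶ A) ≫ h) ≫ f)
  rw [Category.assoc]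

theorem vc_onPts_add {B C : Over (Spec (.of K))} [GrpObj B] [IsAbVar B] [GrpObj C] [IsAbVar C]
    (f : B ⟶ C) [IsMonHom f] (x y : Pts B (AlgebraicClosure K)) :
    onPts f (x + y) = onPts f x + onPts f y := by
  have h : ((Additive.toMul x : specOver K (AlgebraicClosure K) ⟶ B) * Additive.toMul y) ≫ f =
      (Additive.toMul x ≫ f) * (Additive.toMul y ≫ f) := MonObj.mul_comp _ _ _
  exact congrArg Additive.ofMul h

theorem vc_onPts_act {B C : Over (Spec (.of K))} [GrpObj B] [IsAbVar B] [GrpObj C] [IsAbVar C]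
    (f : B ⟶ C) (s : AlgebraicClosure K ≃ₐ[K] AlgebraicClosure K)
    (x : Pts B (AlgebraicClosure K)) : act C s (onPts f x) = onPts f (act B s x) := by
  show Additive.ofMul (specGal s ≫
      ((Additive.toMul x : specOver K (AlgebraicClosure K) ⟶ B) ≫ f)) =
    Additive.ofMul ((specGal s ≫ (Additive.toMul x : specOver K (AlgebraicClosure K) ⟶ B)) ≫ f)
  rw [Category.assoc]

theorem vc_act_add (B : Over (Spec (.of K))) [GrpObj B] [IsAbVar B]
    (s : AlgebraicClosure K ≃ₐ[K] AlgebraicClosure K) (x y : Pts B (AlgebraicClosure K)) :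
    act B s (x + y) = act B s x + act B s y := map_add (galHom B s) x y

/-- Every point of `C(L)` is the sum of a point of `C(K)` and of the image of a point of `B(L)`. -/
def SplitPts (L : IntermediateField K (AlgebraicClosure K)) {B C : Over (Spec (.of K))}
    [GrpObj B] [IsAbVar B] [GrpObj C] [IsAbVar C] (f : B ⟶ C) : Prop :=
  ∀ y, (∀ s ∈ L.fixingSubgroup, act C s y = y) →
    ∃ y0 x, (∀ s, act C s y0 = y0) ∧ (∀ s ∈ L.fixingSubgroup, act B s x = x) ∧
      y = y0 + onPts f x

/-- The decomposition `C(L) = C(K) + f(B(L))` for all steps `f` gives the decomposition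
`B(L) = B(K) + h(A(L))` for all compositions `h` of steps. -/
theorem vc_chain (L : IntermediateField K (AlgebraicClosure K))
    (hstep : ∀ {B C : Over (Spec (.of K))} [GrpObj B] [IsAbVar B] [GrpObj C] [IsAbVar C]
      (f : B ⟶ C), Step L f → SplitPts L f)
    (A : Over (Spec (.of K))) [GrpObj A] [IsAbVar A]
    {B : Over (Spec (.of K))} [GrpObj B] [IsAbVar B] (h : A ⟶ B) (hh : Steps L A B h) :
    SplitPts L h := by
  induction hh with
  | refl =>
    intro y hy
    refine ⟨0, y, fun s => map_zero (galHom A s), hy, ?_⟩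
    rw [vc_onPts_id, zero_add]
  | step h f _ hf ih =>
    intro y hy
    obtain ⟨y0, x, hy0, hx, rfl⟩ := hstep f hf y hy
    obtain ⟨x0, z, hx0, hz, rfl⟩ := ih x hx
    have := hf.hom
    refine ⟨y0 + onPts f x0, z, fun s => ?_, hz, ?_⟩
    · rw [vc_act_add, hy0, vc_onPts_act, hx0]
    · rw [vc_onPts_add, vc_onPts_comp, add_assoc]

end field

section rank

variable {K : Type u} [Field K] [CharZero K]

/-- If `A(L)` is finitely generated and `A(L) = A(K) + 2 ^ m A(L)` for some `m > 0`, then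
`A(L) / A(K)` is finite of odd order, and the ranks of `A(L)` and `A(K)` are equal. -/
theorem vc_rank (L : IntermediateField K (AlgebraicClosure K)) (A : Over (Spec (.of K)))
    [GrpObj A] [IsAbVar A] (hfg : Module.Finite ℤ (Pts A L)) (m : ℕ) (hm : 0 < m) (h : A ⟶ A)
    (hh : ∀ x, onPts h x = (2 ^ m : ℕ) • x) (hs : SplitPts L h) :
    Finite (Pts A L ⧸ (ptsa_j A (bot_le : ⊥ ≤ L)).range) ∧
      Odd (Nat.card (Pts A L ⧸ (ptsa_j A (bot_le : ⊥ ≤ L)).range)) ∧
      Module.rank ℤ (Pts A (⊥ : IntermediateField K (AlgebraicClosure K))) =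
        Module.rank ℤ (Pts A L) ∧
      rk A L = rk A ⊥ := by
  obtain ⟨n, rfl⟩ : ∃ n, m = n + 1 := ⟨m - 1, by omega⟩
  set j := ptsa_j A (bot_le : ⊥ ≤ L) with hj
  let N : Submodule ℤ (Pts A L) := LinearMap.range j.toIntLinearMap
  have key : ∀ x : Pts A L, ∃ y ∈ N, ∃ z : Pts A L, x = y + (2 : ℤ) • z := by
    intro x
    obtain ⟨y0, z, hy0, hz, he⟩ := hs (toBar A L x) (fun s hs' => sp_bar_fix A L s hs' x)
    obtain ⟨y1, rfl⟩ := sp_bar_of_fixed A ⊥ y0 (fun s _ => hy0 s)
    obtain ⟨z1, rfl⟩ := sp_bar_of_fixed A L z hz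
    refine ⟨j y1, ⟨y1, rfl⟩, (2 ^ n : ℕ) • z1, ?_⟩
    apply sp_bar_inj A L
    rw [he, hh, map_add, hj, sp_bar_j, map_zsmul, map_nsmul, pow_succ']
    congr 1
    rw [mul_smul]
    exact (natCast_zsmul _ 2).symm
  obtain ⟨k, hk, hkN⟩ := h79.exists_odd_smul_mem N key
  obtain ⟨h1, h2⟩ := h79.finite_quotient_odd N key
  have hk0 : k ≠ 0 := by rintro rfl; exact absurd hk (by decide)
  have h3 := h79.rank_eq_of_odd_smul_mem N k hk0 hkN
  have hinj : Function.Injective j.toIntLinearMap := sp_j_inj A _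
  have h4 : Module.rank ℤ (Pts A (⊥ : IntermediateField K (AlgebraicClosure K))) =
      Module.rank ℤ (Pts A L) := by
    rw [← h3]
    exact (LinearEquiv.ofInjective j.toIntLinearMap hinj).rank_eq
  refine ⟨h1, h2, h4, ?_⟩
  unfold rk Module.finrank
  rw [h4]

end rank

end Pool.Agent.H.MP_ac3185_nt
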