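import Pool.Agent.H.MP_ac3185_nt.V.Norm

/-! Complex conjugations of `Kbar`, and total positivity. -/

set_option autoImplicit false

open NumberField IsDedekindDomain

namespace Pool.Agent.H.MP_ac3185_nt

universe u

section conj

variable {K : Type u} [Field K] (L : IntermediateField K (AlgebraicClosure K))

theorem vj_conj [CharZero K] (hL : TotReal L) (e : AlgebraicClosure K →+* ℂ) :
    ∃ s : AlgebraicClosure K ≃ₐ[K] AlgebraicClosure K, s ∈ L.fixingSubgroup ∧
      ∀ z, e (s z) = starRingEnd ℂ (e z) := by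
  let _ : Algebra (AlgebraicClosure K) ℂ := e.toAlgebra
  let _ : Algebra K ℂ := (e.comp (algebraMap K (AlgebraicClosure K))).toAlgebra
  have : IsScalarTower K (AlgebraicClosure K) ℂ := IsScalarTower.of_algebraMap_eq fun _ => rfl
  let φ : AlgebraicClosure K →ₐ[K] ℂ :=
    { (starRingEnd ℂ).comp e with
      commutes' := fun x => hL e (algebraMap K L x) }
  let s : AlgebraicClosure K ≃ₐ[K] AlgebraicClosure K :=
    AlgHom.restrictNormal' φ (AlgebraicClosure K)
  have hs : ∀ z, e (s z) = starRingEnd ℂ (e z) := fun z =>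
    AlgHom.restrictNormal_commutes φ (AlgebraicClosure K) z
  refine ⟨s, ?_, hs⟩
  rw [IntermediateField.mem_fixingSubgroup_iff]
  intro x hx
  apply e.injective
  rw [hs]
  exact hL e ⟨x, hx⟩

/-- If `r` is fixed by all complex conjugations, then `r²` is totally positive. -/
theorem vj_pos (r : AlgebraicClosure K) (hr : r ≠ 0)
    (h : ∀ e : AlgebraicClosure K →+* ℂ, starRingEnd ℂ (e r) = e r) : TotPos (r * r) := by
  intro e
  obtain ⟨t, ht⟩ := Complex.conj_eq_iff_real.1 (h e)
  have ht0 : t ≠ 0 := by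
    rintro rfl
    apply hr
    apply e.injective
    rw [ht, map_zero, Complex.ofReal_zero]
  exact ⟨t * t, mul_self_pos.2 ht0, by rw [map_mul, ht, Complex.ofReal_mul]⟩

theorem vj_pos_mul {a b : AlgebraicClosure K} (ha : TotPos a) (hb : TotPos b) :
    TotPos (a * b) := by
  intro e
  obtain ⟨s, hs, hs'⟩ := ha e
  obtain ⟨t, ht, ht'⟩ := hb e
  exact ⟨s * t, mul_pos hs ht, by rw [map_mul, hs', ht', Complex.ofReal_mul]⟩

theorem vj_pos_gal {a : AlgebraicClosure K} (ha : TotPos a)
    (g : AlgebraicClosure K ≃ₐ[K] AlgebraicClosure K) : TotPos (g a) := fun e =>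
  ha (e.comp (g : AlgebraicClosure K →+* AlgebraicClosure K))

theorem vj_pos_prod {ι : Type*} (S : Finset ι) (f : ι → AlgebraicClosure K)
    (hf : ∀ i ∈ S, TotPos (f i)) : TotPos (∏ i ∈ S, f i) := by
  classical
  induction S using Finset.induction_on with
  | empty => exact fun e => ⟨1, one_pos, by rw [Finset.prod_empty, map_one, Complex.ofReal_one]⟩
  | insert i S hi ih =>
    rw [Finset.prod_insert hi]
    exact vj_pos_mul (hf i (Finset.mem_insert_self i S))
      (ih fun j hj => hf j (Finset.mem_insert_of_mem hj))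

end conj

end Pool.Agent.H.MP_ac3185_nt
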