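import Mathlib

/-! Corestriction: a cocycle killed by `2`, which is a coboundary on a subgroup of odd index, is a
coboundary. -/

set_option autoImplicit false

namespace Pool.Agent.H.MP_ac3185_nt

theorem vc_cores {G : Type*} [Group G] (H : Subgroup G) [Fintype (G ⧸ H)]
    (hodd : Odd (Fintype.card (G ⧸ H))) {M : Type*} [AddCommGroup M] (φ : G → M →+ M)
    (hφ : ∀ g h, φ (g * h) = (φ g).comp (φ h)) (c : G → M)
    (hc : ∀ g h, c (g * h) = c g + φ g (c h)) (h2 : ∀ g, c g + c g = 0) (b : M)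
    (hb : ∀ h ∈ H, c h = φ h b - b) : ∃ B, ∀ g, c g = φ g B - B := by
  classical
  have hβ : ∀ g, ∀ h ∈ H, φ (g * h) b - c (g * h) = φ g b - c g := by
    intro g h hh
    rw [hc, hφ, hb h hh, AddMonoidHom.comp_apply, map_sub]
    abel
  have hβ' : ∀ g (q : G ⧸ H), φ (g * q.out) b - c (g * q.out) =
      φ ((g • q).out) b - c ((g • q).out) := by
    intro g q
    have h1 : ((g * q.out : G) : G ⧸ H) = g • q := by
      rw [← smul_eq_mul, ← MulAction.Quotient.smul_coe, QuotientGroup.out_eq']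
    have h2 : (g • q).out⁻¹ * (g * q.out) ∈ H := by
      rw [← QuotientGroup.eq, QuotientGroup.out_eq', h1]
    have h3 := hβ ((g • q).out) _ h2
    rw [mul_inv_cancel_left] at h3
    exact h3
  refine ⟨∑ q : G ⧸ H, (φ q.out b - c q.out), fun g => ?_⟩
  have h3 : ∀ q : G ⧸ H, φ g (φ q.out b - c q.out) =
      (φ ((g • q).out) b - c ((g • q).out)) + c g := by
    intro q
    rw [← hβ' g q, map_sub, hφ, AddMonoidHom.comp_apply, hc]
    abel
  have h4 : ∑ q : G ⧸ H, (φ ((g • q).out) b - c ((g • q).out)) =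
      ∑ q : G ⧸ H, (φ q.out b - c q.out) :=
    Equiv.sum_comp (MulAction.toPerm g) (fun q : G ⧸ H => φ q.out b - c q.out)
  rw [map_sum, Finset.sum_congr rfl (fun q _ => h3 q), Finset.sum_add_distrib, h4]
  have h5 : ∑ _q : G ⧸ H, c g = c g := by
    rw [Finset.sum_const, Finset.card_univ]
    obtain ⟨k, hk⟩ := hodd
    rw [hk, add_nsmul, mul_comm, mul_nsmul, two_nsmul, ← nsmul_add, h2, nsmul_zero, zero_add,
      one_nsmul]
  rw [h5]
  abel

end Pool.Agent.H.MP_ac3185_nt
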