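import Pool.Agent.H.MP_ac3185_nt.S.Cond
import Pool.Agent.H.MP_ac3185_nt.S.Defs

/-! Good reduction. -/

set_option autoImplicit false

open CategoryTheory AlgebraicGeometry NumberField IsDedekindDomain
open scoped MonObj

namespace Pool.Agent.H.MP_ac3185_nt

universe u

section field

variable {K : Type u} [Field K]

/-- There is only one place of `L` below the conjugates of the prime `𝔓` over `K`. -/
def OnePlace (L : IntermediateField K (AlgebraicClosure K)) (𝔓 : Ideal (𝓞 (AlgebraicClosure K))) :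
    Prop :=
  ∀ s : AlgebraicClosure K ≃ₐ[K] AlgebraicClosure K, ∃ t ∈ decomp K 𝔓, t⁻¹ * s ∈ L.fixingSubgroup

end field

section numberField

variable {K : Type u} [Field K] [NumberField K]

/-- `A` has good reduction at the place below `𝔓` (criterion of Néron, Ogg and Shafarevich): for
every prime number `ℓ` not in `𝔓` the inertia group of `𝔓` acts trivially on `V_ℓ(A)`. -/
def GoodAt (A : Over (Spec (.of K))) [GrpObj A] [IsAbVar A]
    (𝔓 : Ideal (𝓞 (AlgebraicClosure K))) : Prop :=
  ∀ (ℓ : ℕ) [Fact ℓ.Prime], (ℓ : 𝓞 (AlgebraicClosure K)) ∉ 𝔓 →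
    FiniteDimensional ℚ_[ℓ] (VTate ℓ (Pts A (AlgebraicClosure K))) ∧
    ∀ g ∈ inertia K 𝔓, galV A ℓ g = LinearMap.id

/-- `A` has good reduction at the place below `𝔓`, or there is one place of `L` above it, and this
place is unramified in `L / K` or `A` is semistable there. -/
def MildAt (A : Over (Spec (.of K))) [GrpObj A] [IsAbVar A]
    (L : IntermediateField K (AlgebraicClosure K)) (𝔓 : Ideal (𝓞 (AlgebraicClosure K))) : Prop :=
  GoodAt A 𝔓 ∨ (OnePlace L 𝔓 ∧
    (inertia K 𝔓 ⊆ (L.fixingSubgroup : Set (AlgebraicClosure K ≃ₐ[K] AlgebraicClosure K)) ∨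
      SemistableOver A ⊥ 𝔓))

end numberField

end Pool.Agent.H.MP_ac3185_nt
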