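import Pool.Agent.H.MP_ac3185_nt.S.Cond
import Pool.Agent.H.MP_ac3185_nt.S.Defs
import Pool.Agent.H.MP_ac3185_nt.V.Good

/-! Definitions for the theorem on rank stability in extensions of odd degree. -/

set_option autoImplicit false

open CategoryTheory AlgebraicGeometry NumberField IsDedekindDomain
open scoped MonObj

namespace Pool.Agent.H.MP_ac3185_nt

universe u

section field

variable {K : Type u} [Field K]

/-- The map `B(Kbar) → C(Kbar)` given by a morphism `f : B → C` over `K`. -/
noncomputable def onPts {B C : Over (Spec (.of K))} (f : B ⟶ C)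
    (x : Pts B (AlgebraicClosure K)) : Pts C (AlgebraicClosure K) :=
  Additive.ofMul ((Additive.toMul x : specOver K (AlgebraicClosure K) ⟶ B) ≫ f)

/-- The kernel of `f : B → C` is etale at the prime `𝔓` of the ring of integers of the algebraic
closure: there is a homomorphism on `B(Kbar)` which is constant on the orbits of the inertia group of
`𝔓` and injective on the kernel of `f`. Examples: the reduction map, if `B` has good reduction and
the kernel of `f` meets the kernel of reduction trivially; the valuation on a Tate curve. -/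
def EtaleAt {B C : Over (Spec (.of K))} [GrpObj B] [IsAbVar B] [GrpObj C] [IsAbVar C] (f : B ⟶ C)
    (𝔓 : Ideal (𝓞 (AlgebraicClosure K))) : Prop :=
  ∃ (R : Type u) (_ : AddCommGroup R) (r : Pts B (AlgebraicClosure K) →+ R),
    (∀ s ∈ inertia K 𝔓, ∀ x, r (act B s x) = r x) ∧ ∀ x, onPts f x = 0 → r x = 0 → x = 0

/-- For every complex conjugation `s` of `Kbar` over `K`: if `f(x)` is fixed by `s`, then `x` is
fixed by `s`. -/
def RealFibres {B C : Over (Spec (.of K))} [GrpObj B] [IsAbVar B] [GrpObj C] [IsAbVar C]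
    (f : B ⟶ C) : Prop :=
  ∀ (e : AlgebraicClosure K →+* ℂ) (s : AlgebraicClosure K ≃ₐ[K] AlgebraicClosure K),
    (∀ z, e (s z) = starRingEnd ℂ (e z)) → ∀ x, act C s (onPts f x) = onPts f x → act B s x = x

/-- All embeddings of `L` in `ℂ` are real. -/
def TotReal (L : IntermediateField K (AlgebraicClosure K)) : Prop :=
  ∀ (e : AlgebraicClosure K →+* ℂ) (x : L), starRingEnd ℂ (e x) = e x

/-- All conjugates of `a` are positive real numbers. -/
def TotPos (a : AlgebraicClosure K) : Prop :=
  ∀ e : AlgebraicClosure K →+* ℂ, ∃ t : ℝ, 0 < t ∧ e a = t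

/-- `L(√a) / L` is unramified at the place below `𝔓`. -/
def UnrAt (L : IntermediateField K (AlgebraicClosure K)) (𝔓 : Ideal (𝓞 (AlgebraicClosure K)))
    (a : AlgebraicClosure K) : Prop :=
  ∀ s ∈ inertia K 𝔓, s ∈ L.fixingSubgroup → ∀ z, z * z = a → s z = z

/-- The valuation of `a` at the place of `L` below `𝔓` is even: `a = b² x / y` with `b` in `L` and
algebraic integers `x`, `y` not in `𝔓`. -/
def EvenAt (L : IntermediateField K (AlgebraicClosure K)) (𝔓 : Ideal (𝓞 (AlgebraicClosure K)))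
    (a : AlgebraicClosure K) : Prop :=
  ∃ b ∈ L, b ≠ 0 ∧ ∃ x y : 𝓞 (AlgebraicClosure K), x ∉ 𝔓 ∧ y ∉ 𝔓 ∧
    a * (y : AlgebraicClosure K) = b * b * (x : AlgebraicClosure K)

/-- `𝔓` is a finite prime of the algebraic closure. -/
def FinPrime (𝔓 : Ideal (𝓞 (AlgebraicClosure K))) : Prop := 𝔓.IsPrime ∧ 𝔓 ≠ ⊥

/-- The elements `a ≠ 0` of `L` whose norm to `K` is a square are squares in `L` if
(1) `L(√a) / L` is unramified at all finite places, or if
(2) `L(√a) / L` is unramified outside `2`, `a` has even valuation at the places above `2`, and `a` is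
totally positive.
For `L / K` of odd degree, `L` totally real, (1) and (2) are equivalent, and they say that the
narrow class groups of `K` and `L` have the same `2`-rank; for `K = ℚ` they say that the narrow class
number of `L` is odd. -/
structure SameNarrow (L : IntermediateField K (AlgebraicClosure K)) : Prop where
  unr : ∀ a : L, a ≠ 0 → IsSquare (Algebra.norm K a) →
    (∀ 𝔓 : Ideal (𝓞 (AlgebraicClosure K)), FinPrime 𝔓 → UnrAt L 𝔓 a) → IsSquare a
  pos : ∀ a : L, a ≠ 0 → IsSquare (Algebra.norm K a) → TotPos (a : AlgebraicClosure K) →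
    (∀ 𝔓 : Ideal (𝓞 (AlgebraicClosure K)), FinPrime 𝔓 → 2 ∉ 𝔓 → UnrAt L 𝔓 a) →
    (∀ 𝔓 : Ideal (𝓞 (AlgebraicClosure K)), FinPrime 𝔓 → 2 ∈ 𝔓 → EvenAt L 𝔓 a) → IsSquare a

/-- `f : B → C` is an isogeny of degree `2`, such that for every finite place of `K` its kernel is
etale, or there is one place of `L` above it, and (I) the kernel is etale at the places above `2`, or
(II) there is one place of `L` above each place above `2`, and `f` has real fibres. -/
structure Step (L : IntermediateField K (AlgebraicClosure K)) {B C : Over (Spec (.of K))}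
    [GrpObj B] [IsAbVar B] [GrpObj C] [IsAbVar C] (f : B ⟶ C) : Prop where
  hom : IsMonHom f
  surj : ∀ y, ∃ x, onPts f x = y
  ker : ∃ t, t ≠ 0 ∧ ∀ x, onPts f x = 0 ↔ x = 0 ∨ x = t
  odd : ∀ 𝔓 : Ideal (𝓞 (AlgebraicClosure K)), FinPrime 𝔓 → 2 ∉ 𝔓 → EtaleAt f 𝔓 ∨ OnePlace L 𝔓
  two : (∀ 𝔓 : Ideal (𝓞 (AlgebraicClosure K)), FinPrime 𝔓 → 2 ∈ 𝔓 → EtaleAt f 𝔓) ∨
    ((∀ 𝔓 : Ideal (𝓞 (AlgebraicClosure K)), FinPrime 𝔓 → 2 ∈ 𝔓 → OnePlace L 𝔓) ∧ RealFibres f)

/-- Compositions of isogenies `f` of degree `2` with `Step L f`. -/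
inductive Steps (L : IntermediateField K (AlgebraicClosure K)) (A : Over (Spec (.of K)))
    [GrpObj A] [IsAbVar A] :
    (B : Over (Spec (.of K))) → [GrpObj B] → [IsAbVar B] → (A ⟶ B) → Prop
  | refl : Steps L A A (𝟙 A)
  | step {B C : Over (Spec (.of K))} [GrpObj B] [IsAbVar B] [GrpObj C] [IsAbVar C] (h : A ⟶ B)
      (f : B ⟶ C) : Steps L A B h → Step L f → Steps L A C (h ≫ f)

end field

end Pool.Agent.H.MP_ac3185_nt
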