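import Pool.Agent.H.MP_ac3185_nt.V.Defs
import Pool.Agent.H.MP_ac3185_nt.R.PtsA

/-! Points of a scheme over `K` with values in `K`-algebras: affine charts, points of local rings,
the valuative criterion. -/

set_option autoImplicit false

open CategoryTheory AlgebraicGeometry NumberField
open scoped MonObj

namespace Pool.Agent.H.MP_ac3185_nt

universe u

variable {K : Type u} [Field K]

/-- `Spec S`, as a scheme over `Spec K`. -/
noncomputable abbrev spR (K : Type u) [Field K] (S : Type u) [CommRing S] [Algebra K S] :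
    Over (Spec (.of K)) :=
  Over.mk (Spec.map (CommRingCat.ofHom (algebraMap K S)))

section maps

variable {S T W : Type u} [CommRing S] [Algebra K S] [CommRing T] [Algebra K T] [CommRing W]
  [Algebra K W]

theorem spMap_w (g : S →ₐ[K] T) :
    Spec.map (CommRingCat.ofHom (g : S →+* T)) ≫ Spec.map (CommRingCat.ofHom (algebraMap K S)) =
      Spec.map (CommRingCat.ofHom (algebraMap K T)) := by
  rw [← Spec.map_comp]
  congr 1
  ext x
  exact g.commutes x

/-- The morphism `Spec T → Spec S` given by a homomorphism of `K`-algebras. -/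
noncomputable def spMap (g : S →ₐ[K] T) : spR K T ⟶ spR K S :=
  Over.homMk (Spec.map (CommRingCat.ofHom (g : S →+* T))) (spMap_w g)

theorem spMap_comp (g : S →ₐ[K] T) (h : T →ₐ[K] W) : spMap (h.comp g) = spMap h ≫ spMap g := by
  apply Over.OverMorphism.ext
  show Spec.map (CommRingCat.ofHom ((h.comp g : S →ₐ[K] W) : S →+* W)) =
    Spec.map (CommRingCat.ofHom (h : T →+* W)) ≫ Spec.map (CommRingCat.ofHom (g : S →+* T))
  rw [← Spec.map_comp]
  rfl

theorem spMap_id : spMap (AlgHom.id K S) = 𝟙 (spR K S) := by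
  apply Over.OverMorphism.ext
  show Spec.map (CommRingCat.ofHom (RingHom.id S)) = 𝟙 _
  have : CommRingCat.ofHom (RingHom.id S) = 𝟙 (CommRingCat.of S) := rfl
  rw [this, Spec.map_id]

theorem spMap_inj {g h : S →ₐ[K] T} (e : spMap g = spMap h) : g = h := by
  have h1 : Spec.map (CommRingCat.ofHom (g : S →+* T)) =
      Spec.map (CommRingCat.ofHom (h : S →+* T)) :=
    congrArg (fun m : spR K T ⟶ spR K S => m.left) e
  have h2 := Spec.map_injective h1
  ext x
  exact congrArg (fun m : CommRingCat.of S ⟶ CommRingCat.of T => m.hom x) h2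

end maps

section charts

variable {A : Over (Spec (.of K))} {B S T F : Type u} [CommRing B] [Algebra K B] [CommRing S]
  [Algebra K S] [CommRing T] [Algebra K T] [Field F] [Algebra K F]

/-- A point with values in the chart is given by a homomorphism of `K`-algebras. -/
theorem vd_lift (j : spR K B ⟶ A) [IsOpenImmersion j.left] (x : spR K S ⟶ A)
    (h : Set.range x.left ⊆ Set.range j.left) : ∃ φ : B →ₐ[K] S, x = spMap φ ≫ j := by
  obtain ⟨f, hf⟩ : ∃ f : Spec (.of S) ⟶ Spec (.of B), f ≫ j.left = x.left :=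
    ⟨IsOpenImmersion.lift j.left x.left h, IsOpenImmersion.lift_fac j.left x.left h⟩
  obtain ⟨φ, rfl⟩ : ∃ φ, Spec.map φ = f := ⟨_, Spec.map_preimage _⟩
  have h1 : CommRingCat.ofHom (algebraMap K B) ≫ φ = CommRingCat.ofHom (algebraMap K S) := by
    apply Spec.map_injective
    rw [Spec.map_comp]
    have e1 : j.left ≫ A.hom = Spec.map (CommRingCat.ofHom (algebraMap K B)) := Over.w j
    have e2 : x.left ≫ A.hom = Spec.map (CommRingCat.ofHom (algebraMap K S)) := Over.w x
    rw [← e1, ← e2, ← hf, Category.assoc]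
  refine ⟨{ (φ.hom : B →+* S) with commutes' := fun a => ?_ }, ?_⟩
  · exact congrArg (fun m : CommRingCat.of K ⟶ CommRingCat.of S => m.hom a) h1
  · apply Over.OverMorphism.ext
    exact hf.symm

theorem vd_chart_mono (j : spR K B ⟶ A) [IsOpenImmersion j.left] {φ ψ : B →ₐ[K] S}
    (h : spMap φ ≫ j = spMap ψ ≫ j) : φ = ψ := by
  apply spMap_inj
  apply Over.OverMorphism.ext
  have h1 : (spMap φ).left ≫ j.left = (spMap ψ).left ≫ j.left :=
    congrArg (fun m : spR K S ⟶ A => m.left) h
  exact (cancel_mono j.left).1 h1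

/-- If the closed point is mapped to the chart, then so are all points. -/
theorem vd_range (j : spR K B ⟶ A) [IsOpenImmersion j.left] (g : S →ₐ[K] F)
    (hg : ∀ a, g a ≠ 0 → IsUnit a) (x : spR K S ⟶ A)
    (h : x.left ((spMap g).left (⊥ : PrimeSpectrum F)) ∈ Set.range j.left) :
    Set.range x.left ⊆ Set.range j.left := by
  have hV : IsOpen ((x.left : Spec (.of S) → A.left) ⁻¹' Set.range j.left) :=
    (IsOpenImmersion.isOpen_range j.left).preimage x.left.continuous
  obtain ⟨_, ⟨_, ⟨r, rfl⟩, rfl⟩, hr, hr'⟩ :=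
    PrimeSpectrum.isBasis_basic_opens.exists_subset_of_mem_open
      (show (spMap g).left (⊥ : PrimeSpectrum F) ∈
        ((x.left : Spec (.of S) → A.left) ⁻¹' Set.range j.left) from h) hV
  have h1 : g r ≠ 0 := by
    intro h0
    apply hr
    show g r ∈ (⊥ : Ideal F)
    rw [h0]
    exact zero_mem _
  rintro _ ⟨p, rfl⟩
  apply hr'
  show r ∉ (p : PrimeSpectrum S).asIdeal
  exact fun hp => (p : PrimeSpectrum S).isPrime.ne_top (Ideal.eq_top_of_isUnit_mem _ hp (hg r h1))

/-- A point with values in a local ring lies in a chart, if its closed point does. -/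
theorem vd_point (j : spR K B ⟶ A) [IsOpenImmersion j.left] (g : S →ₐ[K] F)
    (hg : ∀ a, g a ≠ 0 → IsUnit a) (x : spR K S ⟶ A) (θ : B →ₐ[K] F)
    (h : spMap g ≫ x = spMap θ ≫ j) : ∃ φ : B →ₐ[K] S, x = spMap φ ≫ j := by
  apply vd_lift
  apply vd_range j g hg
  have h1 : (spMap g).left ≫ x.left = (spMap θ).left ≫ j.left :=
    congrArg (fun m : spR K F ⟶ A => m.left) h
  refine ⟨(spMap θ).left (⊥ : PrimeSpectrum F), ?_⟩
  exact (congrArg (fun m : Spec (.of F) ⟶ A.left => m (⊥ : PrimeSpectrum F)) h1).symm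

/-- Every point of the scheme lies in a chart. -/
theorem vd_chart (p : A.left) : ∃ (B : Type u) (_ : CommRing B) (_ : Algebra K B)
    (j : spR K B ⟶ A), IsOpenImmersion j.left ∧ p ∈ Set.range j.left := by
  obtain ⟨R, f, hf, hp, -⟩ := Scheme.exists_affine_mem_range_and_range_subset
    (x := p) (U := ⊤) trivial
  obtain ⟨φ, hφ⟩ : ∃ φ, Spec.map φ = f ≫ A.hom := ⟨_, Spec.map_preimage _⟩
  let _ : Algebra K R := RingHom.toAlgebra φ.hom
  have hw : f ≫ A.hom = Spec.map (CommRingCat.ofHom (algebraMap K R)) := hφ.symm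
  exact ⟨R, inferInstance, inferInstance, Over.homMk f hw, hf, hp⟩

/-- The coordinate rings of the charts are of finite type. -/
theorem vd_finiteType [LocallyOfFiniteType A.hom] (j : spR K B ⟶ A) [IsOpenImmersion j.left] :
    Algebra.FiniteType K B := by
  have h1 : LocallyOfFiniteType (j.left ≫ A.hom) := inferInstance
  have h2 : j.left ≫ A.hom = Spec.map (CommRingCat.ofHom (algebraMap K B)) := Over.w j
  rw [h2, HasRingHomProperty.Spec_iff (P := @LocallyOfFiniteType)] at h1
  exact (RingHom.finiteType_algebraMap (A := K) (B := B)).1 h1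

/-- The valuative criterion. -/
theorem vd_valuative [UniversallyClosed A.hom] (O : Type u) [CommRing O] [IsDomain O]
    [ValuationRing O] [Algebra K O] [Algebra O F] [IsFractionRing O F] [IsScalarTower K O F]
    (x : spR K F ⟶ A) :
    ∃ y : spR K O ⟶ A, spMap (IsScalarTower.toAlgHom K O F) ≫ y = x := by
  have h1 : ValuativeCriterion.Existence A.hom := by
    have h := (inferInstance : UniversallyClosed A.hom)
    rw [UniversallyClosed.eq_valuativeCriterion] at h
    exact h.1
  have hw : (x.left : Spec (.of F) ⟶ A.left) ≫ A.hom =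
      Spec.map (CommRingCat.ofHom (algebraMap O F)) ≫
        Spec.map (CommRingCat.ofHom (algebraMap K O)) := by
    have e2 : x.left ≫ A.hom = Spec.map (CommRingCat.ofHom (algebraMap K F)) := Over.w x
    rw [e2, ← Spec.map_comp]
    congr 1
    ext a
    exact IsScalarTower.algebraMap_apply K O F a
  let Q : ValuativeCommSq A.hom :=
    { R := O
      K := F
      i₁ := x.left
      i₂ := Spec.map (CommRingCat.ofHom (algebraMap K O))
      commSq := ⟨hw⟩ }
  obtain ⟨⟨l, hl1, hl2⟩⟩ := (h1 Q).exists_lift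
  refine ⟨Over.homMk l hl2, ?_⟩
  apply Over.OverMorphism.ext
  exact hl1

/-- Every point with values in a local ring lies in a chart. -/
theorem vd_local_chart (g : S →ₐ[K] F) (hg : ∀ a, g a ≠ 0 → IsUnit a) (x : spR K S ⟶ A) :
    ∃ (B : Type u) (_ : CommRing B) (_ : Algebra K B)
    (j : spR K B ⟶ A), IsOpenImmersion j.left ∧ ∃ φ : B →ₐ[K] S, x = spMap φ ≫ j := by
  obtain ⟨B, _, _, j, hj, hp⟩ := vd_chart (x.left ((spMap g).left (⊥ : PrimeSpectrum F)))
  exact ⟨B, _, _, j, hj, vd_lift j x (vd_range j g hg x hp)⟩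

end charts

end Pool.Agent.H.MP_ac3185_nt
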