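import Pool.Agent.H.MP_ac3185_nt.V.DivA

/-! Points with values in a product of fields and in an ultraproduct. -/

set_option autoImplicit false

open CategoryTheory AlgebraicGeometry NumberField Filter
open scoped MonObj

namespace Pool.Agent.H.MP_ac3185_nt

universe u

variable {K : Type u} [Field K]

section germ

variable {A : Over (Spec (.of K))} {B E F : Type u} [CommRing B] [Algebra K B]
  [Field E] [Algebra K E] [Field F] [Algebra K F]

/-- The evaluation of a sequence at `n`. -/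
def vdEv (K : Type u) [Field K] (E : Type u) [Field E] [Algebra K E] (n : ℕ) :
    (ℕ → E) →ₐ[K] E := Pi.evalAlgHom K (fun _ => E) n

/-- Let `x` be a point with values in the ring of sequences, whose image in the ultraproduct is the
point of the chart `j` given by `θ`. Then almost all components of `x` are in the chart, and `θ(b)` is
the class of the sequence of the values of `b` at the components of `x`. -/
theorem vd_germ (j : spR K B ⟶ A) [IsOpenImmersion j.left] (U : Ultrafilter ℕ)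
    (gm : (ℕ → E) →ₐ[K] F) (hgm : ∀ f, gm f = 0 ↔ ∀ᶠ n in (U : Filter ℕ), f n = 0)
    (x : spR K (ℕ → E) ⟶ A) (θ : B →ₐ[K] F) (h : spMap gm ≫ x = spMap θ ≫ j) (b : B)
    (f : ℕ → E) (hf : gm f = θ b) :
    ∀ᶠ n in (U : Filter ℕ), ∃ φ : B →ₐ[K] E, spMap (vdEv K E n) ≫ x = spMap φ ≫ j ∧ φ b = f n := by
  have h0 : x.left ((spMap gm).left (⊥ : PrimeSpectrum F)) ∈ Set.range j.left := by
    have h1 : (spMap gm).left ≫ x.left = (spMap θ).left ≫ j.left :=
      congrArg (fun m : spR K F ⟶ A => m.left) h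
    refine ⟨(spMap θ).left (⊥ : PrimeSpectrum F), ?_⟩
    exact (congrArg (fun m : Spec (.of F) ⟶ A.left => m (⊥ : PrimeSpectrum F)) h1).symm
  have hV : IsOpen ((x.left : Spec (.of (ℕ → E)) → A.left) ⁻¹' Set.range j.left) :=
    (IsOpenImmersion.isOpen_range j.left).preimage x.left.continuous
  obtain ⟨_, ⟨_, ⟨r, rfl⟩, rfl⟩, hr, hr'⟩ :=
    PrimeSpectrum.isBasis_basic_opens.exists_subset_of_mem_open
      (show (spMap gm).left (⊥ : PrimeSpectrum F) ∈
        ((x.left : Spec (.of (ℕ → E)) → A.left) ⁻¹' Set.range j.left) from h0) hV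
  change ℕ → E at r
  have h1 : gm r ≠ 0 := by
    intro h0
    apply hr
    show gm r ∈ (⊥ : Ideal F)
    rw [h0]
    exact zero_mem _
  have h2 : ∀ᶠ n in (U : Filter ℕ), r n ≠ 0 := by
    rw [Ne, hgm r] at h1
    exact Ultrafilter.eventually_not.2 h1
  let Rr := Localization.Away r
  let ℓ : (ℕ → E) →ₐ[K] Rr := IsScalarTower.toAlgHom K (ℕ → E) Rr
  have hu : IsUnit (ℓ r) := IsLocalization.Away.algebraMap_isUnit (S := Rr) r
  obtain ⟨ψ, hψ⟩ : ∃ ψ : B →ₐ[K] Rr, spMap ℓ ≫ x = spMap ψ ≫ j := by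
    apply vd_lift
    rintro _ ⟨p, rfl⟩
    show x.left ((spMap ℓ).left p) ∈ Set.range j.left
    apply hr'
    show ℓ r ∉ (p : PrimeSpectrum Rr).asIdeal
    exact fun hp => (p : PrimeSpectrum Rr).isPrime.ne_top (Ideal.eq_top_of_isUnit_mem _ hp hu)
  have key : ∀ {G : Type u} [Field G] [Algebra K G] (g : (ℕ → E) →ₐ[K] G), g r ≠ 0 →
      ∃ g' : Rr →ₐ[K] G, g'.comp ℓ = g ∧ spMap g ≫ x = spMap (g'.comp ψ) ≫ j := by
    intro G _ _ g hg
    have hg' : ∀ y : Submonoid.powers r, IsUnit (g y) := by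
      rintro ⟨_, k, rfl⟩
      rw [map_pow]
      exact (IsUnit.mk0 _ hg).pow k
    let g' : Rr →ₐ[K] G := IsLocalization.liftAlgHom (M := Submonoid.powers r) (f := g) hg'
    have e1 : g'.comp ℓ = g := by
      ext a
      exact IsLocalization.lift_eq (M := Submonoid.powers r) (S := Rr) hg' a
    refine ⟨g', e1, ?_⟩
    rw [spMap_comp, Category.assoc, ← hψ, ← Category.assoc, ← spMap_comp, e1]
  obtain ⟨gm', hgm1, hgm2⟩ := key gm h1
  have hθ : θ = gm'.comp ψ := vd_chart_mono j (h.symm.trans hgm2)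
  obtain ⟨⟨c, s⟩, hcs⟩ := IsLocalization.surj (M := Submonoid.powers r) (ψ b)
  have h3 : gm (f * (s : ℕ → E) - c) = 0 := by
    have e1 : gm (s : ℕ → E) = gm' (algebraMap (ℕ → E) Rr s) := by
      rw [← hgm1]
      rfl
    have e2 : gm c = gm' (algebraMap (ℕ → E) Rr c) := by
      rw [← hgm1]
      rfl
    rw [map_sub, map_mul, hf, hθ, e1, e2, ← hcs, map_mul, sub_eq_zero]
    rfl
  rw [hgm] at h3
  filter_upwards [h2, h3] with n hn hn3
  obtain ⟨g', hg1, hg2⟩ := key (vdEv K E n) hn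
  refine ⟨g'.comp ψ, hg2, ?_⟩
  have e1 : (s : ℕ → E) n = g' (algebraMap (ℕ → E) Rr s) :=
    (congrArg (fun m : (ℕ → E) →ₐ[K] E => m (s : ℕ → E)) hg1).symm
  have e2 : c n = g' (algebraMap (ℕ → E) Rr c) :=
    (congrArg (fun m : (ℕ → E) →ₐ[K] E => m c) hg1).symm
  have hs : (s : ℕ → E) n ≠ 0 := by
    obtain ⟨k, hk⟩ := s.2
    rw [← hk]
    exact pow_ne_zero k hn
  have e3 : g' (ψ b) * (s : ℕ → E) n = c n := by
    rw [e1, e2, ← hcs, map_mul]
  have e4 : f n * (s : ℕ → E) n = c n := sub_eq_zero.1 hn3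
  exact mul_right_cancel₀ hs (e3.trans e4.symm)

/-- Every sequence of points is, almost everywhere, a point with values in the ring of sequences. -/
theorem vd_seq [CompactSpace A.left] (U : Ultrafilter ℕ) (y : ℕ → (spR K E ⟶ A)) :
    ∃ x : spR K (ℕ → E) ⟶ A, ∀ᶠ n in (U : Filter ℕ), spMap (vdEv K E n) ≫ x = y n := by
  let p : ℕ → A.left := fun n => (y n).left (⊥ : PrimeSpectrum E)
  obtain ⟨q, -, hq⟩ := isCompact_univ.ultrafilter_le_nhds (U.map p) (by simp)
  obtain ⟨B, _, _, j, hj, hqj⟩ := vd_chart (A := A) q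
  have h1 : ∀ᶠ n in (U : Filter ℕ), p n ∈ Set.range j.left :=
    hq ((IsOpenImmersion.isOpen_range j.left).mem_nhds hqj)
  have h2 : ∀ᶠ n in (U : Filter ℕ), ∃ φ : B →ₐ[K] E, y n = spMap φ ≫ j := by
    filter_upwards [h1] with n hn
    apply vd_lift
    apply vd_range j (AlgHom.id K E) (fun a ha => IsUnit.mk0 a ha)
    rw [spMap_id]
    exact hn
  obtain ⟨n0, φ0, hφ0⟩ := h2.exists
  classical
  let φ : ℕ → (B →ₐ[K] E) := fun n =>
    if h : ∃ φ : B →ₐ[K] E, y n = spMap φ ≫ j then h.choose else φ0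
  refine ⟨spMap (Pi.algHom K (fun _ => E) φ) ≫ j, ?_⟩
  filter_upwards [h2] with n hn
  rw [← Category.assoc, ← spMap_comp]
  have e1 : (vdEv K E n).comp (Pi.algHom K (fun _ => E) φ) = φ n := rfl
  have e2 : φ n = hn.choose := dif_pos hn
  rw [e1, e2]
  exact hn.choose_spec.symm

end germ

end Pool.Agent.H.MP_ac3185_nt
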