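import Pool.Agent.H.MP_ac3185_nt.V.DivC

/-! The ring of bounded sequences modulo an ultrafilter and its residue map, as one structure. -/

set_option autoImplicit false

open Filter

namespace Pool.Agent.H.MP_ac3185_nt

universe u

/-- The ultrapower `F` of `E`, the ring `O` of its bounded elements, the class `gm` of a sequence,
the standard part `st` and the constants `cst`. -/
structure VdRing (K E : Type u) [Field K] [Field E] [Algebra K E] (v : AbsoluteValue E ℝ) where
  /-- the ultrapower -/
  F : Type u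
  [fieldF : Field F]
  [algF : Algebra K F]
  /-- the ring of bounded elements -/
  O : Type u
  [ringO : CommRing O]
  [domO : IsDomain O]
  [valO : ValuationRing O]
  [algKO : Algebra K O]
  [algOF : Algebra O F]
  [frac : IsFractionRing O F]
  [tower : IsScalarTower K O F]
  /-- the class of a sequence -/
  gm : (ℕ → E) →ₐ[K] F
  /-- the standard part -/
  st : O →ₐ[K] E
  /-- the constants -/
  cst : E →ₐ[K] O
  gm_zero : ∀ f, gm f = 0 ↔ ∀ᶠ n in (vdU : Filter ℕ), f n = 0
  rep : ∀ a : O, ∃ f : ℕ → E, gm f = algebraMap O F a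
  bdd : ∀ (f : ℕ → E) (C : ℝ), (∀ᶠ n in (vdU : Filter ℕ), v (f n) ≤ C) →
    ∃ a : O, algebraMap O F a = gm f
  bdd' : ∀ (a : O) (f : ℕ → E), gm f = algebraMap O F a →
    ∃ C : ℝ, ∀ᶠ n in (vdU : Filter ℕ), v (f n) ≤ C
  lim : ∀ (a : O) (f : ℕ → E), gm f = algebraMap O F a → VdLim v f (st a)
  cst_gm : ∀ e, algebraMap O F (cst e) = gm (fun _ => e)

attribute [instance] VdRing.fieldF VdRing.algF VdRing.ringO VdRing.domO VdRing.valO VdRing.algKO
  VdRing.algOF VdRing.frac VdRing.tower

variable {K E : Type u} [Field K] [Field E] [Algebra K E] {v : AbsoluteValue E ℝ}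

theorem VdRing.inj (D : VdRing K E v) : Function.Injective (algebraMap D.O D.F) :=
  IsFractionRing.injective D.O D.F

theorem VdRing.st_cst (D : VdRing K E v) (e : E) : D.st (D.cst e) = e :=
  VdLim.unique (D.lim (D.cst e) (fun _ => e) (D.cst_gm e).symm) (VdLim.const e)

theorem VdRing.isUnit (D : VdRing K E v) (a : D.O) (ha : D.st a ≠ 0) : IsUnit a := by
  obtain ⟨f, hf⟩ := D.rep a
  have h1 := D.lim a f hf
  have h2 : 0 < v (D.st a) := v.pos ha
  have h3 : ∀ᶠ n in (vdU : Filter ℕ), v (D.st a) / 2 ≤ v (f n) := by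
    filter_upwards [h1 _ (half_pos h2)] with n hn
    have h4 : v (D.st a) ≤ v (f n) + v (f n - D.st a) := by
      have h5 : D.st a = f n - (f n - D.st a) := by ring
      calc v (D.st a) = v (f n - (f n - D.st a)) := by rw [← h5]
        _ ≤ v (f n) + v (f n - D.st a) := v.sub_le_add _ _
    linarith
  obtain ⟨b, hb⟩ := D.bdd (fun n => (f n)⁻¹) (v (D.st a) / 2)⁻¹ (by
    filter_upwards [h3] with n hn
    rw [map_inv₀]
    exact inv_anti₀ (half_pos h2) hn)
  have h5 : a * b = 1 := by
    apply D.inj
    rw [map_mul, map_one, ← hf, hb, ← map_mul, ← map_one D.gm, ← sub_eq_zero, ← map_sub, D.gm_zero]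
    filter_upwards [h3] with n hn
    show f n * (f n)⁻¹ - 1 = 0
    rw [mul_inv_cancel₀, sub_self]
    intro h0
    rw [h0, map_zero] at hn
    linarith
  exact IsUnit.of_mul_eq_one b h5

theorem exists_vdRing (K E : Type u) [Field K] [Field E] [Algebra K E] (v : AbsoluteValue E ℝ)
    (hc : ∀ (f : ℕ → E) (C : ℝ), (∀ n, v (f n) ≤ C) → ∃ l, VdLim v f l) :
    Nonempty (VdRing K E v) := by
  classical
  let F := Filter.Germ (vdU : Filter ℕ) E
  let gm : (ℕ → E) →+* F := Filter.Germ.coeRingHom (vdU : Filter ℕ)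
  have hgm : ∀ f, gm f = 0 ↔ ∀ᶠ n in (vdU : Filter ℕ), f n = 0 := by
    intro f
    exact Filter.Germ.coe_eq
  have hs : Function.Surjective gm := fun a => Filter.Germ.inductionOn a fun f => ⟨f, rfl⟩
  let _ : Algebra K F := (gm.comp (algebraMap K (ℕ → E))).toAlgebra
  let O := vdO v gm hgm hs
  let i : K →+* O := (algebraMap K F).codRestrict O.toSubring fun a =>
    vdc_bdd v gm hgm hs (fun _ => algebraMap K E a) (v (algebraMap K E a))
      (Eventually.of_forall fun _ => le_refl _)
  let _ : Algebra K O := i.toAlgebra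
  choose s hl using vdc_exists_lim v gm hgm hs hc
  have hrep : ∀ a : O, ∃ (f : ℕ → E) (C : ℝ), (∀ n, v (f n) ≤ C) ∧ gm f = a := fun a => a.2
  let st : O →ₐ[K] E :=
    { toFun := s
      map_one' := (hl 1 1 (map_one gm)).unique (VdLim.const 1)
      map_zero' := (hl 0 0 (map_zero gm)).unique (VdLim.const 0)
      map_mul' := fun a b => by
        obtain ⟨f, C, hC, hf⟩ := hrep a
        obtain ⟨g, D, hD, hg⟩ := hrep b
        refine (hl (a * b) (f * g) ?_).unique (VdLim.mul hC (hl a f hf) (hl b g hg))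
        rw [map_mul, hf, hg]
        rfl
      map_add' := fun a b => by
        obtain ⟨f, C, hC, hf⟩ := hrep a
        obtain ⟨g, D, hD, hg⟩ := hrep b
        refine (hl (a + b) (f + g) ?_).unique ((hl a f hf).add (hl b g hg))
        rw [map_add, hf, hg]
        rfl
      commutes' := fun c =>
        (hl (algebraMap K O c) (fun _ => algebraMap K E c) rfl).unique (VdLim.const _) }
  let cst : E →ₐ[K] O :=
    { toFun := fun e => ⟨gm (fun _ => e), vdc_bdd v gm hgm hs (fun _ => e) (v e)
        (Eventually.of_forall fun _ => le_refl _)⟩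
      map_one' := Subtype.ext (map_one gm)
      map_zero' := Subtype.ext (map_zero gm)
      map_mul' := fun a b => Subtype.ext (map_mul gm (fun _ => a) (fun _ => b))
      map_add' := fun a b => Subtype.ext (map_add gm (fun _ => a) (fun _ => b))
      commutes' := fun c => rfl }
  exact ⟨{
    F := F
    O := O
    tower := IsScalarTower.of_algebraMap_eq fun _ => rfl
    gm := { gm with commutes' := fun _ => rfl }
    st := st
    cst := cst
    gm_zero := hgm
    rep := fun a => by
      obtain ⟨f, C, hC, hf⟩ := hrep a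
      exact ⟨f, hf⟩
    bdd := fun f C h => ⟨⟨gm f, vdc_bdd v gm hgm hs f C h⟩, rfl⟩
    bdd' := fun a f hf => by
      obtain ⟨g, C, hC, hg⟩ := hrep a
      refine ⟨C, ?_⟩
      have h1 : gm f = gm g := hf.trans hg.symm
      filter_upwards [(vdc_eq gm hgm).1 h1] with n hn
      rw [hn]
      exact hC n
    lim := fun a f hf => hl a f hf
    cst_gm := fun _ => rfl }⟩

end Pool.Agent.H.MP_ac3185_nt
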