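import Pool.Agent.H.MP_ac3185_nt.V.DivA

/-! Doubling of points which are close to the origin. -/

set_option autoImplicit false

open CategoryTheory AlgebraicGeometry NumberField
open scoped MonObj

namespace Pool.Agent.H.MP_ac3185_nt

universe u

variable {K : Type u} [Field K]

section ring

variable {E O : Type u} [Field E] [Algebra K E] [CommRing O] [Algebra K O] (st : O →ₐ[K] E)
  (cst : E →ₐ[K] O) (J J2 : Ideal O) (hJJ : ∀ a ∈ J, ∀ b ∈ J, a * b ∈ J2)
  (hJ : ∀ a ∈ J, st a = 0)

/-- The ring of the triples `(e + i, e + j, e + i + j + k)` with `e` in `E`, `i` and `j` in `J` and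
`k` in `J2`. -/
def vdT : Subalgebra K (O × O × O) where
  carrier := {p | ∃ e : E, p.1 - cst e ∈ J ∧ p.2.1 - cst e ∈ J ∧
    p.2.2 - (p.1 + p.2.1 - cst e) ∈ J2}
  mul_mem' := by
    rintro ⟨x, y, z⟩ ⟨x', y', z'⟩ ⟨e, h1, h2, h3⟩ ⟨e', h1', h2', h3'⟩
    refine ⟨e * e', ?_, ?_, ?_⟩
    · show x * x' - cst (e * e') ∈ J
      have : x * x' - cst (e * e') = x * (x' - cst e') + cst e' * (x - cst e) := by
        rw [map_mul]; ring
      rw [this]
      exact J.add_mem (J.mul_mem_left _ h1') (J.mul_mem_left _ h1)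
    · show y * y' - cst (e * e') ∈ J
      have : y * y' - cst (e * e') = y * (y' - cst e') + cst e' * (y - cst e) := by
        rw [map_mul]; ring
      rw [this]
      exact J.add_mem (J.mul_mem_left _ h2') (J.mul_mem_left _ h2)
    · show z * z' - (x * x' + y * y' - cst (e * e')) ∈ J2
      change x - cst e ∈ J at h1
      change y - cst e ∈ J at h2
      change z - (x + y - cst e) ∈ J2 at h3
      change x' - cst e' ∈ J at h1'
      change y' - cst e' ∈ J at h2'
      change z' - (x' + y' - cst e') ∈ J2 at h3'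
      have : z * z' - (x * x' + y * y' - cst (e * e')) =
          z * (z' - (x' + y' - cst e')) + (x' + y' - cst e') * (z - (x + y - cst e)) +
            ((x - cst e) * (y' - cst e') + (y - cst e) * (x' - cst e')) := by
        rw [map_mul]; ring
      rw [this]
      exact J2.add_mem (J2.add_mem (J2.mul_mem_left _ h3') (J2.mul_mem_left _ h3))
        (J2.add_mem (hJJ _ h1 _ h2') (hJJ _ h2 _ h1'))
  add_mem' := by
    rintro ⟨x, y, z⟩ ⟨x', y', z'⟩ ⟨e, h1, h2, h3⟩ ⟨e', h1', h2', h3'⟩
    refine ⟨e + e', ?_, ?_, ?_⟩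
    · show x + x' - cst (e + e') ∈ J
      have : x + x' - cst (e + e') = (x - cst e) + (x' - cst e') := by
        rw [map_add]; ring
      rw [this]
      exact J.add_mem h1 h1'
    · show y + y' - cst (e + e') ∈ J
      have : y + y' - cst (e + e') = (y - cst e) + (y' - cst e') := by
        rw [map_add]; ring
      rw [this]
      exact J.add_mem h2 h2'
    · show z + z' - (x + x' + (y + y') - cst (e + e')) ∈ J2
      have : z + z' - (x + x' + (y + y') - cst (e + e')) =
          (z - (x + y - cst e)) + (z' - (x' + y' - cst e')) := by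
        rw [map_add]; ring
      rw [this]
      exact J2.add_mem h3 h3'
  algebraMap_mem' := fun c => by
    refine ⟨algebraMap K E c, ?_, ?_, ?_⟩
    · show algebraMap K O c - cst (algebraMap K E c) ∈ J
      rw [cst.commutes, sub_self]
      exact J.zero_mem
    · show algebraMap K O c - cst (algebraMap K E c) ∈ J
      rw [cst.commutes, sub_self]
      exact J.zero_mem
    · show algebraMap K O c - (algebraMap K O c + algebraMap K O c - cst (algebraMap K E c)) ∈ J2
      rw [cst.commutes, add_sub_cancel_right, sub_self]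
      exact J2.zero_mem

include hJ in
theorem vdT_unit (hsc : ∀ e, st (cst e) = e) (hu : ∀ a, st a ≠ 0 → IsUnit a)
    (hJ2 : ∀ a ∈ J2, st a = 0) (p : vdT cst J J2 hJJ) (hp : st p.1.1 ≠ 0) : IsUnit p := by
  obtain ⟨⟨x, y, z⟩, e, h1, h2, h3⟩ := p
  change x - cst e ∈ J at h1
  change y - cst e ∈ J at h2
  change z - (x + y - cst e) ∈ J2 at h3
  change st x ≠ 0 at hp
  have ex : st x = e := by
    have := hJ _ h1
    rw [map_sub, hsc, sub_eq_zero] at this
    exact this
  have ey : st y = e := by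
    have := hJ _ h2
    rw [map_sub, hsc, sub_eq_zero] at this
    exact this
  have ez : st z = e := by
    have := hJ2 _ h3
    rw [map_sub, map_sub, map_add, hsc, ex, ey, sub_eq_zero, add_sub_cancel_right] at this
    exact this
  have he : e ≠ 0 := ex ▸ hp
  obtain ⟨x', hx⟩ := (hu x (ex ▸ he)).exists_right_inv
  obtain ⟨y', hy⟩ := (hu y (ey ▸ he)).exists_right_inv
  obtain ⟨z', hz⟩ := (hu z (ez ▸ he)).exists_right_inv
  have hce : cst e * cst e⁻¹ = 1 := by rw [← map_mul, mul_inv_cancel₀ he, map_one]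
  have h1' : x' - cst e⁻¹ ∈ J := by
    have : x' - cst e⁻¹ = -(x' * cst e⁻¹) * (x - cst e) := by
      linear_combination (cst e⁻¹) * hx - (x') * hce
    rw [this]
    exact J.mul_mem_left _ h1
  have h2' : y' - cst e⁻¹ ∈ J := by
    have : y' - cst e⁻¹ = -(y' * cst e⁻¹) * (y - cst e) := by
      linear_combination (cst e⁻¹) * hy - (y') * hce
    rw [this]
    exact J.mul_mem_left _ h2
  have h3' : z' - (x' + y' - cst e⁻¹) ∈ J2 := by
    have : z' - (x' + y' - cst e⁻¹) = -z' * ((x - cst e) * (y' - cst e⁻¹) +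
        (y - cst e) * (x' - cst e⁻¹)) -
        z' * (x' + y' - cst e⁻¹) * (z - (x + y - cst e)) := by
      linear_combination (x' + y' - cst e⁻¹) * hz - z' * hx - z' * hy + z' * hce
    rw [this]
    exact J2.sub_mem (J2.mul_mem_left _ (J2.add_mem (hJJ _ h1 _ h2') (hJJ _ h2 _ h1')))
      (J2.mul_mem_left _ h3)
  refine IsUnit.of_mul_eq_one ⟨⟨x', y', z'⟩, e⁻¹, h1', h2', h3'⟩ ?_
  apply Subtype.ext
  exact Prod.ext hx (Prod.ext hy hz)

end ring

section double

variable {A : Over (Spec (.of K))} [GrpObj A] {B E O : Type u} [CommRing B] [Algebra K B]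
  [Field E] [Algebra K E] [CommRing O] [Algebra K O] (st : O →ₐ[K] E)
  (cst : E →ₐ[K] O) (J J2 : Ideal O) (hJJ : ∀ a ∈ J, ∀ b ∈ J, a * b ∈ J2)
  (hJ : ∀ a ∈ J, st a = 0)

include hJJ hJ in
/-- The double of a point which is zero modulo `J` is computed modulo `J2` by the doubles of the
coordinates. -/
theorem vd_double (hsc : ∀ e, st (cst e) = e) (hu : ∀ a, st a ≠ 0 → IsUnit a)
    (hJ2 : ∀ a ∈ J2, st a = 0) (j : spR K B ⟶ A) [IsOpenImmersion j.left] (ε : B →ₐ[K] K)
    (hε : (1 : spR K K ⟶ A) = spMap ε ≫ j) (φ θ : B →ₐ[K] O)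
    (hφ : ∀ b, φ b - algebraMap K O (ε b) ∈ J)
    (hθ : (spMap φ ≫ j) * (spMap φ ≫ j) = spMap θ ≫ j) (b : B) :
    θ b - (φ b + φ b - algebraMap K O (ε b)) ∈ J2 := by
  let c : B →ₐ[K] O := (Algebra.ofId K O).comp ε
  have hc : ∀ b, c b = algebraMap K O (ε b) := fun b => rfl
  have hcst : ∀ b, cst (algebraMap K E (ε b)) = c b := fun b => cst.commutes _
  have hone : ∀ (S : Type u) [CommRing S] [Algebra K S],
      (1 : spR K S ⟶ A) = spMap ((Algebra.ofId K S).comp ε) ≫ j := by
    intro S _ _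
    rw [spMap_comp, Category.assoc, ← hε, MonObj.comp_one]
  let T := vdT cst J J2 hJJ
  let t1 : B →ₐ[K] T := (φ.prod (c.prod φ)).codRestrict T fun b => by
    refine ⟨algebraMap K E (ε b), ?_, ?_, ?_⟩
    · show φ b - cst (algebraMap K E (ε b)) ∈ J
      rw [hcst]
      exact hφ b
    · show c b - cst (algebraMap K E (ε b)) ∈ J
      rw [hcst, sub_self]
      exact J.zero_mem
    · show φ b - (φ b + c b - cst (algebraMap K E (ε b))) ∈ J2
      rw [hcst, add_sub_cancel_right, sub_self]
      exact J2.zero_mem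
  let t2 : B →ₐ[K] T := (c.prod (φ.prod φ)).codRestrict T fun b => by
    refine ⟨algebraMap K E (ε b), ?_, ?_, ?_⟩
    · show c b - cst (algebraMap K E (ε b)) ∈ J
      rw [hcst, sub_self]
      exact J.zero_mem
    · show φ b - cst (algebraMap K E (ε b)) ∈ J
      rw [hcst]
      exact hφ b
    · show φ b - (c b + φ b - cst (algebraMap K E (ε b))) ∈ J2
      rw [hcst, add_sub_cancel_left, sub_self]
      exact J2.zero_mem
  let π1 : T →ₐ[K] O := (AlgHom.fst K O (O × O)).comp T.val
  let π2 : T →ₐ[K] O := ((AlgHom.fst K O O).comp (AlgHom.snd K O (O × O))).comp T.val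
  let π3 : T →ₐ[K] O := ((AlgHom.snd K O O).comp (AlgHom.snd K O (O × O))).comp T.val
  let P : spR K T ⟶ A := (spMap t1 ≫ j) * (spMap t2 ≫ j)
  have hP1 : spMap π1 ≫ P = spMap φ ≫ j := by
    show spMap π1 ≫ ((spMap t1 ≫ j) * (spMap t2 ≫ j)) = _
    rw [MonObj.comp_mul, ← Category.assoc, ← spMap_comp, ← Category.assoc, ← spMap_comp]
    have e1 : π1.comp t1 = φ := rfl
    have e2 : π1.comp t2 = c := rfl
    rw [e1, e2, ← hone O, mul_one]
  have hP2 : spMap π2 ≫ P = spMap φ ≫ j := by
    show spMap π2 ≫ ((spMap t1 ≫ j) * (spMap t2 ≫ j)) = _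
    rw [MonObj.comp_mul, ← Category.assoc, ← spMap_comp, ← Category.assoc, ← spMap_comp]
    have e1 : π2.comp t1 = c := rfl
    have e2 : π2.comp t2 = φ := rfl
    rw [e1, e2, ← hone O, one_mul]
  have hP3 : spMap π3 ≫ P = spMap θ ≫ j := by
    show spMap π3 ≫ ((spMap t1 ≫ j) * (spMap t2 ≫ j)) = _
    rw [MonObj.comp_mul, ← Category.assoc, ← spMap_comp, ← Category.assoc, ← spMap_comp]
    have e1 : π3.comp t1 = φ := rfl
    have e2 : π3.comp t2 = φ := rfl
    rw [e1, e2, hθ]
  obtain ⟨χ, hχ⟩ := vd_point j (st.comp π1) (fun p hp => vdT_unit st cst J J2 hJJ hJ hsc hu hJ2 p hp)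
    P (st.comp φ) (by rw [spMap_comp, Category.assoc, hP1, ← Category.assoc, ← spMap_comp])
  have h1 : π1.comp χ = φ := by
    apply vd_chart_mono j
    rw [spMap_comp, Category.assoc, ← hχ, hP1]
  have h2 : π2.comp χ = φ := by
    apply vd_chart_mono j
    rw [spMap_comp, Category.assoc, ← hχ, hP2]
  have h3 : π3.comp χ = θ := by
    apply vd_chart_mono j
    rw [spMap_comp, Category.assoc, ← hχ, hP3]
  obtain ⟨e, he1, -, he3⟩ := (χ b).2
  have e1 : (χ b).1.1 = φ b := congrArg (fun m : B →ₐ[K] O => m b) h1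
  have e2 : (χ b).1.2.1 = φ b := congrArg (fun m : B →ₐ[K] O => m b) h2
  have e3 : (χ b).1.2.2 = θ b := congrArg (fun m : B →ₐ[K] O => m b) h3
  rw [e1] at he1
  rw [e1, e2, e3] at he3
  have e4 : st (φ b) = algebraMap K E (ε b) := by
    have := hJ _ (hφ b)
    rw [map_sub, st.commutes, sub_eq_zero] at this
    exact this
  have e5 : st (φ b) = e := by
    have := hJ _ he1
    rw [map_sub, hsc, sub_eq_zero] at this
    exact this
  have e6 : cst e = algebraMap K O (ε b) := by rw [← e5, e4, cst.commutes]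
  rw [e6] at he3
  exact he3

end double

end Pool.Agent.H.MP_ac3185_nt
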