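import Pool.Agent.H.MP_ac3185_nt.V.DivB
import Pool.Agent.H.MP_ac3185_nt.V.DivD
import Pool.Agent.H.MP_ac3185_nt.V.DivE

/-! Sequences of points which converge to the origin. -/

set_option autoImplicit false

open CategoryTheory AlgebraicGeometry NumberField Filter
open scoped MonObj

namespace Pool.Agent.H.MP_ac3185_nt

universe u

section near

variable {K : Type u} [Field K] {A : Over (Spec (.of K))} [GrpObj A] {B E : Type u} [CommRing B]
  [Algebra K B] [Field E] [Algebra K E] {v : AbsoluteValue E ℝ} (D : VdRing K E v)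
  (j : spR K B ⟶ A) [IsOpenImmersion j.left] (ε : B →ₐ[K] K)
  (hε : (1 : spR K K ⟶ A) = spMap ε ≫ j) (G : Finset B) (hG : Algebra.adjoin K (G : Set B) = ⊤)
  (hG0 : ∀ g ∈ G, ε g = 0)

/-- The point `x` lies in the chart and its coordinates are bounded by `δ`. -/
def Near (v : AbsoluteValue E ℝ) (j : spR K B ⟶ A) (G : Finset B) (δ : ℝ) (x : spR K E ⟶ A) :
    Prop :=
  ∃ φ : B →ₐ[K] E, x = spMap φ ≫ j ∧ ∀ g ∈ G, v (φ g) ≤ δ

/-- The zero homomorphism. -/
noncomputable def vdZero (ε : B →ₐ[K] K) (S : Type u) [CommRing S] [Algebra K S] : B →ₐ[K] S :=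
  (Algebra.ofId K S).comp ε

omit [IsOpenImmersion j.left] in
include hε in
theorem vdZero_spec (S : Type u) [CommRing S] [Algebra K S] :
    (1 : spR K S ⟶ A) = spMap (vdZero ε S) ≫ j := by
  unfold vdZero
  rw [spMap_comp, Category.assoc, ← hε, MonObj.comp_one]

include hG hG0 in
theorem vdZero_unique {S : Type u} [CommRing S] [Algebra K S] (φ : B →ₐ[K] S)
    (h : ∀ g ∈ G, φ g = 0) : φ = vdZero ε S := by
  apply AlgHom.ext_of_adjoin_eq_top hG
  intro g hg
  show φ g = algebraMap K S (ε g)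
  rw [h g hg, hG0 g hg, map_zero]

omit [IsOpenImmersion j.left] in
theorem Near.mono {δ δ' : ℝ} (h : δ ≤ δ') {x : spR K E ⟶ A} (hx : Near v j G δ x) :
    Near v j G δ' x := by
  obtain ⟨φ, h1, h2⟩ := hx
  exact ⟨φ, h1, fun g hg => (h2 g hg).trans h⟩

include hε hG hG0 in
theorem Near.eq_one {x : spR K E ⟶ A} (h : ∀ δ > 0, Near v j G δ x) : x = 1 := by
  obtain ⟨φ, hφ, -⟩ := h 1 one_pos
  have h1 : ∀ g ∈ G, φ g = 0 := by
    intro g hg
    by_contra hne
    obtain ⟨ψ, hψ, h2⟩ := h (v (φ g) / 2) (half_pos (v.pos hne))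
    have h3 : φ = ψ := vd_chart_mono j (hφ.symm.trans hψ)
    have h4 := h2 g hg
    rw [← h3] at h4
    linarith [v.pos hne]
  rw [hφ, vdZero_unique ε G hG hG0 φ h1, ← vdZero_spec j ε hε]

include hG hG0 in
/-- A sequence of points of the chart with coordinates converging to `0` defines a point with values
in the bounded elements. -/
theorem vd_bounded (Φ : B →ₐ[K] (ℕ → E)) (hΦ : ∀ g ∈ G, VdLim v (Φ g) 0) :
    ∃ φ : B →ₐ[K] D.O, (IsScalarTower.toAlgHom K D.O D.F).comp φ = D.gm.comp Φ ∧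
      D.st.comp φ = vdZero ε E := by
  let iO := IsScalarTower.toAlgHom K D.O D.F
  have hiO : Function.Injective iO := D.inj
  have h1 : ∀ b, (D.gm.comp Φ) b ∈ iO.range := by
    intro b
    have h2 : (⊤ : Subalgebra K B) ≤ iO.range.comap (D.gm.comp Φ) := by
      rw [← hG, Algebra.adjoin_le_iff]
      intro g hg
      obtain ⟨a, ha⟩ := D.bdd (Φ g) 1 (by
        filter_upwards [hΦ g hg 1 one_pos] with n hn
        rw [sub_zero] at hn
        exact hn.le)
      exact ⟨a, ha⟩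
    exact h2 trivial
  let φ : B →ₐ[K] D.O := ((AlgEquiv.ofInjective iO hiO).symm : iO.range →ₐ[K] D.O).comp
    ((D.gm.comp Φ).codRestrict iO.range h1)
  have h2 : iO.comp φ = D.gm.comp Φ := by
    ext b
    have h3 := (AlgEquiv.ofInjective iO hiO).apply_symm_apply ⟨(D.gm.comp Φ) b, h1 b⟩
    exact congrArg Subtype.val h3
  refine ⟨φ, h2, ?_⟩
  apply vdZero_unique ε G hG hG0
  intro g hg
  have h3 : D.gm (Φ g) = algebraMap D.O D.F (φ g) :=
    (congrArg (fun m : B →ₐ[K] D.F => m g) h2).symm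
  exact (D.lim (φ g) (Φ g) h3).unique (hΦ g hg)

/-- The sequence `y` converges to the origin. -/
def Small (D : VdRing K E v) (y : ℕ → (spR K E ⟶ A)) : Prop :=
  ∃ x : spR K (ℕ → E) ⟶ A, (∀ᶠ n in (vdU : Filter ℕ), spMap (vdEv K E n) ≫ x = y n) ∧
    ∃ x' : spR K D.O ⟶ A, spMap (IsScalarTower.toAlgHom K D.O D.F) ≫ x' = spMap D.gm ≫ x ∧
      spMap D.st ≫ x' = 1

variable {D}

theorem Small.div {y z : ℕ → (spR K E ⟶ A)} (hy : Small D y) (hz : Small D z) :
    Small D (fun n => y n / z n) := by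
  obtain ⟨x, h1, x', h2, h3⟩ := hy
  obtain ⟨w, k1, w', k2, k3⟩ := hz
  refine ⟨x / w, ?_, x' / w', ?_, ?_⟩
  · filter_upwards [h1, k1] with n e1 e2
    rw [GrpObj.comp_div, e1, e2]
  · rw [GrpObj.comp_div, GrpObj.comp_div, h2, k2]
  · rw [GrpObj.comp_div, h3, k3, div_one]

theorem Small.mul {y z : ℕ → (spR K E ⟶ A)} (hy : Small D y) (hz : Small D z) :
    Small D (fun n => y n * z n) := by
  obtain ⟨x, h1, x', h2, h3⟩ := hy
  obtain ⟨w, k1, w', k2, k3⟩ := hz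
  refine ⟨x * w, ?_, x' * w', ?_, ?_⟩
  · filter_upwards [h1, k1] with n e1 e2
    rw [MonObj.comp_mul, e1, e2]
  · rw [MonObj.comp_mul, MonObj.comp_mul, h2, k2]
  · rw [MonObj.comp_mul, h3, k3, mul_one]

theorem Small.pow {y : ℕ → (spR K E ⟶ A)} (hy : Small D y) (N : ℕ) :
    Small D (fun n => y n ^ N) := by
  obtain ⟨x, h1, x', h2, h3⟩ := hy
  refine ⟨x ^ N, ?_, x' ^ N, ?_, ?_⟩
  · filter_upwards [h1] with n e1
    rw [MonObj.comp_pow, e1]
  · rw [MonObj.comp_pow, MonObj.comp_pow, h2]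
  · rw [MonObj.comp_pow, h3, one_pow]

include hε in
theorem Small.near {y : ℕ → (spR K E ⟶ A)} (hy : Small D y) (hG0 : ∀ g ∈ G, ε g = 0) (δ : ℝ)
    (hδ : 0 < δ) : ∀ᶠ n in (vdU : Filter ℕ), Near v j G δ (y n) := by
  obtain ⟨x, h1, x', h2, h3⟩ := hy
  have h4 : spMap D.st ≫ x' = spMap (vdZero ε E) ≫ j := by rw [h3, ← vdZero_spec j ε hε]
  obtain ⟨φ, rfl⟩ := vd_point j D.st D.isUnit x' (vdZero ε E) h4
  have h5 : D.st.comp φ = vdZero ε E := by
    apply vd_chart_mono j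
    rw [spMap_comp, Category.assoc, h4]
  have h6 : spMap D.gm ≫ x = spMap ((IsScalarTower.toAlgHom K D.O D.F).comp φ) ≫ j := by
    rw [← h2, spMap_comp, Category.assoc]
  have h7 : ∀ g ∈ G, ∀ᶠ n in (vdU : Filter ℕ), ∃ ψ : B →ₐ[K] E,
      spMap (vdEv K E n) ≫ x = spMap ψ ≫ j ∧ v (ψ g) ≤ δ := by
    intro g hg
    obtain ⟨f, hf⟩ := D.rep (φ g)
    have h8 := vd_germ j vdU D.gm D.gm_zero x _ h6 g f hf
    have h9 := D.lim (φ g) f hf δ hδ
    filter_upwards [h8, h9] with n e1 e2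
    obtain ⟨ψ, hψ1, hψ2⟩ := e1
    refine ⟨ψ, hψ1, ?_⟩
    have h10 : D.st (φ g) = 0 := by
      have := congrArg (fun m : B →ₐ[K] E => m g) h5
      refine this.trans ?_
      show algebraMap K E (ε g) = 0
      rw [hG0 g hg, map_zero]
    rw [h10, sub_zero] at e2
    rw [hψ2]
    exact e2.le
  obtain ⟨f1, hf1⟩ := D.rep (φ 1)
  have h8 := vd_germ j vdU D.gm D.gm_zero x _ h6 1 f1 hf1
  have h9 : ∀ᶠ n in (vdU : Filter ℕ), ∀ g ∈ G, ∃ ψ : B →ₐ[K] E,
      spMap (vdEv K E n) ≫ x = spMap ψ ≫ j ∧ v (ψ g) ≤ δ := (eventually_all_finset G).2 h7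
  filter_upwards [h1, h8, h9] with n e1 e2 e3
  obtain ⟨ψ, hψ, -⟩ := e2
  refine ⟨ψ, by rw [← e1, hψ], fun g hg => ?_⟩
  obtain ⟨ψ', hψ', h10⟩ := e3 g hg
  have h11 : ψ = ψ' := vd_chart_mono j (hψ.symm.trans hψ')
  rw [h11]
  exact h10

include hε hG hG0 in
theorem Small.of_near {y : ℕ → (spR K E ⟶ A)}
    (h : ∀ δ > 0, ∀ᶠ n in (vdU : Filter ℕ), Near v j G δ (y n)) : Small D y := by
  classical
  let φ : ℕ → (B →ₐ[K] E) := fun n =>
    if h : ∃ φ : B →ₐ[K] E, y n = spMap φ ≫ j then h.choose else vdZero ε E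
  have hφ : ∀ n, ∀ ψ : B →ₐ[K] E, y n = spMap ψ ≫ j → φ n = ψ := by
    intro n ψ hψ
    have h1 : ∃ φ : B →ₐ[K] E, y n = spMap φ ≫ j := ⟨ψ, hψ⟩
    have e : φ n = h1.choose := dif_pos h1
    rw [e]
    exact vd_chart_mono j (h1.choose_spec.symm.trans hψ)
  let Φ : B →ₐ[K] (ℕ → E) := Pi.algHom K (fun _ => E) φ
  have hΦ : ∀ g ∈ G, VdLim v (Φ g) 0 := by
    intro g hg δ hδ
    filter_upwards [h (δ / 2) (half_pos hδ)] with n hn
    obtain ⟨ψ, h1, h2⟩ := hn
    rw [sub_zero]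
    show v (φ n g) < δ
    rw [hφ n ψ h1]
    exact (h2 g hg).trans_lt (half_lt_self hδ)
  obtain ⟨φ', h1, h2⟩ := vd_bounded D ε G hG hG0 Φ hΦ
  refine ⟨spMap Φ ≫ j, ?_, spMap φ' ≫ j, ?_, ?_⟩
  · filter_upwards [h 1 one_pos] with n hn
    obtain ⟨ψ, h3, -⟩ := hn
    rw [← Category.assoc, ← spMap_comp]
    have e1 : (vdEv K E n).comp Φ = φ n := rfl
    rw [e1, hφ n ψ h3, h3]
  · rw [← Category.assoc, ← spMap_comp, h1, ← Category.assoc, ← spMap_comp]
  · rw [← Category.assoc, ← spMap_comp, h2, ← vdZero_spec j ε hε]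

end near

section limit

variable {K : Type u} [Field K] {A : Over (Spec (.of K))} [GrpObj A] [IsAbVar A] {E : Type u}
  [Field E] [Algebra K E] {v : AbsoluteValue E ℝ} (D : VdRing K E v)

/-- Every sequence of points has a limit. -/
theorem exists_small_div (y : ℕ → (spR K E ⟶ A)) :
    ∃ l : spR K E ⟶ A, Small D (fun n => y n / l) := by
  have hp := (inferInstance : IsAbVar A).proper
  have hc : CompactSpace A.left := by
    have h1 : QuasiCompact A.hom := inferInstance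
    exact (quasiCompact_iff_compactSpace A.hom).1 h1
  obtain ⟨x, hx⟩ := vd_seq vdU y
  obtain ⟨x', hx'⟩ := vd_valuative (A := A) D.O (spMap D.gm ≫ x)
  let c : E →ₐ[K] (ℕ → E) := Pi.algHom K (fun _ => E) fun _ => AlgHom.id K E
  have hc1 : D.gm.comp c = (IsScalarTower.toAlgHom K D.O D.F).comp D.cst := by
    ext e
    exact (D.cst_gm e).symm
  have hc2 : D.st.comp D.cst = AlgHom.id K E := by
    ext e
    exact D.st_cst e
  refine ⟨spMap D.st ≫ x', x / (spMap c ≫ spMap D.st ≫ x'), ?_,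
    x' / (spMap D.cst ≫ spMap D.st ≫ x'), ?_, ?_⟩
  · filter_upwards [hx] with n hn
    have e1 : (vdEv K E n).comp c = AlgHom.id K E := rfl
    rw [GrpObj.comp_div, hn, ← Category.assoc (spMap (vdEv K E n)), ← spMap_comp, e1, spMap_id,
      Category.id_comp]
  · rw [GrpObj.comp_div, GrpObj.comp_div, hx', ← Category.assoc (spMap D.gm), ← spMap_comp, hc1,
      spMap_comp, Category.assoc]
  · rw [GrpObj.comp_div, ← Category.assoc (spMap D.st) (spMap D.cst), ← spMap_comp, hc2, spMap_id,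
      Category.id_comp, div_self']

end limit

end Pool.Agent.H.MP_ac3185_nt
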