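import Pool.Agent.H.MP_ac3185_nt.V.DivF

/-! Doubling is a contraction near the origin; divisible points are torsion points. -/

set_option autoImplicit false

open CategoryTheory AlgebraicGeometry NumberField Filter
open scoped MonObj

namespace Pool.Agent.H.MP_ac3185_nt

universe u

section ideal

variable {K E : Type u} [Field K] [Field E] [Algebra K E] {v : AbsoluteValue E ℝ}
  (D : VdRing K E v)

/-- The ideal of the elements which are bounded by a multiple of `δ`. -/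
def vdJ (δ : ℕ → ℝ) : Ideal D.O where
  carrier := {a | ∃ (f : ℕ → E) (C : ℝ), D.gm f = algebraMap D.O D.F a ∧
    ∀ᶠ n in (vdU : Filter ℕ), v (f n) ≤ C * δ n}
  zero_mem' := ⟨0, 0, by rw [map_zero, map_zero], Eventually.of_forall fun n => by
    show v (0 : E) ≤ 0 * δ n
    rw [map_zero, zero_mul]⟩
  add_mem' := by
    rintro a b ⟨f, C, h1, h2⟩ ⟨g, C', h3, h4⟩
    refine ⟨f + g, C + C', by rw [map_add, map_add, h1, h3], ?_⟩
    filter_upwards [h2, h4] with n e1 e2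
    rw [add_mul]
    exact (v.add_le _ _).trans (add_le_add e1 e2)
  smul_mem' := by
    rintro c a ⟨f, C, h1, h2⟩
    obtain ⟨g, hg⟩ := D.rep c
    obtain ⟨C', hC'⟩ := D.bdd' c g hg
    refine ⟨g * f, C' * C, by rw [smul_eq_mul, map_mul, map_mul, hg, h1], ?_⟩
    filter_upwards [h2, hC'] with n e1 e2
    show v (g n * f n) ≤ C' * C * δ n
    rw [map_mul, mul_assoc]
    exact mul_le_mul e2 e1 (v.nonneg _) ((v.nonneg _).trans e2)

theorem vdJ_mul {δ : ℕ → ℝ} {a b : D.O} (ha : a ∈ vdJ D δ) (hb : b ∈ vdJ D δ) :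
    a * b ∈ vdJ D (fun n => δ n * δ n) := by
  obtain ⟨f, C, h1, h2⟩ := ha
  obtain ⟨g, C', h3, h4⟩ := hb
  refine ⟨f * g, C * C', by rw [map_mul, map_mul, h1, h3], ?_⟩
  filter_upwards [h2, h4] with n e1 e2
  show v (f n * g n) ≤ C * C' * (δ n * δ n)
  rw [map_mul]
  calc v (f n) * v (g n) ≤ (C * δ n) * (C' * δ n) :=
        mul_le_mul e1 e2 (v.nonneg _) ((v.nonneg _).trans e1)
    _ = C * C' * (δ n * δ n) := by ring

theorem vdJ_st {δ : ℕ → ℝ} (hδ : ∀ ε > 0, ∀ᶠ n in (vdU : Filter ℕ), |δ n| < ε) {a : D.O}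
    (ha : a ∈ vdJ D δ) : D.st a = 0 := by
  obtain ⟨f, C, h1, h2⟩ := ha
  refine (D.lim a f h1).unique fun ε hε => ?_
  have h3 : 0 < ε / (|C| + 1) := by positivity
  filter_upwards [h2, hδ _ h3] with n e1 e2
  rw [sub_zero]
  have h4 : C * δ n ≤ |C| * |δ n| := by
    rw [← abs_mul]
    exact le_abs_self _
  have h5 : |C| * |δ n| ≤ |C| * (ε / (|C| + 1)) :=
    mul_le_mul_of_nonneg_left e2.le (abs_nonneg C)
  have h6 : |C| * (ε / (|C| + 1)) < (|C| + 1) * (ε / (|C| + 1)) :=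
    mul_lt_mul_of_pos_right (by linarith) h3
  rw [mul_div_cancel₀ _ (by positivity : (|C| + 1) ≠ 0)] at h6
  linarith

end ideal

section contraction

variable {K : Type u} [Field K] {A : Over (Spec (.of K))} [GrpObj A] {B E : Type u} [CommRing B]
  [Algebra K B] [Field E] [Algebra K E] {v : AbsoluteValue E ℝ} (D : VdRing K E v)
  (j : spR K B ⟶ A) [IsOpenImmersion j.left] (ε : B →ₐ[K] K)
  (hε : (1 : spR K K ⟶ A) = spMap ε ≫ j) (G : Finset B) (hG : Algebra.adjoin K (G : Set B) = ⊤)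
  (hG0 : ∀ g ∈ G, ε g = 0)

include D hε hG hG0 in
/-- Doubling is a contraction near the origin, if `2` is small. -/
theorem vd_contract (hv : v 2 < 1) : ∃ δ0 > 0, ∀ δ, 0 < δ → δ ≤ δ0 → ∀ z : spR K E ⟶ A,
    Near v j G δ z → Near v j G ((1 + v 2) / 2 * δ) (z * z) := by
  by_contra hcon
  push Not at hcon
  have hpos : ∀ n : ℕ, (0 : ℝ) < 1 / ((n : ℝ) + 1) := fun n => by positivity
  choose δ hδ0 hδ1 z hz hnz using fun n : ℕ => hcon (1 / ((n : ℝ) + 1)) (hpos n)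
  choose φ hφ1 hφ2 using hz
  have hlim : ∀ et > 0, ∀ᶠ n in (vdU : Filter ℕ), δ n < et := by
    intro et het
    obtain ⟨N, hN⟩ := exists_nat_one_div_lt het
    have h1 : ∀ᶠ n in (vdU : Filter ℕ), N ≤ n :=
      Nat.hyperfilter_le_atTop (eventually_ge_atTop N)
    filter_upwards [h1] with n hn
    refine (hδ1 n).trans_lt (lt_of_le_of_lt ?_ hN)
    exact one_div_le_one_div_of_le (by positivity) (by exact_mod_cast Nat.succ_le_succ hn)
  have hlim1 : ∀ et > 0, ∀ᶠ n in (vdU : Filter ℕ), |δ n| < et := fun et het =>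
    (hlim et het).mono fun n hn => by rwa [abs_of_pos (hδ0 n)]
  have hlim2 : ∀ et > 0, ∀ᶠ n in (vdU : Filter ℕ), |δ n * δ n| < et := by
    intro et het
    filter_upwards [hlim et het, hlim 1 one_pos] with n h1 h2
    rw [abs_of_pos (mul_pos (hδ0 n) (hδ0 n))]
    nlinarith [hδ0 n]
  let Φ : B →ₐ[K] (ℕ → E) := Pi.algHom K (fun _ => E) φ
  have hΦ : ∀ g ∈ G, VdLim v (Φ g) 0 := by
    intro g hg et het
    filter_upwards [hlim et het] with n hn
    rw [sub_zero]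
    exact (hφ2 n g hg).trans_lt hn
  obtain ⟨φ', h1, h2⟩ := vd_bounded D ε G hG hG0 Φ hΦ
  let J := vdJ D δ
  let J2 := vdJ D (fun n => δ n * δ n)
  have hJJ : ∀ a ∈ J, ∀ b ∈ J, a * b ∈ J2 := fun a ha b hb => vdJ_mul D ha hb
  have hφJ : ∀ b, φ' b - algebraMap K D.O (ε b) ∈ J := by
    have e1 : (Ideal.Quotient.mkₐ K J).comp φ' = vdZero ε (D.O ⧸ J) := by
      apply vdZero_unique ε G hG hG0
      intro g hg
      show Ideal.Quotient.mk J (φ' g) = 0
      rw [Ideal.Quotient.eq_zero_iff_mem]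
      refine ⟨Φ g, 1, (congrArg (fun m : B →ₐ[K] D.F => m g) h1).symm,
        Eventually.of_forall fun n => ?_⟩
      rw [one_mul]
      exact hφ2 n g hg
    intro b
    rw [← Ideal.Quotient.eq_zero_iff_mem, map_sub, sub_eq_zero]
    exact congrArg (fun m : B →ₐ[K] (D.O ⧸ J) => m b) e1
  have h3 : spMap D.st ≫ ((spMap φ' ≫ j) * (spMap φ' ≫ j)) = spMap (vdZero ε E) ≫ j := by
    rw [MonObj.comp_mul, ← Category.assoc, ← spMap_comp, h2, ← vdZero_spec j ε hε, mul_one]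
  obtain ⟨θ, hθ⟩ := vd_point j D.st D.isUnit _ _ h3
  have h4 := vd_double D.st D.cst J J2 hJJ (fun a ha => vdJ_st D hlim1 ha) D.st_cst D.isUnit
    (fun a ha => vdJ_st D hlim2 ha) j ε hε φ' θ hφJ hθ
  have h5 : spMap D.gm ≫ ((spMap Φ ≫ j) * (spMap Φ ≫ j)) =
      spMap ((IsScalarTower.toAlgHom K D.O D.F).comp θ) ≫ j := by
    rw [spMap_comp, Category.assoc, ← hθ, MonObj.comp_mul, MonObj.comp_mul, ← Category.assoc,
      ← spMap_comp, ← Category.assoc, ← spMap_comp, h1]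
  have hev : ∀ n, spMap (vdEv K E n) ≫ ((spMap Φ ≫ j) * (spMap Φ ≫ j)) = z n * z n := by
    intro n
    rw [MonObj.comp_mul, ← Category.assoc, ← spMap_comp]
    have e1 : (vdEv K E n).comp Φ = φ n := rfl
    rw [e1, ← hφ1]
  have h7 : ∀ g ∈ G, ∀ᶠ n in (vdU : Filter ℕ), ∃ ψ : B →ₐ[K] E,
      z n * z n = spMap ψ ≫ j ∧ v (ψ g) ≤ (1 + v 2) / 2 * δ n := by
    intro g hg
    obtain ⟨f, hf⟩ := D.rep (θ g)
    have h8 := vd_germ j vdU D.gm D.gm_zero _ _ h5 g f hf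
    obtain ⟨f', C, h9, h10⟩ := h4 g
    have h11 : D.gm (f - (Φ g + Φ g) - f') = 0 := by
      have e1 : D.gm (Φ g) = algebraMap D.O D.F (φ' g) :=
        (congrArg (fun m : B →ₐ[K] D.F => m g) h1).symm
      rw [map_sub, map_sub, map_add, hf, e1, h9, hG0 g hg, map_zero, sub_zero, map_sub, map_add,
        sub_self]
    rw [D.gm_zero] at h11
    have h12 : 0 < (1 - v 2) / 2 / (|C| + 1) := by
      have : 0 < 1 - v 2 := by linarith
      positivity
    filter_upwards [h8, h10, h11, hlim _ h12] with n e1 e2 e3 e4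
    obtain ⟨ψ, hψ1, hψ2⟩ := e1
    refine ⟨ψ, by rw [← hev, hψ1], ?_⟩
    have e5 : f n = (φ n g + φ n g) + f' n := by
      have : f n - (φ n g + φ n g) - f' n = 0 := e3
      linear_combination this
    rw [hψ2, e5]
    have e6 : v (φ n g + φ n g) ≤ v 2 * δ n := by
      rw [← two_mul, map_mul]
      exact mul_le_mul_of_nonneg_left (hφ2 n g hg) (v.nonneg _)
    have e7 : v (f' n) ≤ (1 - v 2) / 2 * δ n := by
      refine e2.trans ?_
      have e8 : C * (δ n * δ n) ≤ (|C| + 1) * δ n * δ n := by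
        have : C * (δ n * δ n) ≤ |C| * (δ n * δ n) :=
          mul_le_mul_of_nonneg_right (le_abs_self C) (mul_pos (hδ0 n) (hδ0 n)).le
        nlinarith [mul_pos (hδ0 n) (hδ0 n)]
      refine e8.trans (mul_le_mul_of_nonneg_right ?_ (hδ0 n).le)
      have e9 : (|C| + 1) * δ n ≤ (|C| + 1) * ((1 - v 2) / 2 / (|C| + 1)) :=
        mul_le_mul_of_nonneg_left e4.le (by positivity)
      rwa [mul_div_cancel₀ _ (by positivity : (|C| + 1) ≠ 0)] at e9
    refine (v.add_le _ _).trans ((add_le_add e6 e7).trans ?_)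
    linarith
  obtain ⟨f1, hf1⟩ := D.rep (θ 1)
  have h8 := vd_germ j vdU D.gm D.gm_zero _ _ h5 1 f1 hf1
  have h9 : ∀ᶠ n in (vdU : Filter ℕ), ∀ g ∈ G, ∃ ψ : B →ₐ[K] E,
      z n * z n = spMap ψ ≫ j ∧ v (ψ g) ≤ (1 + v 2) / 2 * δ n := (eventually_all_finset G).2 h7
  obtain ⟨n, ⟨ψ, hψ, -⟩, e3⟩ := (h8.and h9).exists
  rw [hev] at hψ
  refine hnz n ⟨ψ, hψ, fun g hg => ?_⟩
  obtain ⟨ψ', hψ', h10⟩ := e3 g hg
  have h11 : ψ = ψ' := vd_chart_mono j (hψ.symm.trans hψ')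
  rw [h11]
  exact h10

end contraction

end Pool.Agent.H.MP_ac3185_nt
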