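import Pool.Agent.H.MP_ac3185_nt.V.Defs

/-! Products over the cosets of `Gal(Kbar / L)`. -/

set_option autoImplicit false

open NumberField IsDedekindDomain

namespace Pool.Agent.H.MP_ac3185_nt

universe u

section norm

variable {K : Type u} [Field K] [CharZero K] (L : IntermediateField K (AlgebraicClosure K))

theorem vn_index : L.fixingSubgroup.index = Module.finrank K L :=
  (IntermediateField.finrank_eq_fixingSubgroup_index (E' := AlgebraicClosure K) L).symm

theorem vn_finiteIndex [FiniteDimensional K L] : L.fixingSubgroup.FiniteIndex :=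
  ⟨by rw [vn_index]; exact Module.finrank_pos.ne'⟩

omit [CharZero K] in
theorem vn_fix {a : AlgebraicClosure K} (ha : a ∈ L)
    {s : AlgebraicClosure K ≃ₐ[K] AlgebraicClosure K} (hs : s ∈ L.fixingSubgroup) : s a = a :=
  (IntermediateField.mem_fixingSubgroup_iff _ _).1 hs a ha

theorem vn_mem {a : AlgebraicClosure K} (ha : ∀ s ∈ L.fixingSubgroup, s a = a) : a ∈ L := by
  have h1 : a ∈ IntermediateField.fixedField L.fixingSubgroup := by
    rw [IntermediateField.mem_fixedField_iff]
    exact ha
  rwa [InfiniteGalois.fixedField_fixingSubgroup] at h1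

theorem vn_base {a : AlgebraicClosure K} (ha : ∀ s : AlgebraicClosure K ≃ₐ[K] AlgebraicClosure K,
    s a = a) : ∃ d : K, algebraMap K (AlgebraicClosure K) d = a := by
  have h1 : a ∈ (⊥ : IntermediateField K (AlgebraicClosure K)) := by
    apply vn_mem
    intro s _
    exact ha s
  exact IntermediateField.mem_bot.1 h1

omit [CharZero K] in
theorem vn_coset {a : AlgebraicClosure K} (ha : a ∈ L)
    {s t : AlgebraicClosure K ≃ₐ[K] AlgebraicClosure K} (h : t⁻¹ * s ∈ L.fixingSubgroup) :
    s a = t a := by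
  have h1 := vn_fix L ha h
  have h2 : t ((t⁻¹ * s) a) = s a := by
    rw [← AlgEquiv.mul_apply, mul_inv_cancel_left]
  rw [← h2, h1]

/-- The cosets of `Gal(Kbar/L)` are the embeddings of `L`. -/
noncomputable def vn_emb (q : (AlgebraicClosure K ≃ₐ[K] AlgebraicClosure K) ⧸ L.fixingSubgroup) :
    L →ₐ[K] AlgebraicClosure K :=
  (q.out : AlgebraicClosure K →ₐ[K] AlgebraicClosure K).comp L.val

omit [CharZero K] in
theorem vn_emb_bij : Function.Bijective (vn_emb L) := by
  constructor
  · intro p q h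
    have h1 : q.out⁻¹ * p.out ∈ L.fixingSubgroup := by
      rw [IntermediateField.mem_fixingSubgroup_iff]
      intro x hx
      have h2 : p.out x = q.out x := congrArg (fun f : L →ₐ[K] AlgebraicClosure K => f ⟨x, hx⟩) h
      rw [AlgEquiv.mul_apply, h2, ← AlgEquiv.mul_apply, inv_mul_cancel, AlgEquiv.one_apply]
    have h3 := QuotientGroup.eq.2 h1
    rw [QuotientGroup.out_eq', QuotientGroup.out_eq'] at h3
    exact h3.symm
  · intro f
    obtain ⟨φ, hφ⟩ := IsAlgClosed.surjective_domRestrict_of_isAlgebraic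
      (K := K) (L := L) (M := AlgebraicClosure K) (E := AlgebraicClosure K) f
    let s : AlgebraicClosure K ≃ₐ[K] AlgebraicClosure K :=
      AlgEquiv.ofBijective φ (Algebra.IsAlgebraic.algHom_bijective φ)
    refine ⟨(s : (AlgebraicClosure K ≃ₐ[K] AlgebraicClosure K) ⧸ L.fixingSubgroup), ?_⟩
    ext x
    have h1 : s⁻¹ * (s : (AlgebraicClosure K ≃ₐ[K] AlgebraicClosure K) ⧸ L.fixingSubgroup).out ∈
        L.fixingSubgroup := by
      rw [← QuotientGroup.eq, QuotientGroup.out_eq']
    show (s : (AlgebraicClosure K ≃ₐ[K] AlgebraicClosure K) ⧸ L.fixingSubgroup).out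
      (x : AlgebraicClosure K) = f x
    rw [vn_coset L x.2 h1]
    exact congrArg (fun g : L →ₐ[K] AlgebraicClosure K => g x) hφ

theorem vn_norm [FiniteDimensional K L]
    [Fintype ((AlgebraicClosure K ≃ₐ[K] AlgebraicClosure K) ⧸ L.fixingSubgroup)] (a : L) :
    algebraMap K (AlgebraicClosure K) (Algebra.norm K a) =
      ∏ q : (AlgebraicClosure K ≃ₐ[K] AlgebraicClosure K) ⧸ L.fixingSubgroup,
        q.out (a : AlgebraicClosure K) := by
  rw [Algebra.norm_eq_prod_embeddings K (AlgebraicClosure K) a]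
  exact (Fintype.prod_bijective (vn_emb L) (vn_emb_bij L) _ _ (fun q => rfl)).symm

theorem vn_card [FiniteDimensional K L]
    [Fintype ((AlgebraicClosure K ≃ₐ[K] AlgebraicClosure K) ⧸ L.fixingSubgroup)] :
    Fintype.card ((AlgebraicClosure K ≃ₐ[K] AlgebraicClosure K) ⧸ L.fixingSubgroup) =
      Module.finrank K L := by
  rw [← vn_index, Subgroup.index, Nat.card_eq_fintype_card]

end norm

section transfer

open Subgroup Subgroup.leftTransversals

variable {G : Type*} [Group G] {H : Subgroup G} [H.FiniteIndex] {M : Type*} [Field M]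
  [MulSemiringAction G M] (χ : H →* ℤˣ) (r : M) (hr : ∀ h : H, (h : G) • r = ((χ h : ℤ) : M) * r)

/-- the product of the `t • r` over a transversal -/
noncomputable def vnProd (T : H.LeftTransversal) (r : M) : M :=
  letI := H.fintypeQuotientOfFiniteIndex
  ∏ q : G ⧸ H, (T.2.leftQuotientEquiv q : G) • r

theorem vn_smul (T : H.LeftTransversal) (g : G) : g • vnProd T r = vnProd (g • T) r := by
  let _ := H.fintypeQuotientOfFiniteIndex
  show g • (∏ q : G ⧸ H, (T.2.leftQuotientEquiv q : G) • r) =
    ∏ q : G ⧸ H, ((g • T).2.leftQuotientEquiv q : G) • r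
  rw [Finset.smul_prod']
  refine Fintype.prod_equiv (MulAction.toPerm g) _ _ fun q => ?_
  rw [smul_apply_eq_smul_apply_inv_smul, MulAction.toPerm_apply, inv_smul_smul, smul_eq_mul,
    mul_smul]

include hr in
theorem vn_diff (S T : H.LeftTransversal) :
    vnProd T r = (((diff χ S T : ℤˣ) : ℤ) : M) * vnProd S r := by
  let _ := H.fintypeQuotientOfFiniteIndex
  have h1 : ∀ q : G ⧸ H, (T.2.leftQuotientEquiv q : G) • r =
      (((χ ⟨(S.2.leftQuotientEquiv q : G)⁻¹ * T.2.leftQuotientEquiv q,
        QuotientGroup.leftRel_apply.mp <| Quotient.exact'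
          ((S.2.leftQuotientEquiv.symm_apply_apply q).trans
            (T.2.leftQuotientEquiv.symm_apply_apply q).symm)⟩ : ℤˣ) : ℤ) : M) *
        (S.2.leftQuotientEquiv q : G) • r := by
    intro q
    have h2 := hr ⟨(S.2.leftQuotientEquiv q : G)⁻¹ * T.2.leftQuotientEquiv q,
        QuotientGroup.leftRel_apply.mp <| Quotient.exact'
          ((S.2.leftQuotientEquiv.symm_apply_apply q).trans
            (T.2.leftQuotientEquiv.symm_apply_apply q).symm)⟩
    have h3 := congrArg (fun z => (S.2.leftQuotientEquiv q : G) • z) h2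
    simp only at h3
    rw [← mul_smul, mul_inv_cancel_left, smul_mul'] at h3
    rw [h3]
    congr 1
    rcases Int.units_eq_one_or (χ ⟨(S.2.leftQuotientEquiv q : G)⁻¹ * T.2.leftQuotientEquiv q,
        QuotientGroup.leftRel_apply.mp <| Quotient.exact'
          ((S.2.leftQuotientEquiv.symm_apply_apply q).trans
            (T.2.leftQuotientEquiv.symm_apply_apply q).symm)⟩) with h | h
    · rw [h]
      simp
    · rw [h]
      simp
  have h4 : vnProd T r = ∏ q : G ⧸ H, (T.2.leftQuotientEquiv q : G) • r := rfl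
  have h5 : vnProd S r = ∏ q : G ⧸ H, (S.2.leftQuotientEquiv q : G) • r := rfl
  rw [h4, Finset.prod_congr rfl (fun q _ => h1 q), Finset.prod_mul_distrib, ← h5]
  congr 1
  rw [diff, Units.coe_prod, Int.cast_prod]

include hr in
theorem vn_transfer (T : H.LeftTransversal) (g : G) :
    g • vnProd T r = (((MonoidHom.transfer χ g : ℤˣ) : ℤ) : M) * vnProd T r := by
  rw [vn_smul, vn_diff χ r hr T (g • T), MonoidHom.transfer_def χ T g]

include hr in
theorem vn_orbit (T : H.LeftTransversal) (g : G)
    (hg : ∀ (x : G) (n : ℕ) (h : x⁻¹ * g ^ n * x ∈ H), χ ⟨x⁻¹ * g ^ n * x, h⟩ = 1) :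
    g • vnProd T r = vnProd T r := by
  classical
  let _ := H.fintypeQuotientOfFiniteIndex
  have h1 : MonoidHom.transfer χ g = 1 := by
    rw [MonoidHom.transfer_eq_prod_quotient_orbitRel_zpowers_quot]
    exact Finset.prod_eq_one fun q _ => hg _ _ _
  rw [vn_transfer χ r hr, h1]
  simp

/-- If `a` is fixed by `H`, the product of the `t • a` over the transversal does not depend on it. -/
theorem vn_indep (a : M) (ha : ∀ h ∈ H, h • a = a) (T : H.LeftTransversal) [Fintype (G ⧸ H)] :
    vnProd T a = ∏ q : G ⧸ H, q.out • a := by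
  have h1 : vnProd T a = ∏ q : G ⧸ H, (T.2.leftQuotientEquiv q : G) • a := by
    have h0 : (H.fintypeQuotientOfFiniteIndex : Fintype (G ⧸ H)) = ‹Fintype (G ⧸ H)› :=
      Subsingleton.elim _ _
    show @Finset.prod _ _ _ (@Finset.univ _ H.fintypeQuotientOfFiniteIndex) _ = _
    rw [h0]
  rw [h1]
  refine Finset.prod_congr rfl fun q _ => ?_
  have h2 : q.out⁻¹ * (T.2.leftQuotientEquiv q : G) ∈ H := by
    rw [← QuotientGroup.eq, QuotientGroup.out_eq']
    exact (T.2.leftQuotientEquiv.symm_apply_apply q).symm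
  have h3 := ha _ h2
  rw [mul_smul] at h3
  have h4 : q.out • (q.out⁻¹ • ((T.2.leftQuotientEquiv q : G) • a)) = q.out • a :=
    congrArg (fun z => q.out • z) h3
  rwa [smul_inv_smul] at h4

theorem vn_prod_mul (T : H.LeftTransversal) (a b : M) :
    vnProd T (a * b) = vnProd T a * vnProd T b := by
  let _ := H.fintypeQuotientOfFiniteIndex
  show ∏ q : G ⧸ H, (T.2.leftQuotientEquiv q : G) • (a * b) =
    (∏ q : G ⧸ H, (T.2.leftQuotientEquiv q : G) • a) *
      ∏ q : G ⧸ H, (T.2.leftQuotientEquiv q : G) • b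
  rw [← Finset.prod_mul_distrib]
  exact Finset.prod_congr rfl fun q _ => smul_mul' _ _ _

end transfer

end Pool.Agent.H.MP_ac3185_nt
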