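import Pool.Agent.H.MP_ac3185_nt.V.DivJ
import Pool.Agent.H.MP_ac3185_nt.V2.Defs

/-! Equality of ranks from a bound for the number of cosets, without the theorem of Mordell and
Weil. -/

set_option autoImplicit false

open CategoryTheory AlgebraicGeometry NumberField
open scoped MonObj

namespace Pool.Agent.H.MP_ac3185_nt

universe u

section group

/-- `N + 2 ^ k M`. -/
def vdPow {M : Type*} [AddCommGroup M] (N : AddSubgroup M) (k : ℕ) : AddSubgroup M :=
  N ⊔ (nsmulAddMonoidHom (2 ^ k) : M →+ M).range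

theorem mem_vdPow {M : Type*} [AddCommGroup M] (N : AddSubgroup M) (k : ℕ) (x : M) :
    x ∈ vdPow N k ↔ ∃ y ∈ N, ∃ z, x = y + (2 ^ k : ℕ) • z := by
  unfold vdPow
  rw [AddSubgroup.mem_sup]
  constructor
  · rintro ⟨y, hy, _, ⟨z, rfl⟩, rfl⟩
    exact ⟨y, hy, z, rfl⟩
  · rintro ⟨y, hy, z, rfl⟩
    exact ⟨y, hy, _, ⟨z, rfl⟩, rfl⟩

theorem vdPow_succ_le {M : Type*} [AddCommGroup M] (N : AddSubgroup M) (k : ℕ) :
    vdPow N (k + 1) ≤ vdPow N k := by
  intro x hx
  obtain ⟨y, hy, z, rfl⟩ := (mem_vdPow N (k + 1) x).1 hx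
  exact (mem_vdPow N k _).2 ⟨y, hy, 2 • z, by rw [pow_succ, mul_smul]⟩

theorem vdPow_anti {M : Type*} [AddCommGroup M] (N : AddSubgroup M) (k t : ℕ) :
    vdPow N (k + t) ≤ vdPow N k := by
  induction t with
  | zero => exact le_refl _
  | succ t ih => exact (vdPow_succ_le N (k + t)).trans ih

theorem vdPow_ne_zero {M : Type*} [AddCommGroup M] (N : AddSubgroup M) {m : ℕ}
    (h0 : (vdPow N m).index ≠ 0) {k : ℕ} (hk : k ≤ m) : (vdPow N k).index ≠ 0 := by
  intro h1
  obtain ⟨t, rfl⟩ := Nat.exists_eq_add_of_le hk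
  have h2 := AddSubgroup.index_dvd_of_le (vdPow_anti N k t)
  rw [h1] at h2
  exact h0 (Nat.eq_zero_of_zero_dvd h2)

/-- If `N + 2 ^ m M` has less than `2 ^ m` cosets, then the sequence of the groups `N + 2 ^ k M` is
stationary. -/
theorem vdPow_stationary {M : Type*} [AddCommGroup M] (N : AddSubgroup M) (m : ℕ)
    (h0 : (vdPow N m).index ≠ 0) (h1 : (vdPow N m).index < 2 ^ m) :
    ∃ k, ∀ t, vdPow N k ≤ vdPow N (k + t) := by
  have h2 : ∃ k < m, vdPow N k ≤ vdPow N (k + 1) := by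
    by_contra hcon
    push Not at hcon
    have h3 : ∀ k ≤ m, 2 ^ k ≤ (vdPow N k).index := by
      intro k
      induction k with
      | zero =>
        intro _
        rw [pow_zero]
        have h5 := vdPow_ne_zero N h0 (Nat.zero_le m)
        omega
      | succ k ih =>
        intro hk
        have h4 := ih (by omega)
        have h5 := hcon k (by omega)
        have h6 := vdPow_succ_le N k
        have h7 := AddSubgroup.relIndex_mul_index h6
        have h8 : (vdPow N (k + 1)).relIndex (vdPow N k) ≠ 1 := by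
          rw [Ne, AddSubgroup.relIndex_eq_one]
          exact h5
        have h9 : (vdPow N (k + 1)).relIndex (vdPow N k) ≠ 0 := by
          intro h10
          rw [h10, zero_mul] at h7
          exact vdPow_ne_zero N h0 hk h7.symm
        have h10 : 2 ≤ (vdPow N (k + 1)).relIndex (vdPow N k) := by omega
        rw [← h7, pow_succ, mul_comm]
        exact Nat.mul_le_mul h10 h4
    exact absurd (h3 m le_rfl) (by omega)
  obtain ⟨k, -, hk⟩ := h2
  refine ⟨k, fun t => ?_⟩
  induction t with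
  | zero => exact le_refl _
  | succ t ih =>
    intro x hx
    obtain ⟨y, hy, z, rfl⟩ := (mem_vdPow N (k + t) x).1 (ih hx)
    have h3 : (2 ^ k : ℕ) • z ∈ vdPow N (k + 1) :=
      hk ((mem_vdPow N k _).2 ⟨0, zero_mem _, z, by rw [zero_add]⟩)
    obtain ⟨y', hy', z', h4⟩ := (mem_vdPow N (k + 1) _).1 h3
    refine (mem_vdPow N (k + (t + 1)) _).2 ⟨y + (2 ^ t : ℕ) • y', add_mem hy
      (N.nsmul_mem hy' _), z', ?_⟩
    rw [add_comm k t, pow_add, mul_smul, h4, smul_add, ← mul_smul, ← pow_add, add_assoc]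
    congr 4
    omega

end group

section rank

variable {K : Type u} [Field K] [NumberField K]

/-- Equality of ranks, if `A(L)` is the union of less than `2 ^ m` cosets of `A(K) + 2 ^ m A(L)`. -/
theorem vd_rank_quot (L : IntermediateField K (AlgebraicClosure K)) [FiniteDimensional K L]
    (A : Over (Spec (.of K))) [GrpObj A] [IsAbVar A] (m b : ℕ) (hbm : b < m) (h : A ⟶ A)
    (hh : ∀ x, onPts h x = (2 ^ m : ℕ) • x) (hq : QuotBound L h b) :
    (∀ x : Pts A L, ∃ N : ℕ, 0 < N ∧ N • x ∈ (ptsa_j A (bot_le : ⊥ ≤ L)).range) ∧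
      Module.rank ℤ (Pts A (⊥ : IntermediateField K (AlgebraicClosure K))) =
        Module.rank ℤ (Pts A L) ∧ rk A L = rk A ⊥ := by
  classical
  set j := ptsa_j A (bot_le : ⊥ ≤ L) with hj
  obtain ⟨T, hT, hT1, hT2⟩ := hq
  have key : ∀ x : Pts A L, ∃ t ∈ T, ∃ y z, toBar A L x = t + toBar A L (j y + (2 ^ m : ℕ) • z) := by
    intro x
    obtain ⟨t, ht, y0, z, hy0, hz, he⟩ := hT2 (toBar A L x) (fun s hs' => sp_bar_fix A L s hs' x)
    obtain ⟨y1, rfl⟩ := sp_bar_of_fixed A ⊥ y0 (fun s _ => hy0 s)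
    obtain ⟨z1, rfl⟩ := sp_bar_of_fixed A L z hz
    refine ⟨t, ht, y1, z1, ?_⟩
    rw [he, hh, map_add, hj, sp_bar_j, map_nsmul]
  choose τ hτ y z hyz using key
  have hinj := sp_bar_inj A L
  have h1 : ∀ x x', τ x = τ x' → x - x' ∈ vdPow j.range m := by
    intro x x' hxx
    rw [mem_vdPow]
    refine ⟨j (y x - y x'), ⟨_, rfl⟩, z x - z x', ?_⟩
    apply hinj
    rw [map_sub, hyz x, hyz x', hxx, map_sub j, smul_sub]
    rw [show j (y x) - j (y x') + ((2 ^ m : ℕ) • z x - (2 ^ m : ℕ) • z x') =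
      (j (y x) + (2 ^ m : ℕ) • z x) - (j (y x') + (2 ^ m : ℕ) • z x') by abel, map_sub]
    abel
  let F : T → Pts A L ⧸ vdPow j.range m := fun t =>
    if ht : ∃ x, τ x = t then QuotientAddGroup.mk ht.choose else 0
  have hF : Function.Surjective F := by
    intro q
    obtain ⟨x, rfl⟩ := QuotientAddGroup.mk_surjective q
    refine ⟨⟨τ x, hτ x⟩, ?_⟩
    have ht : ∃ x', τ x' = ((⟨τ x, hτ x⟩ : T) : Pts A (AlgebraicClosure K)) := ⟨x, rfl⟩
    have e : F ⟨τ x, hτ x⟩ = QuotientAddGroup.mk ht.choose := dif_pos ht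
    rw [e, QuotientAddGroup.eq]
    have h2 := h1 x ht.choose ht.choose_spec.symm
    rwa [sub_eq_neg_add] at h2
  have hfin : Finite (Pts A L ⧸ vdPow j.range m) := Finite.of_surjective F hF
  have hcard : (vdPow j.range m).index ≤ 2 ^ b := by
    have h2 := Nat.card_le_card_of_surjective F hF
    have h3 : Nat.card T = T.card := by rw [Nat.card_eq_fintype_card, Fintype.card_coe]
    exact (h2.trans_eq h3).trans hT
  have h0 : (vdPow j.range m).index ≠ 0 := by
    show Nat.card (Pts A L ⧸ vdPow j.range m) ≠ 0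
    exact Nat.card_pos.ne'
  obtain ⟨k, hk⟩ := vdPow_stationary j.range m h0
    (hcard.trans_lt (Nat.pow_lt_pow_right (by norm_num) hbm))
  have h2 : ∀ x : Pts A L, ∃ N : ℕ, 0 < N ∧ N • x ∈ j.range := by
    intro x
    obtain ⟨N, hN, w, hw⟩ := vd_multiple L A ((2 ^ k : ℕ) • x) (by
      intro t
      have h3 : (2 ^ k : ℕ) • x ∈ vdPow j.range (k + t) :=
        hk t ((mem_vdPow _ k _).2 ⟨0, zero_mem _, x, by rw [zero_add]⟩)
      obtain ⟨_, ⟨a, rfl⟩, c, h4⟩ := (mem_vdPow _ _ _).1 h3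
      refine ⟨a, (2 ^ k : ℕ) • c, ?_⟩
      rw [h4, ← mul_smul, ← pow_add, add_comm t k])
    refine ⟨N * Module.finrank K L * 2 ^ k, ?_, w, ?_⟩
    · have := hN.pos
      have := Module.finrank_pos (R := K) (M := L)
      positivity
    · rw [mul_smul]
      exact hw
  let R : Submodule ℤ (Pts A L) := LinearMap.range j.toIntLinearMap
  have hinj' : Function.Injective j.toIntLinearMap := sp_j_inj A _
  have h3 : Module.rank ℤ (Pts A L ⧸ R) = 0 := by
    rw [rank_eq_zero_iff]
    intro q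
    obtain ⟨x, rfl⟩ := Submodule.Quotient.mk_surjective R q
    obtain ⟨N, hN, w, hw⟩ := h2 x
    refine ⟨N, by exact_mod_cast hN.ne', ?_⟩
    rw [← Submodule.Quotient.mk_smul, natCast_zsmul]
    exact (Submodule.Quotient.mk_eq_zero R).2 ⟨w, hw⟩
  have h4 : Module.rank ℤ (Pts A (⊥ : IntermediateField K (AlgebraicClosure K))) =
      Module.rank ℤ (Pts A L) := by
    have h5 := rank_quotient_add_rank_of_isDomain R
    rw [h3, zero_add] at h5
    rw [← h5]
    exact (LinearEquiv.ofInjective j.toIntLinearMap hinj').rank_eq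
  refine ⟨h2, h4, ?_⟩
  unfold rk Module.finrank
  rw [h4]

end rank

end Pool.Agent.H.MP_ac3185_nt
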