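import Pool.Agent.H.MP_ac3185_nt.V.DivE

/-! Sums of points which are close to the origin. -/

set_option autoImplicit false

open CategoryTheory AlgebraicGeometry NumberField
open scoped MonObj

namespace Pool.Agent.H.MP_ac3185_nt

universe u

variable {K : Type u} [Field K]

section double

variable {A : Over (Spec (.of K))} [GrpObj A] {B E O : Type u} [CommRing B] [Algebra K B]
  [Field E] [Algebra K E] [CommRing O] [Algebra K O] (st : O →ₐ[K] E)
  (cst : E →ₐ[K] O) (J J2 : Ideal O) (hJJ : ∀ a ∈ J, ∀ b ∈ J, a * b ∈ J2)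
  (hJ : ∀ a ∈ J, st a = 0)

include hJJ hJ in
/-- The sum of two points which are zero modulo `J` is computed modulo `J2` by the sums of the
coordinates. -/
theorem vp_sum (hsc : ∀ e, st (cst e) = e) (hu : ∀ a, st a ≠ 0 → IsUnit a)
    (hJ2 : ∀ a ∈ J2, st a = 0) (j : spR K B ⟶ A) [IsOpenImmersion j.left] (ε : B →ₐ[K] K)
    (hε : (1 : spR K K ⟶ A) = spMap ε ≫ j) (φ ψ θ : B →ₐ[K] O)
    (hφ : ∀ b, φ b - algebraMap K O (ε b) ∈ J) (hψ : ∀ b, ψ b - algebraMap K O (ε b) ∈ J)
    (hθ : (spMap φ ≫ j) * (spMap ψ ≫ j) = spMap θ ≫ j) (b : B) :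
    θ b - (φ b + ψ b - algebraMap K O (ε b)) ∈ J2 := by
  let c : B →ₐ[K] O := (Algebra.ofId K O).comp ε
  have hc : ∀ b, c b = algebraMap K O (ε b) := fun b => rfl
  have hcst : ∀ b, cst (algebraMap K E (ε b)) = c b := fun b => cst.commutes _
  have hone : ∀ (S : Type u) [CommRing S] [Algebra K S],
      (1 : spR K S ⟶ A) = spMap ((Algebra.ofId K S).comp ε) ≫ j := by
    intro S _ _
    rw [spMap_comp, Category.assoc, ← hε, MonObj.comp_one]
  let T := vdT cst J J2 hJJ
  let t1 : B →ₐ[K] T := (φ.prod (c.prod φ)).codRestrict T fun b => by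
    refine ⟨algebraMap K E (ε b), ?_, ?_, ?_⟩
    · show φ b - cst (algebraMap K E (ε b)) ∈ J
      rw [hcst]
      exact hφ b
    · show c b - cst (algebraMap K E (ε b)) ∈ J
      rw [hcst, sub_self]
      exact J.zero_mem
    · show φ b - (φ b + c b - cst (algebraMap K E (ε b))) ∈ J2
      rw [hcst, add_sub_cancel_right, sub_self]
      exact J2.zero_mem
  let t2 : B →ₐ[K] T := (c.prod (ψ.prod ψ)).codRestrict T fun b => by
    refine ⟨algebraMap K E (ε b), ?_, ?_, ?_⟩
    · show c b - cst (algebraMap K E (ε b)) ∈ J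
      rw [hcst, sub_self]
      exact J.zero_mem
    · show ψ b - cst (algebraMap K E (ε b)) ∈ J
      rw [hcst]
      exact hψ b
    · show ψ b - (c b + ψ b - cst (algebraMap K E (ε b))) ∈ J2
      rw [hcst, add_sub_cancel_left, sub_self]
      exact J2.zero_mem
  let π1 : T →ₐ[K] O := (AlgHom.fst K O (O × O)).comp T.val
  let π2 : T →ₐ[K] O := ((AlgHom.fst K O O).comp (AlgHom.snd K O (O × O))).comp T.val
  let π3 : T →ₐ[K] O := ((AlgHom.snd K O O).comp (AlgHom.snd K O (O × O))).comp T.val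
  let P : spR K T ⟶ A := (spMap t1 ≫ j) * (spMap t2 ≫ j)
  have hP1 : spMap π1 ≫ P = spMap φ ≫ j := by
    show spMap π1 ≫ ((spMap t1 ≫ j) * (spMap t2 ≫ j)) = _
    rw [MonObj.comp_mul, ← Category.assoc, ← spMap_comp, ← Category.assoc, ← spMap_comp]
    have e1 : π1.comp t1 = φ := rfl
    have e2 : π1.comp t2 = c := rfl
    rw [e1, e2, ← hone O, mul_one]
  have hP2 : spMap π2 ≫ P = spMap ψ ≫ j := by
    show spMap π2 ≫ ((spMap t1 ≫ j) * (spMap t2 ≫ j)) = _
    rw [MonObj.comp_mul, ← Category.assoc, ← spMap_comp, ← Category.assoc, ← spMap_comp]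
    have e1 : π2.comp t1 = c := rfl
    have e2 : π2.comp t2 = ψ := rfl
    rw [e1, e2, ← hone O, one_mul]
  have hP3 : spMap π3 ≫ P = spMap θ ≫ j := by
    show spMap π3 ≫ ((spMap t1 ≫ j) * (spMap t2 ≫ j)) = _
    rw [MonObj.comp_mul, ← Category.assoc, ← spMap_comp, ← Category.assoc, ← spMap_comp]
    have e1 : π3.comp t1 = φ := rfl
    have e2 : π3.comp t2 = ψ := rfl
    rw [e1, e2, hθ]
  obtain ⟨χ, hχ⟩ := vd_point j (st.comp π1) (fun p hp => vdT_unit st cst J J2 hJJ hJ hsc hu hJ2 p hp)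
    P (st.comp φ) (by rw [spMap_comp, Category.assoc, hP1, ← Category.assoc, ← spMap_comp])
  have h1 : π1.comp χ = φ := by
    apply vd_chart_mono j
    rw [spMap_comp, Category.assoc, ← hχ, hP1]
  have h2 : π2.comp χ = ψ := by
    apply vd_chart_mono j
    rw [spMap_comp, Category.assoc, ← hχ, hP2]
  have h3 : π3.comp χ = θ := by
    apply vd_chart_mono j
    rw [spMap_comp, Category.assoc, ← hχ, hP3]
  obtain ⟨e, he1, -, he3⟩ := (χ b).2
  have e1 : (χ b).1.1 = φ b := congrArg (fun m : B →ₐ[K] O => m b) h1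
  have e2 : (χ b).1.2.1 = ψ b := congrArg (fun m : B →ₐ[K] O => m b) h2
  have e3 : (χ b).1.2.2 = θ b := congrArg (fun m : B →ₐ[K] O => m b) h3
  rw [e1] at he1
  rw [e1, e2, e3] at he3
  have e4 : st (φ b) = algebraMap K E (ε b) := by
    have := hJ _ (hφ b)
    rw [map_sub, st.commutes, sub_eq_zero] at this
    exact this
  have e5 : st (φ b) = e := by
    have := hJ _ he1
    rw [map_sub, hsc, sub_eq_zero] at this
    exact this
  have e6 : cst e = algebraMap K O (ε b) := by rw [← e5, e4, cst.commutes]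
  rw [e6] at he3
  exact he3

end double

end Pool.Agent.H.MP_ac3185_nt
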