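import Pool.Agent.H.MP_ac3185_nt.V.DivG
import Pool.Agent.H.MP_ac3185_nt.V.DivPE

/-! Multiplication by `p` is a contraction near the origin, if `p` is small. -/

set_option autoImplicit false

open CategoryTheory AlgebraicGeometry NumberField Filter
open scoped MonObj

namespace Pool.Agent.H.MP_ac3185_nt

universe u

section power

variable {K : Type u} [Field K] {A : Over (Spec (.of K))} [GrpObj A] {B E O : Type u}
  [CommRing B] [Algebra K B] [Field E] [Algebra K E] [CommRing O] [Algebra K O] (st : O →ₐ[K] E)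
  (cst : E →ₐ[K] O) (J J2 : Ideal O) (hJJ : ∀ a ∈ J, ∀ b ∈ J, a * b ∈ J2)
  (hJ : ∀ a ∈ J, st a = 0)

include hJJ hJ in
theorem vp_pow (hsc : ∀ e, st (cst e) = e) (hu : ∀ a, st a ≠ 0 → IsUnit a)
    (hJ2 : J2 ≤ J) (j : spR K B ⟶ A) [IsOpenImmersion j.left] (ε : B →ₐ[K] K)
    (hε : (1 : spR K K ⟶ A) = spMap ε ≫ j) (φ : B →ₐ[K] O)
    (hφ : ∀ b, φ b - algebraMap K O (ε b) ∈ J) (n : ℕ) :
    ∃ θ : B →ₐ[K] O, (spMap φ ≫ j) ^ n = spMap θ ≫ j ∧
      ∀ b, θ b - algebraMap K O (ε b) - n • (φ b - algebraMap K O (ε b)) ∈ J2 := by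
  induction n with
  | zero =>
    refine ⟨vdZero ε O, ?_, fun b => ?_⟩
    · rw [pow_zero]
      exact vdZero_spec j ε hε O
    · have : vdZero ε O b = algebraMap K O (ε b) := rfl
      rw [this, sub_self, zero_smul, sub_zero]
      exact J2.zero_mem
  | succ n ih =>
    obtain ⟨θ, h1, h2⟩ := ih
    have h3 : ∀ b, θ b - algebraMap K O (ε b) ∈ J := by
      intro b
      have h4 := J.add_mem (hJ2 (h2 b)) (J.nsmul_mem (hφ b) n)
      rwa [sub_add_cancel] at h4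
    have h5 : ∀ χ : B →ₐ[K] O, (∀ b, χ b - algebraMap K O (ε b) ∈ J) →
        st.comp χ = vdZero ε E := by
      intro χ hχ
      ext b
      have h6 := hJ _ (hχ b)
      rw [map_sub, st.commutes, sub_eq_zero] at h6
      exact h6
    have h6 : spMap st ≫ ((spMap θ ≫ j) * (spMap φ ≫ j)) = spMap (vdZero ε E) ≫ j := by
      rw [MonObj.comp_mul, ← Category.assoc, ← spMap_comp, ← Category.assoc, ← spMap_comp,
        h5 θ h3, h5 φ hφ, ← vdZero_spec j ε hε, mul_one]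
    obtain ⟨χ, hχ⟩ := vd_point j st hu _ _ h6
    refine ⟨χ, by rw [pow_succ, h1, hχ], fun b => ?_⟩
    have h7 := vp_sum st cst J J2 hJJ hJ hsc hu (fun a ha => hJ a (hJ2 ha)) j ε hε θ φ χ h3 hφ hχ b
    have h8 := J2.add_mem h7 (h2 b)
    have h9 : χ b - (θ b + φ b - algebraMap K O (ε b)) +
        (θ b - algebraMap K O (ε b) - n • (φ b - algebraMap K O (ε b))) =
        χ b - algebraMap K O (ε b) - (n + 1) • (φ b - algebraMap K O (ε b)) := by
      rw [add_smul, one_smul]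
      abel
    rwa [h9] at h8

end power

section contraction

variable {K : Type u} [Field K] {A : Over (Spec (.of K))} [GrpObj A] {B E : Type u} [CommRing B]
  [Algebra K B] [Field E] [Algebra K E] {v : AbsoluteValue E ℝ} (D : VdRing K E v)
  (j : spR K B ⟶ A) [IsOpenImmersion j.left] (ε : B →ₐ[K] K)
  (hε : (1 : spR K K ⟶ A) = spMap ε ≫ j) (G : Finset B) (hG : Algebra.adjoin K (G : Set B) = ⊤)
  (hG0 : ∀ g ∈ G, ε g = 0)

include D hε hG hG0 in
/-- Multiplication by `p` is a contraction near the origin, if `p` is small. -/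
theorem vp_contract (p : ℕ) (hv : v (p : E) < 1) :
    ∃ δ0 > 0, ∀ δ, 0 < δ → δ ≤ δ0 → ∀ z : spR K E ⟶ A,
      Near v j G δ z → Near v j G ((1 + v (p : E)) / 2 * δ) (z ^ p) := by
  by_contra hcon
  push Not at hcon
  have hpos : ∀ n : ℕ, (0 : ℝ) < 1 / ((n : ℝ) + 1) := fun n => by positivity
  choose δ hδ0 hδ1 z hz hnz using fun n : ℕ => hcon (1 / ((n : ℝ) + 1)) (hpos n)
  choose φ hφ1 hφ2 using hz
  have hδle : ∀ n, δ n ≤ 1 := by
    intro n
    refine (hδ1 n).trans ?_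
    rw [div_le_one (by positivity)]
    have : (0 : ℝ) ≤ n := Nat.cast_nonneg n
    linarith
  have hlim : ∀ et > 0, ∀ᶠ n in (vdU : Filter ℕ), δ n < et := by
    intro et het
    obtain ⟨N, hN⟩ := exists_nat_one_div_lt het
    have h1 : ∀ᶠ n in (vdU : Filter ℕ), N ≤ n :=
      Nat.hyperfilter_le_atTop (eventually_ge_atTop N)
    filter_upwards [h1] with n hn
    refine (hδ1 n).trans_lt (lt_of_le_of_lt ?_ hN)
    exact one_div_le_one_div_of_le (by positivity) (by exact_mod_cast Nat.succ_le_succ hn)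
  have hlim1 : ∀ et > 0, ∀ᶠ n in (vdU : Filter ℕ), |δ n| < et := fun et het =>
    (hlim et het).mono fun n hn => by rwa [abs_of_pos (hδ0 n)]
  let Φ : B →ₐ[K] (ℕ → E) := Pi.algHom K (fun _ => E) φ
  have hΦ : ∀ g ∈ G, VdLim v (Φ g) 0 := by
    intro g hg et het
    filter_upwards [hlim et het] with n hn
    rw [sub_zero]
    exact (hφ2 n g hg).trans_lt hn
  obtain ⟨φ', h1, h2⟩ := vd_bounded D ε G hG hG0 Φ hΦ
  let J := vdJ D δ
  let J2 := vdJ D (fun n => δ n * δ n)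
  have hJJ : ∀ a ∈ J, ∀ b ∈ J, a * b ∈ J2 := fun a ha b hb => vdJ_mul D ha hb
  have hJ2 : J2 ≤ J := by
    rintro a ⟨f, C, ha1, ha2⟩
    refine ⟨f, |C|, ha1, ?_⟩
    filter_upwards [ha2] with n hn
    refine hn.trans ?_
    have e1 : C * (δ n * δ n) ≤ |C| * (δ n * δ n) :=
      mul_le_mul_of_nonneg_right (le_abs_self C) (mul_pos (hδ0 n) (hδ0 n)).le
    have e2 : δ n * δ n ≤ δ n := mul_le_of_le_one_left (hδ0 n).le (hδle n)
    exact e1.trans (mul_le_mul_of_nonneg_left e2 (abs_nonneg C))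
  have hφJ : ∀ b, φ' b - algebraMap K D.O (ε b) ∈ J := by
    have e1 : (Ideal.Quotient.mkₐ K J).comp φ' = vdZero ε (D.O ⧸ J) := by
      apply vdZero_unique ε G hG hG0
      intro g hg
      show Ideal.Quotient.mk J (φ' g) = 0
      rw [Ideal.Quotient.eq_zero_iff_mem]
      refine ⟨Φ g, 1, (congrArg (fun m : B →ₐ[K] D.F => m g) h1).symm,
        Eventually.of_forall fun n => ?_⟩
      rw [one_mul]
      exact hφ2 n g hg
    intro b
    rw [← Ideal.Quotient.eq_zero_iff_mem, map_sub, sub_eq_zero]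
    exact congrArg (fun m : B →ₐ[K] (D.O ⧸ J) => m b) e1
  obtain ⟨θ, hθ, h4⟩ := vp_pow D.st D.cst J J2 hJJ (fun a ha => vdJ_st D hlim1 ha) D.st_cst
    D.isUnit hJ2 j ε hε φ' hφJ p
  have h5 : spMap D.gm ≫ ((spMap Φ ≫ j) ^ p) =
      spMap ((IsScalarTower.toAlgHom K D.O D.F).comp θ) ≫ j := by
    rw [spMap_comp, Category.assoc, ← hθ, MonObj.comp_pow, MonObj.comp_pow, ← Category.assoc,
      ← spMap_comp, ← Category.assoc, ← spMap_comp, h1]
  have hev : ∀ n, spMap (vdEv K E n) ≫ ((spMap Φ ≫ j) ^ p) = z n ^ p := by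
    intro n
    rw [MonObj.comp_pow, ← Category.assoc, ← spMap_comp]
    have e1 : (vdEv K E n).comp Φ = φ n := rfl
    rw [e1, ← hφ1]
  have h7 : ∀ g ∈ G, ∀ᶠ n in (vdU : Filter ℕ), ∃ ψ : B →ₐ[K] E,
      z n ^ p = spMap ψ ≫ j ∧ v (ψ g) ≤ (1 + v (p : E)) / 2 * δ n := by
    intro g hg
    obtain ⟨f, hf⟩ := D.rep (θ g)
    have h8 := vd_germ j vdU D.gm D.gm_zero _ _ h5 g f hf
    obtain ⟨f', C, h9, h10⟩ := h4 g
    have h11 : D.gm (f - p • Φ g - f') = 0 := by
      have e1 : D.gm (Φ g) = algebraMap D.O D.F (φ' g) :=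
        (congrArg (fun m : B →ₐ[K] D.F => m g) h1).symm
      rw [map_sub, map_sub, map_nsmul, hf, e1, h9, hG0 g hg, map_zero, sub_zero, sub_zero,
        map_sub, map_nsmul, sub_self]
    rw [D.gm_zero] at h11
    have h12 : 0 < (1 - v (p : E)) / 2 / (|C| + 1) := by
      have : 0 < 1 - v (p : E) := by linarith
      positivity
    filter_upwards [h8, h10, h11, hlim _ h12] with n e1 e2 e3 e4
    obtain ⟨ψ, hψ1, hψ2⟩ := e1
    refine ⟨ψ, by rw [← hev, hψ1], ?_⟩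
    have e5 : f n = p • φ n g + f' n := by
      have : f n - p • φ n g - f' n = 0 := e3
      linear_combination this
    rw [hψ2, e5]
    have e6 : v (p • φ n g) ≤ v (p : E) * δ n := by
      rw [nsmul_eq_mul, map_mul]
      exact mul_le_mul_of_nonneg_left (hφ2 n g hg) (v.nonneg _)
    have e7 : v (f' n) ≤ (1 - v (p : E)) / 2 * δ n := by
      refine e2.trans ?_
      have e8 : C * (δ n * δ n) ≤ (|C| + 1) * δ n * δ n := by
        have : C * (δ n * δ n) ≤ |C| * (δ n * δ n) :=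
          mul_le_mul_of_nonneg_right (le_abs_self C) (mul_pos (hδ0 n) (hδ0 n)).le
        nlinarith [mul_pos (hδ0 n) (hδ0 n)]
      refine e8.trans (mul_le_mul_of_nonneg_right ?_ (hδ0 n).le)
      have e9 : (|C| + 1) * δ n ≤ (|C| + 1) * ((1 - v (p : E)) / 2 / (|C| + 1)) :=
        mul_le_mul_of_nonneg_left e4.le (by positivity)
      rwa [mul_div_cancel₀ _ (by positivity : (|C| + 1) ≠ 0)] at e9
    refine (v.add_le _ _).trans ((add_le_add e6 e7).trans ?_)
    linarith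
  obtain ⟨f1, hf1⟩ := D.rep (θ 1)
  have h8 := vd_germ j vdU D.gm D.gm_zero _ _ h5 1 f1 hf1
  have h9 : ∀ᶠ n in (vdU : Filter ℕ), ∀ g ∈ G, ∃ ψ : B →ₐ[K] E,
      z n ^ p = spMap ψ ≫ j ∧ v (ψ g) ≤ (1 + v (p : E)) / 2 * δ n :=
    (eventually_all_finset G).2 h7
  obtain ⟨n, ⟨ψ, hψ, -⟩, e3⟩ := (h8.and h9).exists
  rw [hev] at hψ
  refine hnz n ⟨ψ, hψ, fun g hg => ?_⟩
  obtain ⟨ψ', hψ', h10⟩ := e3 g hg
  have h11 : ψ = ψ' := vd_chart_mono j (hψ.symm.trans hψ')
  rw [h11]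
  exact h10

end contraction

end Pool.Agent.H.MP_ac3185_nt
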