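import Pool.Agent.H.MP_ac3185_nt.V.DivC

/-! Embeddings of number fields in finite extensions of the field of `p`-adic numbers. -/

set_option autoImplicit false

open Filter

namespace Pool.Agent.H.MP_ac3185_nt

universe u

/-- A number field embeds in a field with an absolute value such that `p` is small and bounded
sequences have limits along the ultrafilter (a finite extension of `ℚ_p`). -/
theorem exists_padicField (p : ℕ) [Fact p.Prime] (M : Type u) [Field M] [NumberField M] :
    ∃ (E : Type u) (_ : Field E) (_ : M →+* E) (v : AbsoluteValue E ℝ), v (p : E) < 1 ∧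
      ∀ (f : ℕ → E) (C : ℝ), (∀ n, v (f n) ≤ C) → ∃ l, VdLim v f l := by
  let Ω := PadicAlgCl p
  let τ : M →+* Ω := (IsAlgClosed.lift (R := ℚ) (S := M) (M := Ω) : M →ₐ[ℚ] Ω).toRingHom
  obtain ⟨α, hα⟩ := Field.exists_primitive_element ℚ M
  let E0 : IntermediateField ℚ_[p] Ω := IntermediateField.adjoin ℚ_[p] {τ α}
  have hfd : FiniteDimensional ℚ_[p] E0 :=
    IntermediateField.adjoin.finiteDimensional (Algebra.IsIntegral.isIntegral (τ α))
  have hmem : ∀ m, τ m ∈ E0 := by
    let S : IntermediateField ℚ M :=
      { E0.toSubfield.comap τ with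
        algebraMap_mem' := fun q => by
          show τ (algebraMap ℚ M q) ∈ E0
          rw [eq_ratCast, map_ratCast]
          exact SubfieldClass.ratCast_mem E0 q }
    have h1 : (⊤ : IntermediateField ℚ M) ≤ S := by
      rw [← hα, IntermediateField.adjoin_simple_le_iff]
      exact IntermediateField.mem_adjoin_simple_self ℚ_[p] (τ α)
    intro m
    exact h1 (IntermediateField.mem_top (x := m))
  let E := ULift.{u} E0
  let σ : M →+* E := (ULift.ringEquiv (R := E0)).symm.toRingHom.comp (τ.codRestrict E0 hmem)
  let v : AbsoluteValue E ℝ :=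
    { toFun := fun x => ‖((x.down : E0) : Ω)‖
      map_mul' := fun x y => norm_mul ((x.down : E0) : Ω) ((y.down : E0) : Ω)
      nonneg' := fun x => norm_nonneg ((x.down : E0) : Ω)
      eq_zero' := fun x => by
        show ‖((x.down : E0) : Ω)‖ = 0 ↔ x = 0
        rw [norm_eq_zero]
        constructor
        · intro h
          exact ULift.ext _ _ (Subtype.ext h)
        · rintro rfl
          rfl
      add_le' := fun x y => norm_add_le ((x.down : E0) : Ω) ((y.down : E0) : Ω) }
  refine ⟨E, inferInstance, σ, v, ?_, ?_⟩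
  · show ‖(((p : E).down : E0) : Ω)‖ < 1
    have h1 : (((p : E).down : E0) : Ω) = ((p : ℚ_[p]) : Ω) := by
      rw [ULift.down_natCast]
      exact (map_natCast (algebraMap ℚ_[p] Ω) p).symm
    rw [h1, PadicAlgCl.norm_extends]
    exact Padic.norm_p_lt_one (p := p)
  · intro f C hf
    let W : Submodule ℚ_[p] Ω := Subalgebra.toSubmodule E0.toSubalgebra
    have hW : FiniteDimensional ℚ_[p] W := hfd
    have hproper : ProperSpace W := FiniteDimensional.proper ℚ_[p] W
    let g : ℕ → W := fun n => ⟨((f n).down : E0), (f n).down.2⟩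
    have hg : ∀ n, g n ∈ Metric.closedBall (0 : W) C := by
      intro n
      rw [mem_closedBall_zero_iff]
      exact hf n
    obtain ⟨l, -, hl⟩ := (isCompact_closedBall (0 : W) C).ultrafilter_le_nhds
      (vdU.map g) (by
        rw [le_principal_iff]
        exact (Eventually.of_forall hg : ∀ᶠ n in (vdU : Filter ℕ), g n ∈ Metric.closedBall 0 C))
    refine ⟨ULift.up ⟨(l : Ω), l.2⟩, fun ε hε => ?_⟩
    have h1 : ∀ᶠ n in (vdU : Filter ℕ), g n ∈ Metric.ball l ε :=
      hl (Metric.ball_mem_nhds l hε)
    filter_upwards [h1] with n hn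
    rw [Metric.mem_ball, dist_eq_norm] at hn
    exact hn

end Pool.Agent.H.MP_ac3185_nt
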