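import Pool.Agent.H.MP_ac3185_nt.V.DivPH
import Pool.Agent.H.MP_ac3185_nt.V.DivPI
import Pool.Agent.H.MP_ac3185_nt.V.DivJ

/-! Points over number fields which are divisible by all powers of a prime number `p`. -/

set_option autoImplicit false

open CategoryTheory AlgebraicGeometry NumberField
open scoped MonObj

namespace Pool.Agent.H.MP_ac3185_nt

universe u

section torsion

variable {K : Type u} [Field K] [NumberField K]

/-- A point of an abelian variety over a number field which is divisible by all powers of the prime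
number `p` is a torsion point of order prime to `p`. -/
theorem vp_torsion (p : ℕ) [hp : Fact p.Prime] (L : IntermediateField K (AlgebraicClosure K))
    [FiniteDimensional K L] (A : Over (Spec (.of K))) [GrpObj A] [IsAbVar A] (x : Pts A L)
    (hx : ∀ k : ℕ, ∃ y : Pts A L, x = (p ^ k : ℕ) • y) : ∃ N : ℕ, N.Coprime p ∧ N • x = 0 := by
  have hL : NumberField L := NumberField.of_module_finite K L
  obtain ⟨E, _, σ, v, hv, hc⟩ := exists_padicField p L
  let _ : Algebra K E := (σ.comp (algebraMap K L)).toAlgebra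
  let σ' : L →ₐ[K] E := { σ with commutes' := fun _ => rfl }
  have hepi : Epi (Spec.map (CommRingCat.ofHom σ)) := ptsa_epi σ
  let X : spR K L ⟶ A := (Additive.toMul x : specOver K L ⟶ A)
  obtain ⟨N, hN, h1⟩ := vp_divisible A v hc p hp.out.pos hv (spMap σ' ≫ X) (by
    intro k
    obtain ⟨y, hy⟩ := hx k
    let Y : spR K L ⟶ A := (Additive.toMul y : specOver K L ⟶ A)
    refine ⟨spMap σ' ≫ Y, ?_⟩
    have h0 : X = Y ^ (p ^ k) := by
      show (Additive.toMul x : specOver K L ⟶ A) = (Additive.toMul y : specOver K L ⟶ A) ^ (p ^ k)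
      rw [hy]
      rfl
    rw [← MonObj.comp_pow, h0])
  refine ⟨N, hN, ?_⟩
  have h2 : spMap σ' ≫ (X ^ N) = spMap σ' ≫ (1 : spR K L ⟶ A) := by
    rw [MonObj.comp_pow, h1, MonObj.comp_one]
  have h3 : Spec.map (CommRingCat.ofHom σ) ≫ (X ^ N).left =
      Spec.map (CommRingCat.ofHom σ) ≫ (1 : spR K L ⟶ A).left :=
    congrArg (fun m : spR K E ⟶ A => m.left) h2
  have h4 : X ^ N = (1 : spR K L ⟶ A) := Over.OverMorphism.ext ((cancel_epi _).1 h3)
  exact congrArg Additive.ofMul h4

end torsion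

section rank

theorem vp_rank_eq {M : Type*} [AddCommGroup M] (N : Submodule ℤ M)
    (h : ∀ x : M, ∃ n : ℕ, n ≠ 0 ∧ n • x ∈ N) : Module.rank ℤ N = Module.rank ℤ M := by
  have h0 : Module.rank ℤ (M ⧸ N) = 0 := by
    rw [rank_eq_zero_iff]
    intro q
    obtain ⟨x, rfl⟩ := Submodule.Quotient.mk_surjective N q
    obtain ⟨n, hn, h1⟩ := h x
    refine ⟨n, by exact_mod_cast hn, ?_⟩
    rw [← Submodule.Quotient.mk_smul, natCast_zsmul]
    exact (Submodule.Quotient.mk_eq_zero N).2 h1
  have := rank_quotient_add_rank_of_isDomain N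
  rw [h0, zero_add] at this
  exact this

variable {K : Type u} [Field K] [NumberField K]

/-- If `x` lies in `A(K) + p ^ k A(L)` for all `k`, then `x` has a multiple in `A(K)`. -/
theorem vp_multiple (p : ℕ) [hp : Fact p.Prime] (L : IntermediateField K (AlgebraicClosure K))
    [FiniteDimensional K L] (A : Over (Spec (.of K))) [GrpObj A] [IsAbVar A] (x : Pts A L)
    (hs : ∀ k : ℕ, ∃ y z, x = ptsa_j A (bot_le : ⊥ ≤ L) y + (p ^ k : ℕ) • z) :
    ∃ N : ℕ, N.Coprime p ∧ ∃ y, ptsa_j A (bot_le : ⊥ ≤ L) y = (N * Module.finrank K L) • x := by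
  let _ := vn_finiteIndex L
  let _ := L.fixingSubgroup.fintypeQuotientOfFiniteIndex
  let Q := (AlgebraicClosure K ≃ₐ[K] AlgebraicClosure K) ⧸ L.fixingSubgroup
  set n := Module.finrank K L with hn
  have hcard : Fintype.card Q = n := vn_card L
  have htr : ∀ x : Pts A L, ∃ y : Pts A (⊥ : IntermediateField K (AlgebraicClosure K)),
      toBar A L (ptsa_j A (bot_le : ⊥ ≤ L) y) = ∑ q : Q, galHom A q.out (toBar A L x) := by
    intro x
    obtain ⟨y, hy⟩ := sp_bar_of_fixed A ⊥ (∑ q : Q, galHom A q.out (toBar A L x)) (fun g _ =>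
      vd_trace L.fixingSubgroup (fun s => galHom A s) (fun s s' => ptsb_galHom_mul A s s')
        (toBar A L x) (fun s hs' => sp_bar_fix A L s hs' x) g)
    exact ⟨y, by rw [sp_bar_j, hy]⟩
  choose T hT using htr
  let j := ptsa_j A (bot_le : ⊥ ≤ L)
  have hinj := sp_bar_inj A L
  have hj : ∀ y, T (j y) = n • y := by
    intro y
    apply sp_j_inj A (bot_le : ⊥ ≤ L)
    apply hinj
    rw [hT]
    have h1 : ∀ q : Q, galHom A q.out (toBar A L (j y)) = toBar A L (j y) := by
      intro q
      have h2 : toBar A L (j y) = toBar A ⊥ y := sp_bar_j A _ y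
      rw [h2]
      refine sp_bar_fix A ⊥ _ ?_ y
      rw [IntermediateField.fixingSubgroup_bot]
      trivial
    rw [Finset.sum_congr rfl fun q _ => h1 q, Finset.sum_const, Finset.card_univ, hcard, map_nsmul,
      map_nsmul]
  have hTadd : ∀ x z, T (x + z) = T x + T z := by
    intro x z
    apply sp_j_inj A (bot_le : ⊥ ≤ L)
    apply hinj
    rw [hT, map_add (ptsa_j A _), map_add (toBar A L) (ptsa_j A _ (T x)), hT, hT,
      ← Finset.sum_add_distrib]
    exact Finset.sum_congr rfl fun q _ => by rw [map_add, map_add]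
  let T' : Pts A L →+ Pts A (⊥ : IntermediateField K (AlgebraicClosure K)) :=
    AddMonoidHom.mk' T hTadd
  let Dn : Pts A L →+ Pts A L := n • AddMonoidHom.id _ - j.comp T'
  have hD : ∀ x, Dn x = n • x - j (T x) := fun x => rfl
  have hDj : ∀ y, Dn (j y) = 0 := by
    intro y
    rw [hD, hj, map_nsmul, sub_self]
  obtain ⟨N, hN, h1⟩ := vp_torsion p L A (Dn x) (by
    intro k
    obtain ⟨y, z, h2⟩ := hs k
    refine ⟨Dn z, ?_⟩
    rw [h2, map_add, hDj, zero_add, map_nsmul])
  refine ⟨N, hN, N • T x, ?_⟩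
  rw [hD, smul_sub, sub_eq_zero] at h1
  rw [map_nsmul, mul_smul]
  exact h1.symm

/-- If `A(L) = A(K) + p ^ m A(L)`, `m > 0`, then every point of `A(L)` has a multiple in `A(K)`, by an
integer prime to `p` if `[L : K]` is prime to `p`, and the ranks of `A(L)` and `A(K)` are equal. -/
theorem vp_rank (p : ℕ) [hp : Fact p.Prime] (L : IntermediateField K (AlgebraicClosure K))
    [FiniteDimensional K L] (A : Over (Spec (.of K))) [GrpObj A] [IsAbVar A] (m : ℕ) (hm : 0 < m)
    (key : ∀ x : Pts A L, ∃ y z, x = ptsa_j A (bot_le : ⊥ ≤ L) y + (p ^ m : ℕ) • z) :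
    (∀ x : Pts A L, ∃ N : ℕ, N.Coprime p ∧
      (N * Module.finrank K L) • x ∈ (ptsa_j A (bot_le : ⊥ ≤ L)).range) ∧
      Module.rank ℤ (Pts A (⊥ : IntermediateField K (AlgebraicClosure K))) =
        Module.rank ℤ (Pts A L) ∧
      rk A L = rk A ⊥ := by
  set j := ptsa_j A (bot_le : ⊥ ≤ L) with hj
  have key2 : ∀ (k : ℕ) (x : Pts A L), ∃ y z, x = j y + ((p ^ m) ^ k : ℕ) • z := by
    intro k
    induction k with
    | zero => exact fun x => ⟨0, x, by rw [map_zero, pow_zero, one_smul, zero_add]⟩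
    | succ k ih =>
      intro x
      obtain ⟨y, z, h1⟩ := ih x
      obtain ⟨y', z', h2⟩ := key z
      refine ⟨y + ((p ^ m) ^ k : ℕ) • y', z', ?_⟩
      rw [h1, h2, smul_add, map_add, map_nsmul, pow_succ, mul_smul, add_assoc]
  have key3 : ∀ (k : ℕ) (x : Pts A L), ∃ y z, x = j y + (p ^ k : ℕ) • z := by
    intro k x
    obtain ⟨y, z, h1⟩ := key2 k x
    refine ⟨y, (p ^ (m * k - k) : ℕ) • z, ?_⟩
    rw [h1, ← mul_smul, ← pow_mul, ← pow_add]
    congr 3
    have : k ≤ m * k := Nat.le_mul_of_pos_left k hm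
    omega
  have h1 : ∀ x : Pts A L, ∃ N : ℕ, N.Coprime p ∧ (N * Module.finrank K L) • x ∈ j.range := by
    intro x
    obtain ⟨N, hN, y, hy⟩ := vp_multiple p L A x (fun k => key3 k x)
    exact ⟨N, hN, y, hy⟩
  let R : Submodule ℤ (Pts A L) := LinearMap.range j.toIntLinearMap
  have hinj : Function.Injective j.toIntLinearMap := sp_j_inj A _
  have h4 : Module.rank ℤ (Pts A (⊥ : IntermediateField K (AlgebraicClosure K))) =
      Module.rank ℤ (Pts A L) := by
    rw [← vp_rank_eq R (fun x => by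
      obtain ⟨N, hN, y, hy⟩ := h1 x
      refine ⟨N * Module.finrank K L, ?_, y, hy⟩
      have h5 : N ≠ 0 := by
        rintro rfl
        rw [Nat.coprime_zero_left] at hN
        exact hp.out.one_lt.ne' hN
      exact mul_ne_zero h5 Module.finrank_pos.ne')]
    exact (LinearEquiv.ofInjective j.toIntLinearMap hinj).rank_eq
  refine ⟨h1, h4, ?_⟩
  unfold rk Module.finrank
  rw [h4]

end rank

end Pool.Agent.H.MP_ac3185_nt
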