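import Pool.Agent.H.MP_ac3185_nt.V.Defs

/-! Points over the algebraic closure are defined over finite extensions. -/

set_option autoImplicit false

open CategoryTheory AlgebraicGeometry NumberField IsDedekindDomain
open scoped MonObj

namespace Pool.Agent.H.MP_ac3185_nt

universe u

variable {K : Type u} [Field K]

/-- Ring version: a homomorphism from a ring of finite type over `K` to the algebraic closure has
values in a finite extension. -/
theorem vf_ring {R : Type u} [CommRing R] (a : K →+* R) (ha : a.FiniteType)
    (p : R →+* AlgebraicClosure K) (hp : p.comp a = algebraMap K (AlgebraicClosure K)) :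
    ∃ E : IntermediateField K (AlgebraicClosure K), FiniteDimensional K E ∧
      ∀ s ∈ E.fixingSubgroup, (s : AlgebraicClosure K →+* AlgebraicClosure K).comp p = p := by
  letI : Algebra K R := a.toAlgebra
  have hft : Algebra.FiniteType K R := ha
  obtain ⟨S, hS⟩ := hft.out
  let q : R →ₐ[K] AlgebraicClosure K :=
    { p with
      commutes' := fun k => RingHom.congr_fun hp k }
  refine ⟨IntermediateField.adjoin K ((q : R → AlgebraicClosure K) '' (S : Set R)), ?_, ?_⟩
  · haveI : Finite ((q : R → AlgebraicClosure K) '' (S : Set R)) :=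
      Set.Finite.to_subtype ((Finset.finite_toSet S).image _)
    exact IntermediateField.finiteDimensional_adjoin fun x _ =>
      Algebra.IsIntegral.isIntegral x
  · intro s hs
    rw [IntermediateField.mem_fixingSubgroup_iff] at hs
    have h1 : (s : AlgebraicClosure K →ₐ[K] AlgebraicClosure K).comp q = q := by
      apply AlgHom.ext_of_adjoin_eq_top hS
      intro x hx
      show s (q x) = q x
      apply hs
      exact IntermediateField.subset_adjoin _ _ ⟨x, hx, rfl⟩
    ext x
    exact AlgHom.congr_fun h1 x

/-- Every point of `B(Kbar)` is fixed by the automorphisms over a finite extension of `K`. -/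
theorem vf_finite (B : Over (Spec (.of K))) [GrpObj B] [IsAbVar B]
    (b : Pts B (AlgebraicClosure K)) :
    ∃ E : IntermediateField K (AlgebraicClosure K), FiniteDimensional K E ∧
      ∀ s ∈ E.fixingSubgroup, galHom B s b = b := by
  have hprop : IsProper B.hom := IsAbVar.proper
  let x : Spec (.of (AlgebraicClosure K)) ⟶ B.left :=
    (Additive.toMul b : specOver K (AlgebraicClosure K) ⟶ B).left
  have hx : x ≫ B.hom = Spec.map (CommRingCat.ofHom (algebraMap K (AlgebraicClosure K))) :=
    Over.w (Additive.toMul b : specOver K (AlgebraicClosure K) ⟶ B)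
  let pt : Spec (.of (AlgebraicClosure K)) := (⊥ : PrimeSpectrum (AlgebraicClosure K))
  obtain ⟨R, f, hf, y, hy⟩ := Scheme.exists_Spec_apply_eq (x.base pt)
  have hrange : Set.range x ⊆ Set.range f := by
    rintro _ ⟨z, rfl⟩
    have hz : z = pt := Subsingleton.elim (α := PrimeSpectrum (AlgebraicClosure K)) z pt
    rw [hz]
    exact ⟨y, hy⟩
  let w : Spec (.of (AlgebraicClosure K)) ⟶ Spec R := IsOpenImmersion.lift f x hrange
  have hw : w ≫ f = x := IsOpenImmersion.lift_fac f x hrange
  obtain ⟨p, hp⟩ : ∃ p : R ⟶ .of (AlgebraicClosure K), Spec.map p = w := ⟨_, Spec.map_preimage w⟩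
  obtain ⟨a, ha⟩ : ∃ a : CommRingCat.of K ⟶ R, Spec.map a = f ≫ B.hom :=
    ⟨_, Spec.map_preimage (f ≫ B.hom)⟩
  have hfin : LocallyOfFiniteType (Spec.map a) := by
    rw [ha]
    infer_instance
  have hft : a.hom.FiniteType := by
    rw [HasRingHomProperty.Spec_iff (P := @LocallyOfFiniteType)] at hfin
    exact hfin
  have hcomp : p.hom.comp a.hom = algebraMap K (AlgebraicClosure K) := by
    have h1 : Spec.map (a ≫ p) =
        Spec.map (CommRingCat.ofHom (algebraMap K (AlgebraicClosure K))) := by
      rw [Spec.map_comp, hp, ha, ← Category.assoc, hw, hx]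
    have h2 := Spec.map_injective h1
    exact congrArg CommRingCat.Hom.hom h2
  obtain ⟨E, hE, hEs⟩ := vf_ring a.hom hft p.hom hcomp
  refine ⟨E, hE, fun s hs => ?_⟩
  apply Additive.toMul.injective
  apply Over.OverMorphism.ext
  show Spec.map (CommRingCat.ofHom (s : AlgebraicClosure K →+* AlgebraicClosure K)) ≫ x = x
  have h3 : p ≫ CommRingCat.ofHom (s : AlgebraicClosure K →+* AlgebraicClosure K) = p := by
    ext z
    exact RingHom.congr_fun (hEs s hs) z
  rw [← hw, ← hp, ← Category.assoc, ← Spec.map_comp, h3]

end Pool.Agent.H.MP_ac3185_nt
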