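import Pool.Agent.H.MP_ac3185_nt.V.Norm

/-! A quadratic character of `Gal(Kbar / L)` is given by a square root. -/

set_option autoImplicit false

open NumberField IsDedekindDomain

namespace Pool.Agent.H.MP_ac3185_nt

universe u

section kummer

variable {K : Type u} [Field K] [CharZero K] (L : IntermediateField K (AlgebraicClosure K))

theorem vk_kummer [FiniteDimensional K L] (E : IntermediateField K (AlgebraicClosure K))
    [FiniteDimensional K E] (N : Subgroup (AlgebraicClosure K ≃ₐ[K] AlgebraicClosure K))
    (hN : N ≤ L.fixingSubgroup) (hE : ∀ s ∈ L.fixingSubgroup, s ∈ E.fixingSubgroup → s ∈ N)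
    (h2 : ∀ s ∈ L.fixingSubgroup, ∀ t ∈ L.fixingSubgroup, s ∉ N → t ∉ N → s * t ∈ N) :
    ∃ r : AlgebraicClosure K, r ≠ 0 ∧ (∀ s ∈ N, s r = r) ∧
      ∀ s ∈ L.fixingSubgroup, s ∉ N → s r = -r := by
  by_cases hall : ∀ s ∈ L.fixingSubgroup, s ∈ N
  · exact ⟨1, one_ne_zero, fun s _ => map_one s, fun s hs hs' => absurd (hall s hs) hs'⟩
  · push Not at hall
    obtain ⟨t, ht, htN⟩ := hall
    have hopen : IsOpen (N : Set (AlgebraicClosure K ≃ₐ[K] AlgebraicClosure K)) := by
      have h1 : (L ⊔ E).fixingSubgroup ≤ N := by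
        rw [IntermediateField.fixingSubgroup_sup]
        intro s hs
        exact hE s hs.1 hs.2
      have : FiniteDimensional K (L ⊔ E : IntermediateField K (AlgebraicClosure K)) :=
        IntermediateField.finiteDimensional_sup L E
      exact Subgroup.isOpen_mono h1 (IntermediateField.fixingSubgroup_isOpen _)
    have hclosed := N.isClosed_of_isOpen hopen
    have hfix := InfiniteGalois.fixingSubgroup_fixedField
      (⟨N, hclosed⟩ : ClosedSubgroup (AlgebraicClosure K ≃ₐ[K] AlgebraicClosure K))
    obtain ⟨z, hz, hzt⟩ : ∃ z, (∀ s ∈ N, s z = z) ∧ t z ≠ z := by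
      by_contra hcon
      push Not at hcon
      apply htN
      have h3 : t ∈ (IntermediateField.fixedField N).fixingSubgroup := by
        rw [IntermediateField.mem_fixingSubgroup_iff]
        intro z hz
        rw [IntermediateField.mem_fixedField_iff] at hz
        exact hcon z hz
      have h4 : (IntermediateField.fixedField N).fixingSubgroup = N := hfix
      rwa [h4] at h3
    have hconj : ∀ s ∈ N, t⁻¹ * s * t ∈ N := by
      intro s hs
      by_contra hcon
      have h5 : t⁻¹ * s * t ∈ L.fixingSubgroup := mul_mem (mul_mem (inv_mem ht) (hN hs)) ht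
      have h6 := h2 t ht _ h5 htN hcon
      have h7 : t * (t⁻¹ * s * t) = s * t := by group
      rw [h7] at h6
      apply htN
      have h8 : s⁻¹ * (s * t) ∈ N := mul_mem (inv_mem hs) h6
      rwa [inv_mul_cancel_left] at h8
    have htt : t (t z) = z := by
      have h9 := hz _ (h2 t ht t ht htN htN)
      rwa [AlgEquiv.mul_apply] at h9
    have hst : ∀ s ∈ N, s (t z) = t z := by
      intro s hs
      have h10 := hz _ (hconj s hs)
      rw [AlgEquiv.mul_apply, AlgEquiv.mul_apply] at h10
      have h11 := congrArg t h10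
      rwa [← AlgEquiv.mul_apply, mul_inv_cancel, AlgEquiv.one_apply] at h11
    have hN' : ∀ s ∈ N, s (z - t z) = z - t z := fun s hs => by
      rw [map_sub, hz s hs, hst s hs]
    refine ⟨z - t z, sub_ne_zero.2 (Ne.symm hzt), hN', ?_⟩
    intro s hs hsN
    have h12 : s * t ∈ N := h2 s hs t ht hsN htN
    have h13 := hN' _ h12
    have h14 : t (z - t z) = -(z - t z) := by
      rw [map_sub, htt]
      ring
    rw [AlgEquiv.mul_apply, h14, map_neg] at h13
    exact neg_eq_iff_eq_neg.1 h13

end kummer

end Pool.Agent.H.MP_ac3185_nt
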