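import Pool.Agent.H.MP_ac3185_nt.V.Step

/-! One step: `C(L) = C(K) + f(B(L))`. -/

set_option autoImplicit false

open CategoryTheory AlgebraicGeometry NumberField IsDedekindDomain
open scoped MonObj

namespace Pool.Agent.H.MP_ac3185_nt

universe u

section step

variable {K : Type u} [Field K] [CharZero K] {B C : Over (Spec (.of K))}
  [GrpObj B] [IsAbVar B] [GrpObj C] [IsAbVar C] {f : B ⟶ C}

/-- Properties at the primes of the element `a * N(a)`. -/
theorem vm_unr (L : IntermediateField K (AlgebraicClosure K)) [L.fixingSubgroup.FiniteIndex]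
    (r R : AlgebraicClosure K) (hr0 : r ≠ 0)
    (hr : ∀ s ∈ L.fixingSubgroup, s r = r ∨ s r = -r)
    (T : L.fixingSubgroup.LeftTransversal) (hR : R = vnProd T r)
    (𝔓 : Ideal (𝓞 (AlgebraicClosure K)))
    (h𝔓 : ∀ s ∈ inertia K 𝔓, ∀ (x : AlgebraicClosure K ≃ₐ[K] AlgebraicClosure K) (n : ℕ),
      x⁻¹ * s ^ n * x ∈ L.fixingSubgroup → (x⁻¹ * s ^ n * x) r = r) :
    UnrAt L 𝔓 ((r * R) * (r * R)) := by
  intro s hs hsL z hz
  have h1 : s r = r := by
    have h := h𝔓 s hs 1 1 (by simpa using hsL)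
    simpa using h
  have h2 : s R = R := by
    rw [hR]
    refine vn_orbit (vsChar L r hr0 hr) r (vsChar_spec L r hr0 hr) T s ?_
    intro x n h
    exact vsChar_one L r hr0 hr _ (h𝔓 s hs x n h)
  rcases mul_self_eq_mul_self_iff.1 hz with h | h
  · rw [h, map_mul, h1, h2]
  · rw [h, map_neg, map_mul, h1, h2]

/-- From `a * N(a)` to a character of `Gal(Kbar/K)`. -/
theorem vm_extend (L : IntermediateField K (AlgebraicClosure K)) [FiniteDimensional K L]
    (hodd : Odd (Module.finrank K L)) (hf : IsMonHom f) {t : Pts B (AlgebraicClosure K)}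
    (ht0 : t ≠ 0) (ht : ∀ x, onPts f x = 0 ↔ x = 0 ∨ x = t) (b : Pts B (AlgebraicClosure K))
    (hb : ∀ s ∈ L.fixingSubgroup, act C s (onPts f b) = onPts f b)
    (r R : AlgebraicClosure K) (hr0 : r ≠ 0) (hR0 : R ≠ 0)
    (hr1 : ∀ s ∈ vsStab L b, s r = r) (hr2 : ∀ s ∈ L.fixingSubgroup, s ∉ vsStab L b → s r = -r)
    (hR : ∀ s : AlgebraicClosure K ≃ₐ[K] AlgebraicClosure K, s (R * R) = R * R)
    (hrR : r * R ∈ L) :
    ∃ y x, (∀ s, act C s y = y) ∧ (∀ s ∈ L.fixingSubgroup, act B s x = x) ∧
      onPts f b = y + onPts f x := by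
  classical
  let _ := vn_finiteIndex L
  let _ := L.fixingSubgroup.fintypeQuotientOfFiniteIndex
  have hRR : ∀ s : AlgebraicClosure K ≃ₐ[K] AlgebraicClosure K, s R = R ∨ s R = -R := by
    intro s
    have h := hR s
    rw [map_mul] at h
    exact mul_self_eq_mul_self_iff.1 h
  have hne : (-R : AlgebraicClosure K) ≠ R := fun h => hR0 (self_eq_neg.1 h.symm)
  have hrne : (-r : AlgebraicClosure K) ≠ r := fun h => hr0 (self_eq_neg.1 h.symm)
  have htt := vs_two hf ht0 ht
  set c : (AlgebraicClosure K ≃ₐ[K] AlgebraicClosure K) → Pts B (AlgebraicClosure K) :=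
    fun s => if s R = R then 0 else t with hc
  have hc1 : ∀ s, s R = R → c s = 0 := fun s h => if_pos h
  have hc2 : ∀ s, s R = -R → c s = t := fun s h => if_neg (by rw [h]; exact hne)
  obtain ⟨B₀, hB₀⟩ := vc_cores L.fixingSubgroup (by rw [vn_card]; exact hodd)
    (fun s => galHom B s) (fun s s' => ptsb_galHom_mul B s s') c (by
      intro s s'
      have h3 : galHom B s t = t := vs_fix hf ht0 ht s
      rcases hRR s with h | h <;> rcases hRR s' with h' | h'
      · rw [hc1 (s * s') (by rw [AlgEquiv.mul_apply, h', h]), hc1 s h, hc1 s' h', map_zero, add_zero]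
      · rw [hc2 (s * s') (by rw [AlgEquiv.mul_apply, h', map_neg, h]), hc1 s h, hc2 s' h', h3,
          zero_add]
      · rw [hc2 (s * s') (by rw [AlgEquiv.mul_apply, h', h]), hc2 s h, hc1 s' h', map_zero, add_zero]
      · rw [hc1 (s * s') (by rw [AlgEquiv.mul_apply, h', map_neg, h, neg_neg]), hc2 s h, hc2 s' h',
          h3, htt]) (by
      intro s
      rcases hRR s with h | h
      · rw [hc1 s h, add_zero]
      · rw [hc2 s h, htt]) b (by
      intro s hs
      have h4 : s (r * R) = r * R := vn_fix L hrR hs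
      rw [map_mul] at h4
      by_cases hsb : s ∈ vsStab L b
      · rw [hr1 s hsb] at h4
        have h5 : s R = R := mul_left_cancel₀ hr0 h4
        rw [hc1 s h5]
        exact (sub_eq_zero.2 hsb.2).symm
      · rw [hr2 s hs hsb, neg_mul, neg_eq_iff_eq_neg, ← mul_neg] at h4
        have h5 : s R = -R := mul_left_cancel₀ hr0 h4
        rw [hc2 s h5]
        have h6 : act B s b = b + t :=
          (vs_cases hf ht L b hb s hs).resolve_left fun h => hsb ⟨hs, h⟩
        show t = act B s b - b
        rw [h6]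
        abel)
  have hcf : ∀ s, onPts f (c s) = 0 := by
    intro s
    rcases hRR s with h | h
    · rw [hc1 s h]
      exact (ht 0).2 (Or.inl rfl)
    · rw [hc2 s h]
      exact (ht t).2 (Or.inr rfl)
  refine ⟨onPts f B₀, b - B₀, ?_, ?_, ?_⟩
  · intro s
    have h7 : act B s B₀ = c s + B₀ := by
      have h := hB₀ s
      rw [h]
      show act B s B₀ = galHom B s B₀ - B₀ + B₀
      rw [sub_add_cancel]
      rfl
    rw [vh_act, h7, vh_add f hf, hcf, zero_add]
  · intro s hs
    have h8 : s (r * R) = r * R := vn_fix L hrR hs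
    rw [map_mul] at h8
    have h9 : act B s b - b = c s := by
      by_cases hsb : s ∈ vsStab L b
      · rw [hr1 s hsb] at h8
        have h5 : s R = R := mul_left_cancel₀ hr0 h8
        rw [hc1 s h5]
        exact (sub_eq_zero.2 hsb.2)
      · rw [hr2 s hs hsb, neg_mul, neg_eq_iff_eq_neg, ← mul_neg] at h8
        have h5 : s R = -R := mul_left_cancel₀ hr0 h8
        rw [hc2 s h5]
        have h6 : act B s b = b + t :=
          (vs_cases hf ht L b hb s hs).resolve_left fun h => hsb ⟨hs, h⟩
        rw [h6]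
        abel
    have h10 : act B s B₀ - B₀ = c s := (hB₀ s).symm
    rw [va_sub]
    have h11 : act B s b = c s + b := by rw [← h9]; abel
    have h12 : act B s B₀ = c s + B₀ := by rw [← h10]; abel
    rw [h11, h12]
    abel
  · rw [vh_sub f hf]
    abel

end step

end Pool.Agent.H.MP_ac3185_nt
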