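import Pool.Agent.H.MP_ac3185_nt.V.Defs
import Pool.Agent.H.MP_ac3185_nt.R.FinB
import Pool.Agent.H.MP_ac3185_nt.R.FinC
import Pool.Agent.H.MP_ac3185_nt.R.FinD

/-! Local root numbers in an extension of odd degree. -/

set_option autoImplicit false

open CategoryTheory AlgebraicGeometry NumberField IsDedekindDomain
open scoped MonObj Pointwise

namespace Pool.Agent.H.MP_ac3185_nt

universe u

variable {K : Type u} [Field K] [NumberField K]

/-- A prime above a finite place is a finite prime. -/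
theorem vr_finPrime (v : HeightOneSpectrum (𝓞 K)) (𝔓 : Ideal (𝓞 (AlgebraicClosure K)))
    (h𝔓 : Above 𝔓 v) : FinPrime 𝔓 := by
  refine ⟨h𝔓.1, fun h0 => v.ne_bot ?_⟩
  rw [← h𝔓.2, h0, Ideal.comap_bot_of_injective]
  exact FaithfulSMul.algebraMap_injective (𝓞 K) (𝓞 (AlgebraicClosure K))

/-- There is one place of `L` below the conjugates of `𝔓`. -/
theorem vr_one (L : IntermediateField K (AlgebraicClosure K))
    (v : HeightOneSpectrum (𝓞 K)) (𝔓 : Ideal (𝓞 (AlgebraicClosure K)))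
    (h𝔓 : Above 𝔓 v) (h1 : OnePlace L 𝔓) (w w' : HeightOneSpectrum (𝓞 L))
    (hw : Divides L w v) (hw' : Divides L w' v) : w = w' := by
  have hp : 𝔓.IsPrime := h𝔓.1
  obtain ⟨σ, hσ⟩ := exists_translate L v 𝔓 h𝔓 w hw
  obtain ⟨τ, hτ⟩ := exists_translate L v 𝔓 h𝔓 w' hw'
  have key : ∀ ρ : AlgebraicClosure K ≃ₐ[K] AlgebraicClosure K,
      (ρ • 𝔓).comap (algebraMap (𝓞 L) (𝓞 (AlgebraicClosure K))) =
        ((1 : AlgebraicClosure K ≃ₐ[K] AlgebraicClosure K) • 𝔓).comap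
          (algebraMap (𝓞 L) (𝓞 (AlgebraicClosure K))) := by
    intro ρ
    rw [same_place_iff]
    obtain ⟨t, ht, hts⟩ := h1 ρ⁻¹
    have htP : t • 𝔓 = 𝔓 := (plc_decomp 𝔓 t).1 ht
    refine ⟨t⁻¹ * ρ⁻¹, hts, ?_⟩
    rw [smul_smul, inv_mul_cancel_right, one_smul, inv_smul_eq_iff]
    exact htP.symm
  refine HeightOneSpectrum.ext ?_
  rw [← hσ.2, ← hτ.2, key σ, key τ]

/-- The degree of the only place above `v` is the degree of `L`. -/
theorem vr_relIndex (L : IntermediateField K (AlgebraicClosure K)) [FiniteDimensional K L]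
    (𝔓 : Ideal (𝓞 (AlgebraicClosure K))) (h1 : OnePlace L 𝔓) :
    L.fixingSubgroup.relIndex (decompGrp K 𝔓) = Module.finrank K L := by
  have hG : IsGalois K (AlgebraicClosure K) := IsAlgClosure.isGalois K (AlgebraicClosure K)
  have htr : MulAction.IsPretransitive (decompGrp K 𝔓)
      ((AlgebraicClosure K ≃ₐ[K] AlgebraicClosure K) ⧸ L.fixingSubgroup) := by
    have key : ∀ x : (AlgebraicClosure K ≃ₐ[K] AlgebraicClosure K) ⧸ L.fixingSubgroup,
        ∃ d : decompGrp K 𝔓, d • ((1 : AlgebraicClosure K ≃ₐ[K] AlgebraicClosure K) :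
          (AlgebraicClosure K ≃ₐ[K] AlgebraicClosure K) ⧸ L.fixingSubgroup) = x := by
      intro x
      obtain ⟨σ, rfl⟩ := QuotientGroup.mk_surjective x
      obtain ⟨d, hd, hh⟩ := h1 σ
      refine ⟨⟨d, hd⟩, ?_⟩
      show ((d * 1 : AlgebraicClosure K ≃ₐ[K] AlgebraicClosure K) :
          (AlgebraicClosure K ≃ₐ[K] AlgebraicClosure K) ⧸ L.fixingSubgroup) = _
      rw [QuotientGroup.eq, mul_one]
      exact hh
    constructor
    intro x y
    obtain ⟨a, rfl⟩ := key x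
    obtain ⟨b, rfl⟩ := key y
    exact ⟨b * a⁻¹, by rw [mul_smul, inv_smul_smul]⟩
  have hst : MulAction.stabilizer (decompGrp K 𝔓)
      ((1 : AlgebraicClosure K ≃ₐ[K] AlgebraicClosure K) :
        (AlgebraicClosure K ≃ₐ[K] AlgebraicClosure K) ⧸ L.fixingSubgroup) =
      L.fixingSubgroup.subgroupOf (decompGrp K 𝔓) := by
    ext d
    rw [MulAction.mem_stabilizer_iff, Subgroup.mem_subgroupOf]
    have h2 : d • ((1 : AlgebraicClosure K ≃ₐ[K] AlgebraicClosure K) :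
        (AlgebraicClosure K ≃ₐ[K] AlgebraicClosure K) ⧸ L.fixingSubgroup) =
        ((d.1 * 1 : AlgebraicClosure K ≃ₐ[K] AlgebraicClosure K) :
          (AlgebraicClosure K ≃ₐ[K] AlgebraicClosure K) ⧸ L.fixingSubgroup) := rfl
    rw [h2, QuotientGroup.eq, mul_one, mul_one]
    exact inv_mem_iff
  rw [Subgroup.relIndex, ← hst, MulAction.index_stabilizer_of_transitive,
    IntermediateField.finrank_eq_fixingSubgroup_index]
  rfl

/-- A sign character which is trivial on a subgroup of odd index is trivial. -/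
theorem vr_char {C : Type*} [Group C] (ε : C →* ℤˣ) (S : Subgroup C)
    (hS : Odd S.index) (h : ∀ s ∈ S, ε s = 1) : ∀ c, ε c = 1 := by
  have h1 : S ≤ ε.ker := fun s hs => by rw [MonoidHom.mem_ker]; exact h s hs
  have h2 : ε.ker.index ∣ S.index := Subgroup.index_dvd_of_le h1
  intro c
  by_contra hc
  have hc' : ε c = -1 := (Int.units_eq_one_or (ε c)).resolve_left hc
  have h3 : ε.ker.index = 2 := by
    rw [Subgroup.index_ker]
    have hsurj : ε.range = ⊤ := by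
      rw [MonoidHom.range_eq_top]
      intro u
      rcases Int.units_eq_one_or u with rfl | rfl
      · exact ⟨1, map_one ε⟩
      · exact ⟨c, hc'⟩
    rw [hsurj, Subgroup.card_top]
    simp
  rw [h3] at h2
  exact (Nat.not_even_iff_odd.2 hS) (even_iff_two_dvd.2 h2)

/-- The root number at a place of good reduction is `1`. -/
theorem vr_good (A : Over (Spec (.of K))) [GrpObj A] [IsAbVar A]
    (W : LocalSigns K) (hW : IsRootNumbers A W) (v : HeightOneSpectrum (𝓞 K))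
    (hv : ∀ 𝔓 : Ideal (𝓞 (AlgebraicClosure K)), Above 𝔓 v → GoodAt A 𝔓)
    (L : IntermediateField K (AlgebraicClosure K)) [FiniteDimensional K L]
    (w : HeightOneSpectrum (𝓞 L)) (hw : Divides L w v) : W L w = 1 := by
  obtain ⟨𝔓₀, h𝔓₀⟩ := exists_above v
  obtain ⟨σ, hσ⟩ := exists_translate L v 𝔓₀ h𝔓₀ w hw
  have h𝔓 := above_smul v 𝔓₀ h𝔓₀ σ
  obtain ⟨B, hB⟩ := exists_bound v (σ • 𝔓₀) h𝔓
  obtain ⟨ℓ, hℓB, hℓ⟩ := Nat.exists_infinite_primes (B + 1)
  haveI : Fact ℓ.Prime := ⟨hℓ⟩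
  have hℓ𝔓 : (ℓ : 𝓞 (AlgebraicClosure K)) ∉ σ • 𝔓₀ := hB ℓ hℓ (by omega)
  have hid : ∀ (ℓ' : ℕ) [Fact ℓ'.Prime], (ℓ' : 𝓞 (AlgebraicClosure K)) ∉ σ • 𝔓₀ →
      ∀ g ∈ inertia K (σ • 𝔓₀), ∀ x, galV A ℓ' g x = x := by
    intro ℓ' _ hℓ' g hg x
    rw [(hv (σ • 𝔓₀) h𝔓 ℓ' hℓ').2 g hg]
    rfl
  have hss : SemistableOver A L (σ • 𝔓₀) := by
    intro ℓ' _ hℓ'
    exact ⟨(hv (σ • 𝔓₀) h𝔓 ℓ' hℓ').1, fun g hg x => hid ℓ' hℓ' g hg.1 _⟩
  rw [hW.semistable L w (σ • 𝔓₀) hσ hss ℓ hℓ𝔓]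
  have htop : fixedBy (ops A ℓ (inertia K (σ • 𝔓₀) ∩
      (L.fixingSubgroup : Set (AlgebraicClosure K ≃ₐ[K] AlgebraicClosure K)))) = ⊤ := by
    rw [eq_top_iff]
    intro x _
    rintro _ ⟨g, hg, rfl⟩
    exact hid ℓ hℓ𝔓 g hg.1 x
  have h0 : localRank A ℓ L (σ • 𝔓₀) = 0 := by
    unfold localRank quotRank
    have hsub : Subsingleton (VTate ℓ (Pts A (AlgebraicClosure K)) ⧸ fixedBy (ops A ℓ
        (inertia K (σ • 𝔓₀) ∩
          (L.fixingSubgroup : Set (AlgebraicClosure K ≃ₐ[K] AlgebraicClosure K))))) :=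
      Submodule.Quotient.subsingleton_iff.2 htop
    exact Module.finrank_zero_of_subsingleton
  rw [h0, pow_zero]

end Pool.Agent.H.MP_ac3185_nt
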