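import Pool.Agent.H.MP_ac3185_nt.V.RootA

/-! Local root numbers in an extension of odd degree, at a place with one place above it. -/

set_option autoImplicit false

open CategoryTheory AlgebraicGeometry NumberField IsDedekindDomain
open scoped MonObj Pointwise

namespace Pool.Agent.H.MP_ac3185_nt

universe u

variable {K : Type u} [Field K] [NumberField K]

/-- The parity of the split rank at the only place above `v`, for an extension of odd degree. -/
theorem vr_rank (A : Over (Spec (.of K))) [GrpObj A] [IsAbVar A] (v : HeightOneSpectrum (𝓞 K))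
    (𝔓 : Ideal (𝓞 (AlgebraicClosure K))) (h𝔓 : Above 𝔓 v)
    (L : IntermediateField K (AlgebraicClosure K)) [FiniteDimensional K L]
    (hodd : Odd (Module.finrank K L)) (h1 : OnePlace L 𝔓) (hss : SemistableOver A ⊥ 𝔓) :
    ∃ (ℓ : ℕ) (_ : Fact ℓ.Prime), (ℓ : 𝓞 (AlgebraicClosure K)) ∉ 𝔓 ∧
      localRank A ℓ L 𝔓 ≡ localRank A ℓ ⊥ 𝔓 [MOD 2] := by
  have hrel := vr_relIndex L 𝔓 h1
  let F : IntermediateField K (AlgebraicClosure K) :=
    IntermediateField.normalClosure K L (AlgebraicClosure K)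
  have hFn : Normal K F := inferInstance
  have hFg : IsGalois K F := ⟨⟩
  have hFf : FiniteDimensional K F := inferInstance
  have hLF : L ≤ F := IntermediateField.le_normalClosure L
  obtain ⟨B, hB⟩ := exists_bound v 𝔓 h𝔓
  obtain ⟨ℓ, hℓF, hℓB, h4, hp⟩ := exists_good_prime (Nat.card (F ≃ₐ[K] F)) Nat.card_pos.ne' B
  have hℓ𝔓 : (ℓ : 𝓞 (AlgebraicClosure K)) ∉ 𝔓 := hB ℓ hℓF.out hℓB
  refine ⟨ℓ, hℓF, hℓ𝔓, ?_⟩
  obtain ⟨u, hu⟩ := local_semistable F A v 𝔓 h𝔓 hss ℓ hℓ𝔓 h4 hp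
  have hL := hu L hLF 1
  have hbot := hu ⊥ bot_le 1
  rw [one_smul] at hL hbot
  refine hL.trans (Nat.ModEq.trans ?_ hbot.symm)
  unfold Nat.ModEq
  congr 1
  refine finsum_congr fun ε => ?_
  have key : (∀ d : (decompGrp K 𝔓).map (AlgEquiv.restrictNormalHom F),
      AlgEquiv.restrictNormalHom F (1 : AlgebraicClosure K ≃ₐ[K] AlgebraicClosure K) *
        (d : F ≃ₐ[K] F) * (AlgEquiv.restrictNormalHom F (1 : AlgebraicClosure K ≃ₐ[K] AlgebraicClosure K))⁻¹ ∈ relGal F L → ε d = 1) ↔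
      (∀ d : (decompGrp K 𝔓).map (AlgEquiv.restrictNormalHom F),
      AlgEquiv.restrictNormalHom F (1 : AlgebraicClosure K ≃ₐ[K] AlgebraicClosure K) *
        (d : F ≃ₐ[K] F) * (AlgEquiv.restrictNormalHom F (1 : AlgebraicClosure K ≃ₐ[K] AlgebraicClosure K))⁻¹ ∈ relGal F ⊥ → ε d = 1) := by
    constructor
    · intro h d _
      let S : Subgroup ((decompGrp K 𝔓).map (AlgEquiv.restrictNormalHom F)) :=
        (relGal F L).comap
          ((MulAut.conj ((AlgEquiv.restrictNormalHom F)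
            (1 : AlgebraicClosure K ≃ₐ[K] AlgebraicClosure K))).toMonoidHom.comp
            ((decompGrp K 𝔓).map (AlgEquiv.restrictNormalHom F)).subtype)
      have hmem : ∀ d : (decompGrp K 𝔓).map (AlgEquiv.restrictNormalHom F), d ∈ S ↔
          AlgEquiv.restrictNormalHom F (1 : AlgebraicClosure K ≃ₐ[K] AlgebraicClosure K) *
            (d : F ≃ₐ[K] F) * (AlgEquiv.restrictNormalHom F (1 : AlgebraicClosure K ≃ₐ[K] AlgebraicClosure K))⁻¹ ∈ relGal F L := fun d => Iff.rfl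
      have hidx : L.fixingSubgroup.relIndex (decompGrp K 𝔓) = S.index := by
        refine relIndex_eq (AlgEquiv.restrictNormalHom F) (decompGrp K 𝔓) L.fixingSubgroup
          (ker_le_fixingSubgroup F L hLF) 1 (decompGrp K 𝔓) (fun g => by
            rw [inv_one, one_mul, mul_one]) S ?_
        intro d
        rw [map_fixingSubgroup F L hLF]
        exact hmem d
      exact vr_char ε S (by rw [← hidx, hrel]; exact hodd)
        (fun s hs => h s ((hmem s).1 hs)) d
    · intro h d _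
      refine h d ?_
      intro x hx
      obtain ⟨y, hy⟩ := IntermediateField.mem_bot.1 hx
      have hxy : x = algebraMap K F y := Subtype.ext hy.symm
      rw [hxy]
      exact AlgEquiv.commutes _ y
  by_cases hP : ∀ d : (decompGrp K 𝔓).map (AlgEquiv.restrictNormalHom F),
      AlgEquiv.restrictNormalHom F (1 : AlgebraicClosure K ≃ₐ[K] AlgebraicClosure K) *
        (d : F ≃ₐ[K] F) * (AlgEquiv.restrictNormalHom F (1 : AlgebraicClosure K ≃ₐ[K] AlgebraicClosure K))⁻¹ ∈ relGal F L → ε d = 1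
  · rw [if_pos hP, if_pos (key.1 hP)]
  · rw [if_neg hP, if_neg fun h => hP (key.2 h)]

/-- The local root number at the only place above `v`, for an extension of odd degree: `A` is
semistable at `v` or `v` is unramified. -/
theorem vr_local (A : Over (Spec (.of K))) [GrpObj A] [IsAbVar A]
    (W : LocalSigns K) (hW : IsRootNumbers A W) (v : HeightOneSpectrum (𝓞 K))
    (𝔓 : Ideal (𝓞 (AlgebraicClosure K))) (h𝔓 : Above 𝔓 v)
    (L : IntermediateField K (AlgebraicClosure K)) [FiniteDimensional K L]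
    (hodd : Odd (Module.finrank K L)) (h1 : OnePlace L 𝔓)
    (h2 : inertia K 𝔓 ⊆ (L.fixingSubgroup : Set (AlgebraicClosure K ≃ₐ[K] AlgebraicClosure K)) ∨
      SemistableOver A ⊥ 𝔓)
    (w : HeightOneSpectrum (𝓞 L)) (hw : Divides L w v)
    (w₀ : HeightOneSpectrum (𝓞 (⊥ : IntermediateField K (AlgebraicClosure K))))
    (hw₀ : Divides ⊥ w₀ v) : W L w = W ⊥ w₀ := by
  have hrel := vr_relIndex L 𝔓 h1
  have hrel0 : (⊥ : IntermediateField K (AlgebraicClosure K)).fixingSubgroup.relIndex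
      (decompGrp K 𝔓) = 1 := by
    rw [IntermediateField.fixingSubgroup_bot, Subgroup.relIndex_top_left]
  have h1' : OnePlace (⊥ : IntermediateField K (AlgebraicClosure K)) 𝔓 := by
    intro s
    refine ⟨1, (decompGrp K 𝔓).one_mem, ?_⟩
    rw [IntermediateField.fixingSubgroup_bot]
    exact Subgroup.mem_top _
  have hwP : PrimeOver L 𝔓 w := by
    obtain ⟨w', hw', hwv'⟩ := exists_placeBelow L v 𝔓 h𝔓 1
    rw [one_smul] at hw'
    rwa [vr_one L v 𝔓 h𝔓 h1 w w' hw hwv']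
  have hw₀P : PrimeOver ⊥ 𝔓 w₀ := by
    obtain ⟨w', hw', hwv'⟩ := exists_placeBelow ⊥ v 𝔓 h𝔓 1
    rw [one_smul] at hw'
    rwa [vr_one ⊥ v 𝔓 h𝔓 h1' w₀ w' hw₀ hwv']
  rcases h2 with h2 | hss
  · obtain ⟨a, b, hab⟩ := hW.unramified v
    have e1 := (hab L w 𝔓 hwP h𝔓 h2).1 (by rw [hrel]; exact hodd)
    have e2 := (hab ⊥ w₀ 𝔓 hw₀P h𝔓 (by
      rw [IntermediateField.fixingSubgroup_bot]
      exact fun g _ => Subgroup.mem_top g)).1 (by rw [hrel0]; exact odd_one)
    rw [e1, e2]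
  · obtain ⟨ℓ, _, hℓ, hmod⟩ := vr_rank A v 𝔓 h𝔓 L hodd h1 hss
    rw [hW.semistable L w 𝔓 hwP (hss.mono L) ℓ hℓ,
      hW.semistable ⊥ w₀ 𝔓 hw₀P hss ℓ hℓ, neg_one_pow_eq_pow_mod_two, hmod,
      ← neg_one_pow_eq_pow_mod_two]

end Pool.Agent.H.MP_ac3185_nt
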