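import Pool.Agent.H.MP_ac3185_nt.V.RootB

/-! The global root number in an extension of odd degree. -/

set_option autoImplicit false

open CategoryTheory AlgebraicGeometry NumberField IsDedekindDomain
open scoped MonObj Pointwise

namespace Pool.Agent.H.MP_ac3185_nt

universe u

variable {K : Type u} [Field K] [NumberField K]

omit [NumberField K] in
theorem vr_totReal_bot {L : IntermediateField K (AlgebraicClosure K)} (h : TotReal L) :
    TotReal (⊥ : IntermediateField K (AlgebraicClosure K)) := fun e x =>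
  h e ⟨x.1, (bot_le : ⊥ ≤ L) x.2⟩

omit [NumberField K] in
theorem vr_isTotallyReal {L : IntermediateField K (AlgebraicClosure K)} (h : TotReal L) :
    IsTotallyReal L := by
  refine ⟨fun v => ?_⟩
  let φ : L →+* ℂ := v.embedding
  let _ : Algebra L ℂ := φ.toAlgebra
  let e : AlgebraicClosure K →ₐ[L] ℂ := IsAlgClosed.lift
  have h1 : ∀ x : L, e (x : AlgebraicClosure K) = φ x := fun x => e.commutes x
  rw [← InfinitePlace.mk_embedding v, InfinitePlace.isReal_mk_iff]
  show ComplexEmbedding.IsReal φ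
  rw [ComplexEmbedding.isReal_iff]
  ext x
  show starRingEnd ℂ (φ x) = φ x
  rw [← h1]
  exact h e.toRingHom x

theorem vr_card {L : IntermediateField K (AlgebraicClosure K)} [FiniteDimensional K L]
    (h : TotReal L) :
    Nat.card (InfinitePlace L) = Module.finrank ℚ K * Module.finrank K L := by
  have hL : NumberField L := NumberField.of_module_finite K L
  have hT : IsTotallyReal L := vr_isTotallyReal h
  rw [Module.finrank_mul_finrank ℚ K L, IsTotallyReal.finrank, Nat.card_eq_fintype_card,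
    InfinitePlace.card_eq_nrRealPlaces_add_nrComplexPlaces, IsTotallyReal.nrComplexPlaces_eq_zero,
    add_zero]

/-- The sign at infinity. -/
theorem vr_inf (g : ℕ) {L : IntermediateField K (AlgebraicClosure K)} [FiniteDimensional K L]
    (hodd : Odd (Module.finrank K L)) (h : TotReal L) :
    (-1 : ℤ) ^ (g * Nat.card (InfinitePlace L)) = (-1) ^ (g * Nat.card (InfinitePlace
      (⊥ : IntermediateField K (AlgebraicClosure K)))) := by
  rw [vr_card h, vr_card (vr_totReal_bot h), IntermediateField.finrank_bot, mul_one,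
    ← mul_assoc, pow_mul]
  rcases neg_one_pow_eq_or ℤ (g * Module.finrank ℚ K) with h1 | h1
  · rw [h1, one_pow]
  · rw [h1, hodd.neg_one_pow]

/-- The product of the local root numbers above a place. -/
theorem vr_place (L : IntermediateField K (AlgebraicClosure K)) [FiniteDimensional K L]
    (hodd : Odd (Module.finrank K L)) (A : Over (Spec (.of K))) [GrpObj A] [IsAbVar A]
    (W : LocalSigns K) (hW : IsRootNumbers A W)
    (hA : ∀ 𝔓 : Ideal (𝓞 (AlgebraicClosure K)), FinPrime 𝔓 → MildAt A L 𝔓)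
    (v : HeightOneSpectrum (𝓞 K)) :
    ∏ᶠ w : {w : HeightOneSpectrum (𝓞 L) // Divides L w v}, W L w.1 =
      ∏ᶠ w : {w : HeightOneSpectrum (𝓞 (⊥ : IntermediateField K (AlgebraicClosure K))) //
        Divides ⊥ w v}, W ⊥ w.1 := by
  by_cases hv : ∀ 𝔓 : Ideal (𝓞 (AlgebraicClosure K)), Above 𝔓 v → GoodAt A 𝔓
  · have g1 : ∀ w : {w : HeightOneSpectrum (𝓞 L) // Divides L w v}, W L w.1 = 1 := fun w =>
      vr_good A W hW v hv L w.1 w.2
    have g2 : ∀ w : {w : HeightOneSpectrum (𝓞 (⊥ : IntermediateField K (AlgebraicClosure K))) //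
      Divides ⊥ w v}, W ⊥ w.1 = 1 := fun w => vr_good A W hW v hv ⊥ w.1 w.2
    rw [finprod_eq_one_of_forall_eq_one g1, finprod_eq_one_of_forall_eq_one g2]
  · push Not at hv
    obtain ⟨𝔓, h𝔓, hbad⟩ := hv
    obtain ⟨h1, h2⟩ := (hA 𝔓 (vr_finPrime v 𝔓 h𝔓)).resolve_left hbad
    have h1' : OnePlace (⊥ : IntermediateField K (AlgebraicClosure K)) 𝔓 := by
      intro s
      refine ⟨1, (decompGrp K 𝔓).one_mem, ?_⟩
      rw [IntermediateField.fixingSubgroup_bot]
      exact Subgroup.mem_top _
    obtain ⟨w, -, hw⟩ := exists_placeBelow L v 𝔓 h𝔓 1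
    obtain ⟨w₀, -, hw₀⟩ := exists_placeBelow ⊥ v 𝔓 h𝔓 1
    have e1 : ∏ᶠ w : {w : HeightOneSpectrum (𝓞 L) // Divides L w v}, W L w.1 = W L w := by
      have hall : ∀ w' : {w : HeightOneSpectrum (𝓞 L) // Divides L w v}, W L w'.1 = W L w :=
        fun w' => congrArg (W L) (vr_one L v 𝔓 h𝔓 h1 w'.1 w w'.2 hw)
      have : Unique {w : HeightOneSpectrum (𝓞 L) // Divides L w v} :=
        ⟨⟨⟨w, hw⟩⟩, fun w' => Subtype.ext (vr_one L v 𝔓 h𝔓 h1 _ _ w'.2 hw)⟩
      rw [finprod_unique]
      exact hall _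
    have e2 : ∏ᶠ w : {w : HeightOneSpectrum (𝓞 (⊥ : IntermediateField K (AlgebraicClosure K))) //
        Divides ⊥ w v}, W ⊥ w.1 = W ⊥ w₀ := by
      have hall : ∀ w' : {w : HeightOneSpectrum (𝓞 (⊥ : IntermediateField K
          (AlgebraicClosure K))) // Divides ⊥ w v}, W ⊥ w'.1 = W ⊥ w₀ :=
        fun w' => congrArg (W ⊥) (vr_one ⊥ v 𝔓 h𝔓 h1' w'.1 w₀ w'.2 hw₀)
      have : Unique {w : HeightOneSpectrum (𝓞 (⊥ : IntermediateField K (AlgebraicClosure K))) //
          Divides ⊥ w v} :=
        ⟨⟨⟨w₀, hw₀⟩⟩, fun w' => Subtype.ext (vr_one ⊥ v 𝔓 h𝔓 h1' _ _ w'.2 hw₀)⟩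
      rw [finprod_unique]
      exact hall _
    rw [e1, e2]
    exact vr_local A W hW v 𝔓 h𝔓 L hodd h1 h2 w hw w₀ hw₀

/-- The global root number does not change in an extension `L / K` of odd degree of totally real
fields, if every place of `K` is a place of good reduction of `A`, or has one place of `L` above it
which is unramified or such that `A` is semistable there. -/
theorem vr_sign {K : Type u} [Field K] [NumberField K]
    (L : IntermediateField K (AlgebraicClosure K)) [FiniteDimensional K L]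
    (hodd : Odd (Module.finrank K L)) (hreal : TotReal L)
    (A : Over (Spec (.of K))) [GrpObj A] [IsAbVar A] (W : LocalSigns K)
    (hW : IsRootNumbers A W)
    (hA : ∀ 𝔓 : Ideal (𝓞 (AlgebraicClosure K)), FinPrime 𝔓 → MildAt A L 𝔓) (g : ℕ) :
    signOver W g L = signOver W g (⊥ : IntermediateField K (AlgebraicClosure K)) := by
  unfold signOver
  rw [vr_inf g hodd hreal, (finprod_places L (W L) (hW.almost L)).2,
    (finprod_places ⊥ (W ⊥) (hW.almost ⊥)).2]
  rw [finprod_congr fun v => vr_place L hodd A W hW hA v]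

end Pool.Agent.H.MP_ac3185_nt
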