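import Pool.Agent.H.MP_ac3185_nt.V.Norm
import Pool.Agent.H.MP_ac3185_nt.h79.UnitAt

/-! Units at a prime of the ring of algebraic integers: the valuation of `a N(a)` is even at a place
which is alone above its restriction, if the degree is odd. -/

set_option autoImplicit false

open CategoryTheory AlgebraicGeometry NumberField IsDedekindDomain
open scoped MonObj

namespace Pool.Agent.H.MP_ac3185_nt

universe u

section numberField

variable {K : Type u} [Field K] [NumberField K]

theorem vu_unitAt {𝔓 : Ideal (𝓞 (AlgebraicClosure K))} (h𝔓 : FinPrime 𝔓)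
    {t : AlgebraicClosure K ≃ₐ[K] AlgebraicClosure K} (ht : t ∈ decomp K 𝔓)
    {a : AlgebraicClosure K} (ha : a ≠ 0) : UnitAt 𝔓 (t a / a) := by
  have hP : 𝔓.IsPrime := h𝔓.1
  have hint : IsIntegral K a := Algebra.IsIntegral.isIntegral a
  have hfd : FiniteDimensional K (IntermediateField.adjoin K {a}) :=
    IntermediateField.adjoin.finiteDimensional hint
  have hnf : NumberField (IntermediateField.adjoin K {a}) := NumberField.of_module_finite K _
  have hmem : a ∈ IntermediateField.adjoin K {a} := IntermediateField.mem_adjoin_simple_self K a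
  have h0 : (⟨a, hmem⟩ : IntermediateField.adjoin K {a}) ≠ 0 := by
    intro h
    exact ha (congrArg Subtype.val h)
  exact UnitAt.gal_div (M := IntermediateField.adjoin K {a}) 𝔓 ht ⟨a, hmem⟩ h0

/-- An element `t` of the decomposition group changes `a` by a unit at `𝔓`. -/
theorem vu_unit {𝔓 : Ideal (𝓞 (AlgebraicClosure K))} (h𝔓 : FinPrime 𝔓)
    {t : AlgebraicClosure K ≃ₐ[K] AlgebraicClosure K} (ht : t ∈ decomp K 𝔓)
    {a : AlgebraicClosure K} (ha : a ≠ 0) :
    ∃ x y : 𝓞 (AlgebraicClosure K), x ∉ 𝔓 ∧ y ∉ 𝔓 ∧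
      t a * (y : AlgebraicClosure K) = a * (x : AlgebraicClosure K) := by
  obtain ⟨x, y, hx, hy, h⟩ := vu_unitAt h𝔓 ht ha
  refine ⟨x, y, hx, hy, ?_⟩
  rw [← h]
  field_simp

/-- If there is only one place of `L` below the conjugates of `𝔓`, then the norm of `a` to `K` is
`a ^ [L : K]` up to a unit at `𝔓`. -/
theorem vu_normAt (L : IntermediateField K (AlgebraicClosure K)) [FiniteDimensional K L]
    {𝔓 : Ideal (𝓞 (AlgebraicClosure K))} (h𝔓 : FinPrime 𝔓) (hone : OnePlace L 𝔓)
    {a : L} (ha : a ≠ 0) :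
    UnitAt 𝔓 (algebraMap K (AlgebraicClosure K) (Algebra.norm K a) /
      (a : AlgebraicClosure K) ^ Module.finrank K L) := by
  have hP : 𝔓.IsPrime := h𝔓.1
  have ha' : (a : AlgebraicClosure K) ≠ 0 := by
    intro h
    exact ha (Subtype.ext h)
  rw [Algebra.norm_eq_prod_embeddings K (AlgebraicClosure K) a, ← AlgHom.card K L (AlgebraicClosure K),
    ← Finset.card_univ, ← Finset.prod_const, ← Finset.prod_div_distrib]
  refine UnitAt.prod _ _ fun σ _ => ?_
  obtain ⟨s, hs⟩ : ∃ s : AlgebraicClosure K ≃ₐ[K] AlgebraicClosure K,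
      ∀ x : L, s (x : AlgebraicClosure K) = σ x :=
    ⟨AlgEquiv.ofBijective (σ.liftNormal (AlgebraicClosure K))
      (AlgHom.normal_bijective K (AlgebraicClosure K) (AlgebraicClosure K) _),
      fun x => σ.liftNormal_commutes (AlgebraicClosure K) x⟩
  obtain ⟨t, ht, hts⟩ := hone s
  have h1 : σ a = t (a : AlgebraicClosure K) := by
    rw [← hs a]
    have h2 : (t⁻¹ * s) (a : AlgebraicClosure K) = a :=
      (IntermediateField.mem_fixingSubgroup_iff L _).1 hts a a.2
    calc s (a : AlgebraicClosure K) = t ((t⁻¹ * s) (a : AlgebraicClosure K)) := by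
          rw [← AlgEquiv.mul_apply, mul_inv_cancel_left]
      _ = t (a : AlgebraicClosure K) := by rw [h2]
  rw [h1]
  exact vu_unitAt h𝔓 ht ha'

/-- If there is only one place of `L` below the conjugates of `𝔓`, and if the degree of `L / K` is
odd, then `a N(a)` has even valuation at this place. -/
theorem vu_evenNorm (L : IntermediateField K (AlgebraicClosure K)) [FiniteDimensional K L]
    (hodd : Odd (Module.finrank K L)) {𝔓 : Ideal (𝓞 (AlgebraicClosure K))} (h𝔓 : FinPrime 𝔓)
    (hone : OnePlace L 𝔓) {a : L} (ha : a ≠ 0) :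
    EvenAt L 𝔓 ((a : AlgebraicClosure K) *
      algebraMap K (AlgebraicClosure K) (Algebra.norm K a)) := by
  have ha' : (a : AlgebraicClosure K) ≠ 0 := by
    intro h
    exact ha (Subtype.ext h)
  obtain ⟨x, y, hx, hy, h⟩ := vu_normAt L h𝔓 hone ha
  obtain ⟨m, hm⟩ := hodd
  refine ⟨(a : AlgebraicClosure K) ^ (m + 1), pow_mem a.2 _, pow_ne_zero _ ha', x, y, hx, hy, ?_⟩
  rw [← h, hm]
  have h1 : (a : AlgebraicClosure K) ^ (m + 1) * (a : AlgebraicClosure K) ^ (m + 1) =
      (a : AlgebraicClosure K) * (a : AlgebraicClosure K) ^ (2 * m + 1) := by ring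
  rw [h1]
  field_simp

/-- The form of `vu_evenNorm` with a product over the cosets. -/
theorem vu_even (L : IntermediateField K (AlgebraicClosure K)) [FiniteDimensional K L]
    (hodd : Odd (Module.finrank K L)) {𝔓 : Ideal (𝓞 (AlgebraicClosure K))} (h𝔓 : FinPrime 𝔓)
    (hone : OnePlace L 𝔓) {a : AlgebraicClosure K} (ha : a ∈ L) (ha0 : a ≠ 0)
    [Fintype ((AlgebraicClosure K ≃ₐ[K] AlgebraicClosure K) ⧸ L.fixingSubgroup)] :
    EvenAt L 𝔓 (a * ∏ q : (AlgebraicClosure K ≃ₐ[K] AlgebraicClosure K) ⧸ L.fixingSubgroup,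
      q.out a) := by
  have h0 : (⟨a, ha⟩ : L) ≠ 0 := fun h => ha0 (congrArg Subtype.val h)
  have h1 := vu_evenNorm L hodd h𝔓 hone h0
  rw [vn_norm L] at h1
  exact h1

omit [NumberField K] in
/-- If `a` has even valuation at a place of `L` which does not divide `2`, then `L(√a) / L` is
unramified at this place. -/
theorem vu_unr (L : IntermediateField K (AlgebraicClosure K))
    {𝔓 : Ideal (𝓞 (AlgebraicClosure K))} (h𝔓 : FinPrime 𝔓)
    (h2 : (2 : 𝓞 (AlgebraicClosure K)) ∉ 𝔓) {a : AlgebraicClosure K} (ha : a ∈ L)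
    (h : EvenAt L 𝔓 a) : UnrAt L 𝔓 a := by
  have hP : 𝔓.IsPrime := h𝔓.1
  intro s hs hsL z hz
  obtain ⟨b, hb, hb0, x, y, hx, hy, hxy⟩ := h
  have hfix : ∀ c ∈ L, s c = c := (IntermediateField.mem_fixingSubgroup_iff L s).1 hsL
  have h1 : s z = z ∨ s z = -z := by
    rw [← sq_eq_sq_iff_eq_or_eq_neg, ← map_pow, sq, hz, hfix a ha]
  have h3 : UnitAt 𝔓 ((z / b) ^ 2) := by
    refine ⟨x, y, hx, hy, ?_⟩
    rw [div_pow, sq z, hz, div_mul_eq_mul_div, hxy, sq b, mul_comm, mul_div_assoc,
      div_self (mul_ne_zero hb0 hb0), mul_one]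
  have h4 : s (z / b) = z / b ∨ s (z / b) = -(z / b) := by
    rw [map_div₀, hfix b hb]
    rcases h1 with h1 | h1
    · left; rw [h1]
    · right; rw [h1, neg_div]
  have h5 := UnitAt.fixed h2 h3 hs h4
  rw [map_div₀, hfix b hb] at h5
  exact (div_left_inj' hb0).1 h5

end numberField

end Pool.Agent.H.MP_ac3185_nt
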