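import Pool.Agent.H.MP_ac3185_nt.V.Main
import Pool.Agent.H.MP_ac3185_nt.V.Fin
import Pool.Agent.H.MP_ac3185_nt.V.Unit
import Pool.Agent.H.MP_ac3185_nt.V.Chain

/-! `Step L f` implies `C(L) = C(K) + f(B(L))`. -/

set_option autoImplicit false

open CategoryTheory AlgebraicGeometry NumberField IsDedekindDomain
open scoped MonObj

namespace Pool.Agent.H.MP_ac3185_nt

universe u

section split

variable {K : Type u} [Field K] [NumberField K]

/-- The element `c = a N(a)`, as a square in `Kbar`, and its norm. -/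
theorem vp_elem (L : IntermediateField K (AlgebraicClosure K)) [FiniteDimensional K L]
    (hodd : Odd (Module.finrank K L)) [L.fixingSubgroup.FiniteIndex]
    (T : L.fixingSubgroup.LeftTransversal) (r : AlgebraicClosure K) (hr0 : r ≠ 0)
    (a : L) (ha : (a : AlgebraicClosure K) = r * r) :
    vnProd T r * vnProd T r = algebraMap K (AlgebraicClosure K) (Algebra.norm K a) ∧
      ∃ c : L, (c : AlgebraicClosure K) = (r * vnProd T r) * (r * vnProd T r) ∧ c ≠ 0 ∧
        (c : AlgebraicClosure K) = (a : AlgebraicClosure K) *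
          algebraMap K (AlgebraicClosure K) (Algebra.norm K a) ∧
        IsSquare (Algebra.norm K c) := by
  classical
  let _ := L.fixingSubgroup.fintypeQuotientOfFiniteIndex
  have h1 : vnProd T r * vnProd T r = algebraMap K (AlgebraicClosure K) (Algebra.norm K a) := by
    rw [← vn_prod_mul, vn_norm, vn_indep (r * r) ?_ T]
    · rw [ha]
      rfl
    · intro s hs
      rw [← ha]
      exact vn_fix L a.2 hs
  refine ⟨h1, a * algebraMap K L (Algebra.norm K a), ?_, ?_, rfl, ?_⟩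
  · show (a : AlgebraicClosure K) * algebraMap K (AlgebraicClosure K) (Algebra.norm K a) = _
    rw [← h1, ha]
    ring
  · have ha0 : a ≠ 0 := by
      rintro rfl
      exact mul_ne_zero hr0 hr0 ha.symm
    refine mul_ne_zero ha0 ?_
    rw [map_ne_zero]
    exact Algebra.norm_ne_zero_iff.2 ha0
  · obtain ⟨m, hm⟩ := hodd
    refine ⟨Algebra.norm K a ^ (m + 1), ?_⟩
    rw [map_mul, Algebra.norm_algebraMap, hm]
    ring

theorem vp_split (L : IntermediateField K (AlgebraicClosure K)) [FiniteDimensional K L]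
    (hodd : Odd (Module.finrank K L)) (hreal : TotReal L) (hnar : SameNarrow L)
    {B C : Over (Spec (.of K))} [GrpObj B] [IsAbVar B] [GrpObj C] [IsAbVar C] (f : B ⟶ C)
    (hf : Step L f) : SplitPts L f := by
  intro y hy
  obtain ⟨b, rfl⟩ := hf.surj y
  obtain ⟨t, ht0, ht⟩ := hf.ker
  have hmon := hf.hom
  obtain ⟨E, hE, hEb⟩ := vf_finite B b
  obtain ⟨r, hr0, hr1, hr2⟩ := vk_kummer L E (vsStab L b) (fun s hs => hs.1)
    (fun s hs hs' => ⟨hs, hEb s hs'⟩)
    (fun s hs s' hs' h h' => vs_index hmon ht0 ht L b hy s hs s' hs' h h')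
  have hr : ∀ s ∈ L.fixingSubgroup, s r = r ∨ s r = -r := by
    intro s hs
    by_cases h : s ∈ vsStab L b
    · exact Or.inl (hr1 s h)
    · exact Or.inr (hr2 s hs h)
  have ha : r * r ∈ L := by
    apply vn_mem
    intro s hs
    rw [map_mul]
    rcases hr s hs with h | h
    · rw [h]
    · rw [h]
      ring
  have hfi := vn_finiteIndex L
  let T : L.fixingSubgroup.LeftTransversal := default
  obtain ⟨hR, c, hc, hc0, hc', hcN⟩ := vp_elem L hodd T r hr0 ⟨r * r, ha⟩ rfl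
  have ha0 : (⟨r * r, ha⟩ : L) ≠ 0 := by
    intro h
    exact mul_ne_zero hr0 hr0 (congrArg Subtype.val h)
  -- the behaviour at the finite primes
  have het : ∀ 𝔓 : Ideal (𝓞 (AlgebraicClosure K)), EtaleAt f 𝔓 → UnrAt L 𝔓 c := by
    intro 𝔓 h𝔓
    rw [hc]
    refine vm_unr L r _ hr0 hr T rfl 𝔓 ?_
    intro s hs x n hx
    exact hr1 _ (vs_etale hmon L b hy 𝔓 h𝔓 s hs x n hx)
  have hev : ∀ 𝔓 : Ideal (𝓞 (AlgebraicClosure K)), FinPrime 𝔓 → OnePlace L 𝔓 →
      EvenAt L 𝔓 c := by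
    intro 𝔓 h𝔓 h
    rw [hc']
    exact vu_evenNorm L hodd h𝔓 h ha0
  have hodd' : ∀ 𝔓 : Ideal (𝓞 (AlgebraicClosure K)), FinPrime 𝔓 → 2 ∉ 𝔓 → UnrAt L 𝔓 c := by
    intro 𝔓 h𝔓 h2
    rcases hf.odd 𝔓 h𝔓 h2 with h | h
    · exact het 𝔓 h
    · exact vu_unr L h𝔓 h2 c.2 (hev 𝔓 h𝔓 h)
  have hsq : IsSquare c := by
    rcases hf.two with h | ⟨h, hrf⟩
    · refine hnar.unr c hc0 hcN fun 𝔓 h𝔓 => ?_
      by_cases h2 : (2 : 𝓞 (AlgebraicClosure K)) ∈ 𝔓
      · exact het 𝔓 (h 𝔓 h𝔓 h2)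
      · exact hodd' 𝔓 h𝔓 h2
    · refine hnar.pos c hc0 hcN ?_ hodd' fun 𝔓 h𝔓 h2 => hev 𝔓 h𝔓 (h 𝔓 h𝔓 h2)
      have hpos : TotPos (r * r) := by
        refine vj_pos r hr0 fun e => ?_
        obtain ⟨s, hs, hse⟩ := vj_conj L hreal e
        have h5 : act B s b = b := hrf e s hse b (hy s hs)
        rw [← hse, hr1 s ⟨hs, h5⟩]
      classical
      let _ := L.fixingSubgroup.fintypeQuotientOfFiniteIndex
      rw [hc', vn_norm]
      exact vj_pos_mul hpos (vj_pos_prod _ _ fun q _ => vj_pos_gal hpos _)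
  obtain ⟨d, hd⟩ := hsq
  have hrR : r * vnProd T r ∈ L := by
    have h6 : (r * vnProd T r) * (r * vnProd T r) = (d : AlgebraicClosure K) * d := by
      rw [← hc, hd]
      rfl
    rcases mul_self_eq_mul_self_iff.1 h6 with h | h
    · rw [h]
      exact d.2
    · rw [h]
      exact neg_mem d.2
  have hR0 : vnProd T r ≠ 0 := by
    intro h
    apply hc0
    apply Subtype.ext
    rw [hc, h]
    simp
  exact vm_extend L hodd hmon ht0 ht b hy r _ hr0 hR0 hr1 hr2 (fun s => by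
    rw [hR]
    exact s.commutes _) hrR

end split

end Pool.Agent.H.MP_ac3185_nt
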