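import Pool.Agent.H.MP_ac3185_nt.V.Cor
import Pool.Agent.H.MP_ac3185_nt.V.Kum
import Pool.Agent.H.MP_ac3185_nt.V.Conj
import Pool.Agent.H.MP_ac3185_nt.V.Act

/-! One step: `C(L) = C(K) + f(B(L))`. -/

set_option autoImplicit false

open CategoryTheory AlgebraicGeometry NumberField IsDedekindDomain
open scoped MonObj

namespace Pool.Agent.H.MP_ac3185_nt

universe u

section ker

variable {K : Type u} [Field K] {B C : Over (Spec (.of K))}
  [GrpObj B] [IsAbVar B] [GrpObj C] [IsAbVar C] {f : B ⟶ C}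

theorem vs_two (hf : IsMonHom f) {t : Pts B (AlgebraicClosure K)} (ht0 : t ≠ 0)
    (ht : ∀ x, onPts f x = 0 ↔ x = 0 ∨ x = t) : t + t = 0 := by
  have h1 : onPts f t = 0 := (ht t).2 (Or.inr rfl)
  have h2 : onPts f (t + t) = 0 := by rw [vh_add f hf, h1, add_zero]
  rcases (ht _).1 h2 with h | h
  · exact h
  · exact absurd (left_eq_add.1 h.symm) ht0

theorem vs_fix (hf : IsMonHom f) {t : Pts B (AlgebraicClosure K)} (ht0 : t ≠ 0)
    (ht : ∀ x, onPts f x = 0 ↔ x = 0 ∨ x = t)
    (s : AlgebraicClosure K ≃ₐ[K] AlgebraicClosure K) : act B s t = t := by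
  have h1 : onPts f (act B s t) = 0 := by
    rw [← vh_act, (ht t).2 (Or.inr rfl), va_zero]
  rcases (ht _).1 h1 with h | h
  · exfalso
    apply ht0
    have h2 := congrArg (act B s⁻¹) h
    rwa [va_inv, va_zero] at h2
  · exact h

/-- The stabilizer of `b` in `Gal(Kbar/L)`. -/
def vsStab (L : IntermediateField K (AlgebraicClosure K)) (b : Pts B (AlgebraicClosure K)) :
    Subgroup (AlgebraicClosure K ≃ₐ[K] AlgebraicClosure K) where
  carrier := {s | s ∈ L.fixingSubgroup ∧ act B s b = b}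
  one_mem' := ⟨one_mem _, va_one b⟩
  mul_mem' := fun {s t} hs ht => ⟨mul_mem hs.1 ht.1, by rw [va_mul, ht.2, hs.2]⟩
  inv_mem' := fun {s} hs => ⟨inv_mem hs.1, by
    have h := congrArg (act B s⁻¹) hs.2
    rw [va_inv] at h
    exact h.symm⟩

theorem vs_cases (hf : IsMonHom f) {t : Pts B (AlgebraicClosure K)}
    (ht : ∀ x, onPts f x = 0 ↔ x = 0 ∨ x = t) (L : IntermediateField K (AlgebraicClosure K))
    (b : Pts B (AlgebraicClosure K)) (hb : ∀ s ∈ L.fixingSubgroup, act C s (onPts f b) = onPts f b)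
    (s : AlgebraicClosure K ≃ₐ[K] AlgebraicClosure K) (hs : s ∈ L.fixingSubgroup) :
    act B s b = b ∨ act B s b = b + t := by
  have h1 : onPts f (act B s b - b) = 0 := by
    rw [vh_sub f hf, ← vh_act, hb s hs, sub_self]
  rcases (ht _).1 h1 with h | h
  · exact Or.inl (sub_eq_zero.1 h)
  · exact Or.inr (by rw [← h]; abel)

theorem vs_index (hf : IsMonHom f) {t : Pts B (AlgebraicClosure K)} (ht0 : t ≠ 0)
    (ht : ∀ x, onPts f x = 0 ↔ x = 0 ∨ x = t) (L : IntermediateField K (AlgebraicClosure K))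
    (b : Pts B (AlgebraicClosure K)) (hb : ∀ s ∈ L.fixingSubgroup, act C s (onPts f b) = onPts f b)
    (s : AlgebraicClosure K ≃ₐ[K] AlgebraicClosure K) (hs : s ∈ L.fixingSubgroup)
    (s' : AlgebraicClosure K ≃ₐ[K] AlgebraicClosure K) (hs' : s' ∈ L.fixingSubgroup)
    (h1 : s ∉ vsStab L b) (h2 : s' ∉ vsStab L b) : s * s' ∈ vsStab L b := by
  refine ⟨mul_mem hs hs', ?_⟩
  have h3 : act B s b = b + t := (vs_cases hf ht L b hb s hs).resolve_left fun h => h1 ⟨hs, h⟩
  have h4 : act B s' b = b + t := (vs_cases hf ht L b hb s' hs').resolve_left fun h => h2 ⟨hs', h⟩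
  rw [va_mul, h4, va_add, vs_fix hf ht0 ht, h3, add_assoc, vs_two hf ht0 ht, add_zero]

/-- At the primes where the kernel is etale, the conjugates of powers of inertia elements which fix
`L` stabilize `b`. -/
theorem vs_etale (hf : IsMonHom f) (L : IntermediateField K (AlgebraicClosure K))
    (b : Pts B (AlgebraicClosure K)) (hb : ∀ s ∈ L.fixingSubgroup, act C s (onPts f b) = onPts f b)
    (𝔓 : Ideal (𝓞 (AlgebraicClosure K))) (h𝔓 : EtaleAt f 𝔓)
    (s : AlgebraicClosure K ≃ₐ[K] AlgebraicClosure K) (hs : s ∈ inertia K 𝔓)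
    (x : AlgebraicClosure K ≃ₐ[K] AlgebraicClosure K) (n : ℕ)
    (hx : x⁻¹ * s ^ n * x ∈ L.fixingSubgroup) : x⁻¹ * s ^ n * x ∈ vsStab L b := by
  obtain ⟨R, _, r, hr1, hr2⟩ := h𝔓
  have hsn : s ^ n ∈ inertia K 𝔓 := (inertiaGrp K 𝔓).pow_mem hs n
  have h1 : act B (s ^ n) (act B x b) = act B x (act B (x⁻¹ * s ^ n * x) b) := by
    rw [← va_mul, ← va_mul]
    congr 1
    group
  have h2 : onPts f (act B (s ^ n) (act B x b) - act B x b) = 0 := by
    rw [h1, ← va_sub, ← vh_act, vh_sub f hf, ← vh_act, hb _ hx, sub_self, va_zero]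
  have h3 : r (act B (s ^ n) (act B x b) - act B x b) = 0 := by
    rw [map_sub, hr1 _ hsn, sub_self]
  have h4 := sub_eq_zero.1 (hr2 _ h2 h3)
  rw [h1] at h4
  refine ⟨hx, ?_⟩
  have h5 := congrArg (act B x⁻¹) h4
  rwa [va_inv, va_inv] at h5

end ker

section step

variable {K : Type u} [Field K] [CharZero K]

/-- The sign character of `Gal(Kbar/L)` given by `r`. -/
noncomputable def vsChar (L : IntermediateField K (AlgebraicClosure K)) (r : AlgebraicClosure K)
    (hr0 : r ≠ 0) (hr : ∀ s ∈ L.fixingSubgroup, s r = r ∨ s r = -r) :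
    L.fixingSubgroup →* ℤˣ := by
  classical
  exact
  { toFun := fun s => if (s : AlgebraicClosure K ≃ₐ[K] AlgebraicClosure K) r = r then 1 else -1
    map_one' := by simp
    map_mul' := by
      intro s t
      have h1 : (r : AlgebraicClosure K) ≠ -r := fun h => hr0 (self_eq_neg.1 h)
      have h2 : (-r : AlgebraicClosure K) ≠ r := fun h => h1 h.symm
      show (if (s : AlgebraicClosure K ≃ₐ[K] AlgebraicClosure K) (t.1 r) = r then (1 : ℤˣ) else -1) =
        _
      rcases hr s s.2 with hs | hs <;> rcases hr t t.2 with ht | ht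
      · simp [hs, ht]
      · simp [hs, ht, h2]
      · simp [hs, ht, h2]
      · simp [hs, ht, h2] }

theorem vsChar_spec (L : IntermediateField K (AlgebraicClosure K)) (r : AlgebraicClosure K)
    (hr0 : r ≠ 0) (hr : ∀ s ∈ L.fixingSubgroup, s r = r ∨ s r = -r) (s : L.fixingSubgroup) :
    (s : AlgebraicClosure K ≃ₐ[K] AlgebraicClosure K) • r =
      ((vsChar L r hr0 hr s : ℤ) : AlgebraicClosure K) * r := by
  classical
  have h1 : vsChar L r hr0 hr s =
    if (s : AlgebraicClosure K ≃ₐ[K] AlgebraicClosure K) r = r then 1 else -1 := rfl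
  rw [h1]
  rcases hr s s.2 with hs | hs
  · rw [if_pos hs]
    simpa using hs
  · have h2 : (-r : AlgebraicClosure K) ≠ r := fun h => hr0 (self_eq_neg.1 h.symm)
    rw [if_neg (by rw [hs]; exact h2)]
    simpa using hs

theorem vsChar_one (L : IntermediateField K (AlgebraicClosure K)) (r : AlgebraicClosure K)
    (hr0 : r ≠ 0) (hr : ∀ s ∈ L.fixingSubgroup, s r = r ∨ s r = -r) (s : L.fixingSubgroup)
    (hs : (s : AlgebraicClosure K ≃ₐ[K] AlgebraicClosure K) r = r) : vsChar L r hr0 hr s = 1 := by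
  classical
  exact if_pos hs

end step

end Pool.Agent.H.MP_ac3185_nt
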